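import Mathlib

/-!
# A graded antipodal lemma for the discrete cube

Given a labelling `t` of the vertices of the cube `{0,1}^n` by positive integers there are two
vertices `s`, `s2` with the same label `k` such that `s2` is at Hamming distance at most `k` from
the antipode of `s`.  (A version of the octahedral Tucker lemma; the idea of using it in this
graded form is due to helper34.)
-/

set_option autoImplicit false

open Finset

namespace Pool.Agent.Lib.Helper30.Tucker

variable {n : ℕ}

/-- Sign pattern: alternating, starting with `b`. -/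
def tgt (b : Bool) : ℕ → Bool
  | 0 => b
  | (k + 1) => !(tgt b k)

lemma tgt_not (b : Bool) (k : ℕ) : tgt (!b) k = !(tgt b k) := by
  induction k with
  | zero => rfl
  | succ k ih => simp [tgt, ih]

/-- Number (mod 2) of alternating chains of faces ending at `(S, v)`, with signs starting
with `b`. -/
def P (s : Finset (Fin n) → (Fin n → Bool) → Bool) (b : Bool) :
    ℕ → Finset (Fin n) → (Fin n → Bool) → ZMod 2
  | 0, _, _ => 1
  | (k + 1), S, v => if s S v = tgt b k then ∑ j ∈ S, P s b k (S.erase j) v else 0

/-- Number (mod 2) of alternating chains strictly below `(S, v)`. -/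
def c (s : Finset (Fin n) → (Fin n → Bool) → Bool) (b : Bool) (k : ℕ) (S : Finset (Fin n))
    (v : Fin n → Bool) : ZMod 2 := ∑ j ∈ S, P s b k (S.erase j) v

lemma P_succ (s : Finset (Fin n) → (Fin n → Bool) → Bool) (b : Bool) (k : ℕ)
    (S : Finset (Fin n)) (v : Fin n → Bool) :
    P s b (k + 1) S v = if s S v = tgt b k then c s b k S v else 0 := rfl

lemma double (S : Finset (Fin n)) (F : Finset (Fin n) → ZMod 2) :
    ∑ j ∈ S, ∑ i ∈ S.erase j, F ((S.erase j).erase i) = 0 := by
  rw [Finset.sum_sigma']
  refine Finset.sum_involution (fun p _ => ⟨p.2, p.1⟩) ?_ ?_ ?_ ?_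
  · rintro ⟨j, i⟩ _
    simp only
    rw [Finset.erase_right_comm]
    exact CharTwo.add_self_eq_zero _
  · rintro ⟨j, i⟩ h _ heq
    simp only [Finset.mem_sigma, Finset.mem_erase] at h
    have : i = j := (Sigma.mk.inj_iff.1 heq).1
    exact h.2.1 this
  · rintro ⟨j, i⟩ h
    simp only [Finset.mem_sigma, Finset.mem_erase] at h ⊢
    exact ⟨h.2.2, fun h' => h.2.1 h'.symm, h.1⟩
  · rintro ⟨j, i⟩ h
    rfl

lemma star (s : Finset (Fin n) → (Fin n → Bool) → Bool) (k : ℕ) :
    ∀ (S : Finset (Fin n)) (v : Fin n → Bool), c s true k S v = c s false k S v := by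
  induction k with
  | zero => intro S v; rfl
  | succ k ih =>
    intro S v
    have h1 : c s true (k + 1) S v + c s false (k + 1) S v = 0 := by
      unfold c
      rw [← Finset.sum_add_distrib]
      have h2 : ∀ j ∈ S, P s true (k + 1) (S.erase j) v + P s false (k + 1) (S.erase j) v =
          ∑ i ∈ S.erase j, P s true k ((S.erase j).erase i) v := by
        intro j _
        rw [P_succ, P_succ, ← ih]
        have h3 : tgt false k = !(tgt true k) := tgt_not true k
        rw [h3]
        change _ = c s true k (S.erase j) v
        cases s (S.erase j) v <;> cases tgt true k <;> simp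
      rw [Finset.sum_congr rfl h2]
      exact double S (fun T => P s true k T v)
    have h4 := CharTwo.add_eq_zero.1 h1
    exact h4

lemma P_loc {s : Finset (Fin n) → (Fin n → Bool) → Bool}
    (hloc : ∀ S v w, (∀ i ∈ S, v i = w i) → s S v = s S w) (b : Bool) (k : ℕ) :
    ∀ (S : Finset (Fin n)) (v w : Fin n → Bool), (∀ i ∈ S, v i = w i) → P s b k S v = P s b k S w := by
  induction k with
  | zero => intro S v w _; rfl
  | succ k ih =>
    intro S v w h
    rw [P_succ, P_succ, hloc S v w h]
    have : c s b k S v = c s b k S w := by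
      unfold c
      apply Finset.sum_congr rfl
      intro j _
      exact ih _ v w (fun i hi => h i (Finset.mem_of_mem_erase hi))
    rw [this]

lemma P_anti {s : Finset (Fin n) → (Fin n → Bool) → Bool}
    (hanti : ∀ (S : Finset (Fin n)) v, S.Nonempty → S.card < n → s S (fun i => !(v i)) = !(s S v))
    (b : Bool) (k : ℕ) :
    ∀ (S : Finset (Fin n)) (v : Fin n → Bool), S.card = k → k < n →
      P s b k S (fun i => !(v i)) = P s (!b) k S v := by
  induction k with
  | zero => intro S v _ _; rfl
  | succ k ih =>
    intro S v hS hk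
    rw [P_succ, P_succ, hanti S v (Finset.card_pos.1 (by omega)) (by omega), tgt_not]
    have h1 : c s b k S (fun i => !(v i)) = c s (!b) k S v := by
      unfold c
      apply Finset.sum_congr rfl
      intro j hj
      exact ih _ v (by rw [Finset.card_erase_of_mem hj]; omega) (by omega)
    rw [h1]
    cases s S v <;> cases tgt b k <;> simp

/-- The first `k` coordinates. -/
def Sk (n k : ℕ) : Finset (Fin n) := Finset.univ.filter (fun i => i.val < k)

/-- Full sign vectors on the first `k` coordinates (the others are `true`). -/
def Vk (n k : ℕ) : Finset (Fin n → Bool) :=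
  Finset.univ.filter (fun v => ∀ i : Fin n, k ≤ i.val → v i = true)

lemma card_Sk {n k : ℕ} (hk : k ≤ n) : (Sk n k).card = k := by
  unfold Sk
  rw [Fin.card_filter_val_lt]
  omega

lemma Sk_erase {n k : ℕ} (hk : k < n) : (Sk n (k + 1)).erase ⟨k, hk⟩ = Sk n k := by
  ext i
  simp only [Sk, Finset.mem_erase, Finset.mem_filter, Finset.mem_univ, true_and, Fin.ext_iff, ne_eq]
  omega

/-- Summation over the vertices of one hemisphere. -/
lemma sum_c {s : Finset (Fin n) → (Fin n → Bool) → Bool}
    (hloc : ∀ S v w, (∀ i ∈ S, v i = w i) → s S v = s S w) (b : Bool) {k : ℕ} (hk : k < n) :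
    ∑ v ∈ Vk n k, c s b k (Sk n (k + 1)) v = ∑ v ∈ Vk n k, P s b k (Sk n k) v := by
  unfold c
  rw [Finset.sum_comm]
  have hmem : (⟨k, hk⟩ : Fin n) ∈ Sk n (k + 1) := by simp [Sk]
  rw [← Finset.add_sum_erase _ _ hmem, Sk_erase hk]
  have h0 : ∑ j ∈ Sk n k, ∑ v ∈ Vk n k, P s b k ((Sk n (k + 1)).erase j) v = 0 := by
    apply Finset.sum_eq_zero
    intro j hj
    have hj' : j.val < k := by simpa [Sk] using hj
    refine Finset.sum_involution (fun v _ => Function.update v j (!(v j))) ?_ ?_ ?_ ?_
    · intro v _
      have h1 : P s b k ((Sk n (k + 1)).erase j) (Function.update v j (!(v j))) =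
          P s b k ((Sk n (k + 1)).erase j) v := by
        apply P_loc hloc
        intro i hi
        rw [Function.update_of_ne (Finset.ne_of_mem_erase hi)]
      rw [h1]
      exact CharTwo.add_self_eq_zero _
    · intro v _ _ h
      have := congrFun h j
      rw [Function.update_self] at this
      cases hv : v j <;> rw [hv] at this <;> simp at this
    · intro v hv
      simp only [Vk, Finset.mem_filter, Finset.mem_univ, true_and] at hv ⊢
      intro i hi
      rw [Function.update_of_ne (by rintro rfl; omega)]
      exact hv i hi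
    · intro v _
      simp
  rw [h0, add_zero]

lemma sum_P_succ {s : Finset (Fin n) → (Fin n → Bool) → Bool}
    (hloc : ∀ S v w, (∀ i ∈ S, v i = w i) → s S v = s S w)
    (hanti : ∀ (S : Finset (Fin n)) v, S.Nonempty → S.card < n → s S (fun i => !(v i)) = !(s S v))
    {k : ℕ} (hk : k + 1 < n) :
    ∑ v ∈ Vk n (k + 1), P s true (k + 1) (Sk n (k + 1)) v =
      ∑ v ∈ Vk n k, P s true k (Sk n k) v := by
  have hkn : k < n := by omega
  rw [← sum_c hloc true hkn]
  rw [← Finset.sum_filter_add_sum_filter_not (Vk n (k + 1)) (fun v => v ⟨k, hkn⟩ = true)]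
  have h1 : (Vk n (k + 1)).filter (fun v => v ⟨k, hkn⟩ = true) = Vk n k := by
    ext v
    simp only [Vk, Finset.mem_filter, Finset.mem_univ, true_and]
    constructor
    · rintro ⟨h1, h2⟩ i hi
      rcases Nat.lt_or_ge k i.val with h | h
      · exact h1 i h
      · have : i = ⟨k, hkn⟩ := Fin.ext (by simp; omega)
        rw [this]; exact h2
    · intro h
      exact ⟨fun i hi => h i (by omega), h _ (le_refl _)⟩
  have h2 : ∑ v ∈ (Vk n (k + 1)).filter (fun v => ¬ v ⟨k, hkn⟩ = true),
      P s true (k + 1) (Sk n (k + 1)) v = ∑ v ∈ Vk n k, P s false (k + 1) (Sk n (k + 1)) v := by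
    refine Finset.sum_nbij' (fun v i => if i.val < k + 1 then !(v i) else v i)
      (fun v i => if i.val < k + 1 then !(v i) else v i) ?_ ?_ ?_ ?_ ?_
    · intro v hv
      simp only [Vk, Finset.mem_filter, Finset.mem_univ, true_and] at hv ⊢
      intro i hi
      by_cases h : i.val < k + 1
      · rw [if_pos h]
        have : i = ⟨k, hkn⟩ := Fin.ext (by simp; omega)
        rw [this]
        have := hv.2
        simpa using this
      · rw [if_neg h]
        exact hv.1 i (by omega)
    · intro v hv
      simp only [Vk, Finset.mem_filter, Finset.mem_univ, true_and] at hv ⊢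
      constructor
      · intro i hi
        rw [if_neg (by omega)]
        exact hv i (by omega)
      · rw [if_pos (by simp)]
        rw [hv ⟨k, hkn⟩ (le_refl _)]
        simp
    · intro v _
      funext i
      simp only
      split_ifs <;> simp
    · intro v _
      funext i
      simp only
      split_ifs <;> simp
    · intro v _
      have h3 : P s true (k + 1) (Sk n (k + 1)) v =
          P s true (k + 1) (Sk n (k + 1)) (fun i => !((if i.val < k + 1 then !(v i) else v i))) := by
        apply P_loc hloc
        intro i hi
        have : i.val < k + 1 := by simpa [Sk] using hi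
        rw [if_pos this]
        simp
      rw [h3]
      have h4 := P_anti hanti true (k + 1) (Sk n (k + 1)) (fun i => if i.val < k + 1 then !(v i) else v i)
        (card_Sk (by omega)) hk
      exact h4
  rw [h1, h2, ← Finset.sum_add_distrib]
  apply Finset.sum_congr rfl
  intro v _
  rw [P_succ, P_succ, ← star]
  have h3 : tgt false k = !(tgt true k) := tgt_not true k
  rw [h3]
  cases s (Sk n (k + 1)) v <;> cases tgt true k <;> simp

lemma sum_P_eq_one {s : Finset (Fin n) → (Fin n → Bool) → Bool}
    (hloc : ∀ S v w, (∀ i ∈ S, v i = w i) → s S v = s S w)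
    (hanti : ∀ (S : Finset (Fin n)) v, S.Nonempty → S.card < n → s S (fun i => !(v i)) = !(s S v))
    {k : ℕ} (hk : k < n) : ∑ v ∈ Vk n k, P s true k (Sk n k) v = 1 := by
  induction k with
  | zero =>
    have h1 : Vk n 0 = {fun _ => true} := by
      ext v
      simp only [Vk, Finset.mem_filter, Finset.mem_univ, true_and, Finset.mem_singleton]
      constructor
      · intro h
        funext i
        exact h i (Nat.zero_le _)
      · rintro rfl i _
        rfl
    rw [h1, Finset.sum_singleton]
    rfl
  | succ k ih => rw [sum_P_succ hloc hanti hk, ih (by omega)]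

/-- If all faces of size `m` below `v` have sign different from the target, no chain. -/
lemma P_eq_zero {s : Finset (Fin n) → (Fin n → Bool) → Bool} {b : Bool} {m : ℕ} {v : Fin n → Bool}
    (h : ∀ S : Finset (Fin n), S.card = m + 1 → s S v ≠ tgt b m) (k : ℕ) :
    ∀ S : Finset (Fin n), S.card = k → m < k → P s b k S v = 0 := by
  induction k with
  | zero => intro S _ h; omega
  | succ k ih =>
    intro S hS hk
    rw [P_succ]
    rcases Nat.lt_or_ge m k with hmk | hmk
    · split_ifs
      · unfold c
        apply Finset.sum_eq_zero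
        intro j hj
        exact ih _ (by rw [Finset.card_erase_of_mem hj]; omega) hmk
      · rfl
    · have : k = m := by omega
      subst this
      rw [if_neg (h S hS)]

open Classical in
/-- **Graded antipodal lemma.** -/
theorem graded_antipodal (n : ℕ) (t : (Fin n → Bool) → ℕ) (ht : ∀ s, 1 ≤ t s) :
    ∃ s s2 : Fin n → Bool, t s = t s2 ∧ hammingDist s2 (fun i => !(s i)) ≤ t s := by
  by_contra hcon
  push Not at hcon
  have hself : ∀ v : Fin n → Bool, hammingDist v (fun i => !(v i)) = n := by
    intro v
    unfold hammingDist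
    simp
  have htn : ∀ v, t v < n := fun v => by
    have := hcon v v rfl
    rwa [hself] at this
  have htne : ∀ v, t v ≠ t (fun i => !(v i)) := by
    intro v h
    have := hcon v (fun i => !(v i)) h
    simp [hammingDist_self] at this
  set l : (Fin n → Bool) → ℕ := fun v => min (t v) (t (fun i => !(v i))) with hl
  set E : Bool → Finset (Fin n) → (Fin n → Bool) → Prop := fun b S v =>
    ∃ w : Fin n → Bool, (∀ i ∈ S, w i = v i) ∧ l w + S.card = n ∧
      decide (t w < t (fun i => !(w i))) = b with hE
  -- both signs cannot occur
  have hnot : ∀ S v, ¬ (E true S v ∧ E false S v) := by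
    rintro S v ⟨⟨w, hw1, hw2, hw3⟩, ⟨w', hw1', hw2', hw3'⟩⟩
    have e1 : t w < t (fun i => !(w i)) := by simpa using hw3
    have e2 : t (fun i => !(w' i)) < t w' := by
      have h1 : ¬ t w' < t (fun i => !(w' i)) := by simpa using hw3'
      have h2 := htne w'
      omega
    have e3 : l w = t w := min_eq_left e1.le
    have e4 : l w' = t (fun i => !(w' i)) := min_eq_right e2.le
    have e5 : t w = t (fun i => !(w' i)) := by omega
    have e6 := hcon w (fun i => !(w' i)) e5
    have e7 : hammingDist (fun i => !(w' i)) (fun i => !(w i)) + S.card ≤ n := by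
      have h1 : hammingDist (fun i => !(w' i)) (fun i => !(w i)) ≤ (Sᶜ).card := by
        unfold hammingDist
        apply Finset.card_le_card
        intro i hi
        rw [Finset.mem_compl]
        intro hiS
        rw [Finset.mem_filter] at hi
        apply hi.2
        simp only
        rw [hw1 i hiS, hw1' i hiS]
      rw [Finset.card_compl, Fintype.card_fin] at h1
      have h3 : S.card ≤ n := by simpa using Finset.card_le_univ S
      omega
    omega
  have hEanti : ∀ b S v, E b S (fun i => !(v i)) → E (!b) S v := by
    rintro b S v ⟨w, hw1, hw2, hw3⟩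
    refine ⟨fun i => !(w i), fun i hi => by simp only; rw [hw1 i hi]; simp, ?_, ?_⟩
    · have h1 : l (fun i => !(w i)) = l w := by
        rw [hl]
        simp only [Bool.not_not]
        rw [min_comm]
      rw [h1]
      exact hw2
    · simp only [Bool.not_not]
      have h2 := htne w
      rw [← hw3]
      rcases lt_or_gt_of_ne h2 with h | h
      · simp [h, not_lt.2 h.le]
      · simp [h, not_lt.2 h.le]
  have hEanti' : ∀ b S v, E (!b) S v → E b S (fun i => !(v i)) := by
    intro b S v h
    have := hEanti (!b) S (fun i => !(v i)) (by simpa using h)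
    simpa using this
  have hEloc : ∀ b S v w, (∀ i ∈ S, v i = w i) → E b S v → E b S w := by
    rintro b S v w h ⟨u, hu1, hu2⟩
    exact ⟨u, fun i hi => (hu1 i hi).trans (h i hi), hu2⟩
  set s : Finset (Fin n) → (Fin n → Bool) → Bool := fun S v =>
    if E true S v then true else if E false S v then false else
      (if h : S.Nonempty then v (S.min' h) else true) with hs
  have hloc : ∀ S v w, (∀ i ∈ S, v i = w i) → s S v = s S w := by
    intro S v w h
    have h1 : ∀ b, E b S v ↔ E b S w := fun b =>
      ⟨hEloc b S v w h, hEloc b S w v (fun i hi => (h i hi).symm)⟩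
    rw [hs]
    simp only [h1]
    by_cases hS : S.Nonempty
    · simp only [hS, dite_true]
      rw [h _ (S.min'_mem hS)]
    · simp only [hS, dite_false]
  have hanti : ∀ (S : Finset (Fin n)) v, S.Nonempty → S.card < n →
      s S (fun i => !(v i)) = !(s S v) := by
    intro S v hS _
    have h1 : E true S (fun i => !(v i)) ↔ E false S v := ⟨hEanti true S v, hEanti' true S v⟩
    have h2 : E false S (fun i => !(v i)) ↔ E true S v := ⟨hEanti false S v, hEanti' false S v⟩
    have h3 := hnot S v
    rw [hs]
    simp only [h1, h2, hS, dite_true]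
    by_cases ha : E true S v <;> by_cases hb : E false S v
    · exact absurd ⟨ha, hb⟩ h3
    · simp [ha, hb]
    · simp [ha, hb]
    · simp [ha, hb]
  -- dimension
  have hn : 0 < n := lt_of_lt_of_le Nat.zero_lt_one ((ht (fun _ => true)).trans (htn _).le)
  obtain ⟨k, rfl⟩ : ∃ k, n = k + 1 := ⟨n - 1, by omega⟩
  have hone := sum_P_eq_one hloc hanti (k := k) (by omega)
  rw [← sum_c hloc true (by omega)] at hone
  have hSk : Sk (k + 1) (k + 1) = Finset.univ := by
    ext i
    simp only [Sk, Finset.mem_filter, Finset.mem_univ, true_and, iff_true]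
    exact i.isLt
  rw [hSk] at hone
  have hzero : ∀ v, c s true k Finset.univ v = 0 := by
    intro v
    have hl1 : 1 ≤ l v := le_min (ht _) (ht _)
    have hl2 : l v < k + 1 := lt_of_le_of_lt (min_le_left _ _) (htn v)
    set m := k - l v with hm
    have hsgn : ∀ S : Finset (Fin (k + 1)), S.card = m + 1 →
        s S v = decide (t v < t (fun i => !(v i))) := by
      intro S hS
      have hEv : E (decide (t v < t (fun i => !(v i)))) S v :=
        ⟨v, fun _ _ => rfl, by omega, rfl⟩
      have h3 := hnot S v
      rw [hs]
      simp only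
      cases hd : decide (t v < t (fun i => !(v i)))
      · rw [hd] at hEv
        have : ¬ E true S v := fun h => h3 ⟨h, hEv⟩
        rw [if_neg this, if_pos hEv]
      · rw [hd] at hEv
        rw [if_pos hEv]
    have hall : ∀ b, tgt b m ≠ decide (t v < t (fun i => !(v i))) → c s b k Finset.univ v = 0 := by
      intro b hb
      unfold c
      apply Finset.sum_eq_zero
      intro j hj
      apply P_eq_zero (m := m) (fun S hS => by rw [hsgn S hS]; exact hb.symm) k
      · rw [Finset.card_erase_of_mem hj]; simp
      · omega
    by_cases hb : tgt true m = decide (t v < t (fun i => !(v i)))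
    · rw [star]
      apply hall
      have h3 : tgt false m = !(tgt true m) := tgt_not true m
      rw [h3, hb]
      simp
    · exact hall true hb
  rw [Finset.sum_eq_zero (fun v _ => hzero v)] at hone
  exact absurd hone (by decide)

end Pool.Agent.Lib.Helper30.Tucker
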