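import Mathlib
import Pool.Agent.Lib.Helper30.GradedTucker

/-!
# Hausdorff dimension of `E + E` for achievement sets `E`
-/

set_option autoImplicit false

open MeasureTheory Set Filter Topology
open scoped ENNReal NNReal Pointwise

namespace Pool.Agent.Lib.Helper30.Achieve

/-- The achievement set. -/
def achSet (x : ℕ → ℝ) : Set ℝ := Set.range (fun A : Set ℕ => ∑' n, A.indicator x n)

lemma summable_ind {x : ℕ → ℝ} (hs : Summable x) (A : Set ℕ) : Summable (A.indicator x) :=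
  hs.indicator A

lemma isCompact_achSet {x : ℕ → ℝ} (hx : ∀ n, 0 < x n) (hs : Summable x) :
    IsCompact (achSet x) := by
  have h1 : achSet x = Set.range (fun b : ℕ → Bool => ∑' n, (if b n then x n else 0)) := by
    ext z
    constructor
    · rintro ⟨A, rfl⟩
      classical
      refine ⟨fun n => decide (n ∈ A), ?_⟩
      simp [Set.indicator_apply]
    · rintro ⟨b, rfl⟩
      refine ⟨{n | b n = true}, ?_⟩
      simp [Set.indicator_apply]
  rw [h1]
  apply isCompact_range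
  apply continuous_tsum (u := fun n => x n)
  · intro n
    have : Continuous (fun c : Bool => if c then x n else 0) := continuous_of_discreteTopology
    exact this.comp (continuous_apply n)
  · exact hs
  · intro n b
    split_ifs
    · simp [abs_of_pos (hx n)]
    · simp [(hx n).le]

/-- Finite multi-scale cover of a compact set with vanishing `s`-dimensional Hausdorff measure. -/
lemma exists_cover {E : Set ℝ} (hE : IsCompact E) {s : ℝ} (hs : 0 < s) (h0 : μH[s] E = 0)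
    {r : ℕ → ℝ} (hr : ∀ i, 0 < r i) (hr0 : Tendsto r atTop (𝓝 0)) (i0 : ℕ) :
    ∃ (F : Finset ℕ) (c : ℕ → ℝ) (lab : ℕ → ℕ), (∀ n, i0 ≤ lab n) ∧
      (∀ u ∈ E, ∃ n ∈ F, |u - c n| < 2 * r (lab n)) ∧
      ∀ i, ((F.filter (fun n => lab n = i)).card : ℝ) * r (i + 1) ^ s ≤ 1 := by
  have hri0 : 0 < r i0 := hr i0
  rw [Measure.hausdorffMeasure_apply] at h0
  have h1 := ENNReal.iSup_eq_zero.1 h0 (ENNReal.ofReal (r i0))
  have h2 := ENNReal.iSup_eq_zero.1 h1 (by simpa using hri0)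
  -- choose the cover
  have h3 : ∃ t : ℕ → Set ℝ, E ⊆ ⋃ n, t n ∧ (∀ n, Metric.ediam (t n) ≤ ENNReal.ofReal (r i0)) ∧
      ∑' n, ⨆ _ : (t n).Nonempty, Metric.ediam (t n) ^ s < ENNReal.ofReal (1 / 2) := by
    have h4 : (⨅ (t : ℕ → Set ℝ) (_ : E ⊆ ⋃ n, t n) (_ : ∀ n, Metric.ediam (t n) ≤ ENNReal.ofReal (r i0)),
      ∑' n, ⨆ _ : (t n).Nonempty, Metric.ediam (t n) ^ s) < ENNReal.ofReal (1 / 2) := by
      rw [h2]; simp
    simp only [iInf_lt_iff] at h4
    obtain ⟨t, ht1, ht2, ht3⟩ := h4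
    exact ⟨t, ht1, ht2, ht3⟩
  obtain ⟨t, htE, htd, htsum⟩ := h3
  -- small numbers
  set e : ℕ → ℝ := fun n => min (r i0) (((1 / 2 : ℝ) ^ (n + 2)) ^ (1 / s)) with he
  have he0 : ∀ n, 0 < e n := fun n => lt_min hri0 (by positivity)
  have hes : ∀ n, e n ^ s ≤ (1 / 2 : ℝ) ^ (n + 2) := by
    intro n
    have h5 : e n ^ s ≤ (((1 / 2 : ℝ) ^ (n + 2)) ^ (1 / s)) ^ s :=
      Real.rpow_le_rpow (he0 n).le (min_le_right _ _) hs.le
    rwa [← Real.rpow_mul (by positivity), one_div_mul_cancel hs.ne', Real.rpow_one] at h5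
  have hdfin : ∀ n, Metric.ediam (t n) ≠ ⊤ := fun n => ((htd n).trans_lt ENNReal.ofReal_lt_top).ne
  set ρ : ℕ → ℝ := fun n => max (Metric.ediam (t n)).toReal (e n) with hρ
  have hρ0 : ∀ n, 0 < ρ n := fun n => lt_max_of_lt_right (he0 n)
  have hρr : ∀ n, ρ n ≤ r i0 := by
    intro n
    refine max_le ?_ (min_le_left _ _)
    calc (Metric.ediam (t n)).toReal ≤ (ENNReal.ofReal (r i0)).toReal :=
          ENNReal.toReal_mono ENNReal.ofReal_ne_top (htd n)
      _ = r i0 := ENNReal.toReal_ofReal hri0.le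
  have hDeq : ∀ n, (⨆ _ : (t n).Nonempty, Metric.ediam (t n) ^ s) = Metric.ediam (t n) ^ s := by
    intro n
    by_cases hn : (t n).Nonempty
    · simp [hn]
    · rw [Set.not_nonempty_iff_eq_empty] at hn
      simp [hn, ENNReal.zero_rpow_of_pos hs]
  have hρs : ∀ n, ρ n ^ s ≤ (Metric.ediam (t n) ^ s).toReal + (1 / 2 : ℝ) ^ (n + 2) := by
    intro n
    rw [← ENNReal.toReal_rpow]
    rcases le_total (Metric.ediam (t n)).toReal (e n) with h | h
    · rw [hρ]
      simp only [max_eq_right h]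
      have := hes n
      have h6 : (0:ℝ) ≤ (Metric.ediam (t n)).toReal ^ s := by positivity
      linarith
    · rw [hρ]
      simp only [max_eq_left h]
      have h6 : (0:ℝ) ≤ (1 / 2 : ℝ) ^ (n + 2) := by positivity
      linarith
  have hsumF : ∀ F : Finset ℕ, ∑ n ∈ F, ρ n ^ s ≤ 1 := by
    intro F
    have h7 : ∑ n ∈ F, (Metric.ediam (t n) ^ s).toReal ≤ 1 / 2 := by
      rw [← ENNReal.toReal_sum]
      · have h8 : ∑ n ∈ F, Metric.ediam (t n) ^ s ≤ ENNReal.ofReal (1 / 2) := by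
          refine le_trans ?_ htsum.le
          simp_rw [hDeq]
          exact ENNReal.sum_le_tsum F
        calc (∑ n ∈ F, Metric.ediam (t n) ^ s).toReal ≤ (ENNReal.ofReal (1 / 2)).toReal :=
              ENNReal.toReal_mono ENNReal.ofReal_ne_top h8
          _ = 1 / 2 := ENNReal.toReal_ofReal (by norm_num)
      · intro n _
        exact ENNReal.rpow_ne_top_of_nonneg hs.le (hdfin n)
    have h9 : ∑ n ∈ F, (1 / 2 : ℝ) ^ (n + 2) ≤ 1 / 2 := by
      have hsm : Summable (fun n : ℕ => (1 / 2 : ℝ) ^ (n + 2)) := by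
        simp_rw [pow_add]
        exact (summable_geometric_of_lt_one (by norm_num) (by norm_num)).mul_right _
      refine (hsm.sum_le_tsum F (fun n _ => by positivity)).trans ?_
      simp_rw [pow_add]
      rw [tsum_mul_right, tsum_geometric_of_lt_one (by norm_num) (by norm_num)]
      norm_num
    calc ∑ n ∈ F, ρ n ^ s ≤ ∑ n ∈ F, ((Metric.ediam (t n) ^ s).toReal + (1 / 2 : ℝ) ^ (n + 2)) :=
          Finset.sum_le_sum fun n _ => hρs n
      _ = _ + _ := Finset.sum_add_distrib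
      _ ≤ 1 := by linarith
  -- labels
  have hex : ∀ n, ∃ i, i0 ≤ i ∧ r (i + 1) < ρ n := by
    intro n
    have h10 : ∀ᶠ i in atTop, r (i + 1) < ρ n :=
      ((tendsto_add_atTop_iff_nat 1).2 hr0).eventually_lt_const (hρ0 n)
    obtain ⟨i, hi1, hi2⟩ := ((eventually_ge_atTop i0).and h10).exists
    exact ⟨i, hi1, hi2⟩
  classical
  set lab : ℕ → ℕ := fun n => Nat.find (hex n) with hlab
  have hlab1 : ∀ n, i0 ≤ lab n := fun n => (Nat.find_spec (hex n)).1
  have hlab2 : ∀ n, r (lab n + 1) < ρ n := fun n => (Nat.find_spec (hex n)).2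
  have hlab3 : ∀ n, ρ n ≤ r (lab n) := by
    intro n
    by_contra hcon
    push Not at hcon
    have hne : lab n ≠ i0 := by
      intro h
      rw [h] at hcon
      exact absurd (hρr n) (not_le.2 hcon)
    have hgt : i0 < lab n := lt_of_le_of_ne (hlab1 n) hne.symm
    have : ¬ (i0 ≤ lab n - 1 ∧ r (lab n - 1 + 1) < ρ n) := Nat.find_min (hex n) (by
      change lab n - 1 < lab n
      omega)
    apply this
    refine ⟨by omega, ?_⟩
    rwa [Nat.sub_add_cancel (by omega)]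
  -- centres
  set c : ℕ → ℝ := fun n => if h : (t n).Nonempty then h.some else 0 with hc
  have hdist : ∀ n, ∀ u ∈ t n, |u - c n| ≤ ρ n := by
    intro n u hu
    have hne : (t n).Nonempty := ⟨u, hu⟩
    have h11 : c n ∈ t n := by
      rw [hc]
      simp only [hne, dite_true]
      exact hne.some_mem
    have h12 : edist u (c n) ≤ Metric.ediam (t n) := Metric.edist_le_ediam_of_mem hu h11
    have h13 : dist u (c n) ≤ (Metric.ediam (t n)).toReal := by
      rw [edist_dist] at h12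
      exact (ENNReal.ofReal_le_iff_le_toReal (hdfin n)).1 h12
    rw [Real.dist_eq] at h13
    exact h13.trans (le_max_left _ _)
  -- finite subcover
  obtain ⟨F, hF⟩ := hE.elim_finite_subcover (fun n => Metric.ball (c n) (2 * r (lab n)))
    (fun n => Metric.isOpen_ball) (by
      intro u hu
      obtain ⟨n, hn⟩ := Set.mem_iUnion.1 (htE hu)
      refine Set.mem_iUnion.2 ⟨n, ?_⟩
      rw [Metric.mem_ball, Real.dist_eq]
      have := hdist n u hn
      have h14 := hlab3 n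
      have h15 := hr (lab n)
      linarith)
  refine ⟨F, c, lab, hlab1, ?_, ?_⟩
  · intro u hu
    have h16 := hF hu
    simp only [Set.mem_iUnion, Metric.mem_ball, Real.dist_eq] at h16
    obtain ⟨n, hn, h17⟩ := h16
    exact ⟨n, hn, h17⟩
  · intro i
    calc ((F.filter (fun n => lab n = i)).card : ℝ) * r (i + 1) ^ s
        = ∑ n ∈ F.filter (fun n => lab n = i), r (i + 1) ^ s := by
          rw [Finset.sum_const, nsmul_eq_mul]
      _ ≤ ∑ n ∈ F.filter (fun n => lab n = i), ρ n ^ s := by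
          apply Finset.sum_le_sum
          intro n hn
          have hn' : lab n = i := (Finset.mem_filter.1 hn).2
          rw [← hn']
          exact Real.rpow_le_rpow (hr _).le (hlab2 n).le hs.le
      _ ≤ 1 := hsumF _

/-- `i`-fold sumset of a finite set of reals. -/
noncomputable def W (G : Finset ℝ) : ℕ → Finset ℝ
  | 0 => {0}
  | (i + 1) => W G i + G

lemma card_W (G : Finset ℝ) (i : ℕ) : (W G i).card ≤ G.card ^ i := by
  induction i with
  | zero => simp [W]
  | succ i ih =>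
    rw [W, pow_succ]
    exact Finset.card_add_le.trans (Nat.mul_le_mul_right _ ih)

lemma zero_mem_W {G : Finset ℝ} (h0 : (0:ℝ) ∈ G) (i : ℕ) : (0:ℝ) ∈ W G i := by
  induction i with
  | zero => simp [W]
  | succ i ih =>
    rw [W]
    exact Finset.mem_add.2 ⟨0, ih, 0, h0, by simp⟩

lemma exists_W {ι : Type*} {G : Finset ℝ} (h0 : (0:ℝ) ∈ G) {ρ : ℝ} (hρ : 0 ≤ ρ)
    (J : Finset ι) (f : ι → ℝ) (hf : ∀ j ∈ J, ∃ g ∈ G, |f j - g| ≤ ρ) :
    ∀ i, J.card ≤ i → ∃ w ∈ W G i, |∑ j ∈ J, f j - w| ≤ i * ρ := by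
  classical
  induction J using Finset.induction_on with
  | empty =>
    intro i _
    exact ⟨0, zero_mem_W h0 i, by simpa using by positivity⟩
  | insert a J ha ih =>
    intro i hi
    rw [Finset.card_insert_of_notMem ha] at hi
    obtain ⟨i', rfl⟩ : ∃ i', i = i' + 1 := ⟨i - 1, by omega⟩
    obtain ⟨w, hw, hw2⟩ := ih (fun j hj => hf j (Finset.mem_insert_of_mem hj)) i' (by omega)
    obtain ⟨g, hg, hg2⟩ := hf a (Finset.mem_insert_self _ _)
    refine ⟨w + g, ?_, ?_⟩
    · rw [W]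
      exact Finset.add_mem_add hw hg
    · rw [Finset.sum_insert ha]
      have : f a + ∑ j ∈ J, f j - (w + g) = (∑ j ∈ J, f j - w) + (f a - g) := by ring
      rw [this]
      refine (abs_add_le _ _).trans ?_
      push_cast
      linarith

lemma finset_sum_mem_achSet (x : ℕ → ℝ) (S : Finset ℕ) : ∑ n ∈ S, x n ∈ achSet x := by
  refine ⟨(S : Set ℕ), ?_⟩
  change ∑' n, (S : Set ℕ).indicator x n = _
  rw [tsum_eq_sum (s := S)]
  · apply Finset.sum_congr rfl
    intro n hn
    simp [hn]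
  · intro n hn
    simp [hn]

lemma trunc {x : ℕ → ℝ} (hx : ∀ n, 0 < x n) (hs : Summable x) (A : Set ℕ) {n0 : ℕ} {δ : ℝ}
    (hn0 : ∑' k, x (k + n0) ≤ δ) :
    |∑' n, A.indicator x n - ∑ n ∈ Finset.range n0, A.indicator x n| ≤ δ := by
  have h1 := (summable_ind hs A).sum_add_tsum_nat_add n0
  rw [← h1, add_sub_cancel_left]
  have h2 : ∀ k, 0 ≤ A.indicator x (k + n0) := fun k =>
    Set.indicator_nonneg (fun n _ => (hx n).le) _
  rw [abs_of_nonneg (tsum_nonneg h2)]
  refine le_trans ?_ hn0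
  apply Summable.tsum_le_tsum
  · intro k
    exact Set.indicator_le_self' (fun n _ => (hx n).le) _
  · exact (summable_nat_add_iff n0).2 (summable_ind hs A)
  · exact (summable_nat_add_iff n0).2 hs

/-- Splitting of a point of the self-sum, with the same label for the two summands and as many
error terms as the label. -/
lemma split
    {x : ℕ → ℝ} (hx : ∀ n, 0 < x n) (hs : Summable x) (lab : ℝ → ℕ)
    (hlab : ∀ u ∈ achSet x, 1 ≤ lab u) {δ : ℝ} (hδ : 0 < δ) {z : ℝ}
    (hz : z ∈ achSet x + achSet x) :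
    ∃ u ∈ achSet x, ∃ v ∈ achSet x, lab u = lab v ∧
      ∃ (m : ℕ) (J : Finset (Fin m)) (f : Fin m → ℝ), J.card ≤ lab u ∧
        (∀ j, ∃ n, f j = x n ∨ f j = - x n) ∧ |z - (u + v + ∑ j ∈ J, f j)| ≤ δ := by
  classical
  obtain ⟨_, ⟨A, rfl⟩, _, ⟨B, rfl⟩, rfl⟩ := Set.mem_add.1 hz
  have htail : ∀ᶠ n0 in atTop, ∑' k, x (k + n0) ≤ δ / 2 := by
    have h := tendsto_sum_nat_add x
    exact (h.eventually_lt_const (half_pos hδ)).mono fun _ h => h.le
  obtain ⟨n0, hn0⟩ := htail.exists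
  have hA := trunc hx hs A hn0
  have hB := trunc hx hs B hn0
  set D : Finset ℕ := (Finset.range n0).filter (fun n => n ∈ A ∧ n ∈ B) with hD
  set K : Finset ℕ := (Finset.range n0).filter (fun n => (n ∈ A ∧ n ∉ B) ∨ (n ∉ A ∧ n ∈ B)) with hK
  have hDK : Disjoint D K := by
    rw [Finset.disjoint_left]
    intro n h1 h2
    simp only [hD, hK, Finset.mem_filter] at h1 h2
    tauto
  have hsumAB : ∑ n ∈ Finset.range n0, A.indicator x n + ∑ n ∈ Finset.range n0, B.indicator x n =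
      2 * ∑ n ∈ D, x n + ∑ n ∈ K, x n := by
    rw [hD, hK, Finset.sum_filter, Finset.sum_filter, Finset.mul_sum, ← Finset.sum_add_distrib,
      ← Finset.sum_add_distrib]
    apply Finset.sum_congr rfl
    intro n _
    by_cases h1 : n ∈ A <;> by_cases h2 : n ∈ B <;> simp [h1, h2, two_mul]
  clear_value D K
  set m := K.card with hm
  set e : Fin m ≃ K := K.equivFin.symm with he
  have hKsum : ∑ n ∈ K, x n = ∑ j : Fin m, x (e j) := by
    rw [← Finset.sum_coe_sort K x]
    exact (Equiv.sum_comp e (fun k : K => x k)).symm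
  set U : (Fin m → Bool) → ℝ := fun σ => ∑ n ∈ D, x n + ∑ j : Fin m, (if σ j then x (e j) else 0)
    with hU
  have hUmem : ∀ σ, U σ ∈ achSet x := by
    intro σ
    have hinj : Set.InjOn (fun j => ((e j : K) : ℕ))
        ((Finset.univ.filter (fun j => σ j = true) : Finset (Fin m)) : Set (Fin m)) := by
      intro a _ b _ hab
      exact e.injective (Subtype.ext hab)
    have hdis : Disjoint D ((Finset.univ.filter (fun j => σ j = true)).image
        (fun j => ((e j : K) : ℕ))) := by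
      rw [Finset.disjoint_left]
      intro n h1 h2
      simp only [Finset.mem_image] at h2
      obtain ⟨j, _, rfl⟩ := h2
      exact Finset.disjoint_left.1 hDK h1 (e j).2
    have h1 : U σ = ∑ n ∈ D ∪ (Finset.univ.filter (fun j => σ j = true)).image
        (fun j => ((e j : K) : ℕ)), x n := by
      rw [Finset.sum_union hdis, Finset.sum_image hinj, Finset.sum_filter]
    rw [h1]
    exact finset_sum_mem_achSet x _
  obtain ⟨σ, σ2, hlabs, hdist⟩ := Tucker.graded_antipodal m (fun σ => lab (U σ)) (fun σ => hlab _ (hUmem σ))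
  have hsum : U σ + U (fun i => !(σ i)) = 2 * ∑ n ∈ D, x n + ∑ n ∈ K, x n := by
    rw [hKsum, hU]
    simp only
    have : ∑ j : Fin m, (if σ j = true then x (e j) else 0) +
        ∑ j : Fin m, (if (!(σ j)) = true then x (e j) else 0) = ∑ j : Fin m, x (e j) := by
      rw [← Finset.sum_add_distrib]
      apply Finset.sum_congr rfl
      intro j _
      cases σ j <;> simp
    linarith
  refine ⟨U σ, hUmem σ, U σ2, hUmem σ2, hlabs, m,
    Finset.univ.filter (fun j => σ2 j ≠ !(σ j)), fun j => (if (!(σ j)) then x (e j) else - x (e j)),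
    ?_, ?_, ?_⟩
  · exact hdist
  · intro j
    refine ⟨e j, ?_⟩
    by_cases hj : (!(σ j)) = true
    · left
      exact if_pos hj
    · right
      exact if_neg hj
  · have hdiff : U (fun i => !(σ i)) = U σ2 + ∑ j ∈ Finset.univ.filter (fun j => σ2 j ≠ !(σ j)),
        (if (!(σ j)) then x (e j) else - x (e j)) := by
      rw [hU]
      simp only
      rw [Finset.sum_filter, add_assoc, ← Finset.sum_add_distrib]
      congr 1
      apply Finset.sum_congr rfl
      intro j _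
      by_cases h1 : σ j = true <;> by_cases h2 : σ2 j = true <;> simp [h1, h2]
    have h1 : U σ + U σ2 + ∑ j ∈ Finset.univ.filter (fun j => σ2 j ≠ !(σ j)),
        (if (!(σ j)) then x (e j) else - x (e j)) =
        ∑ n ∈ Finset.range n0, A.indicator x n + ∑ n ∈ Finset.range n0, B.indicator x n := by
      rw [hsumAB, ← hsum, hdiff]
      ring
    rw [h1]
    have h2 : (fun A : Set ℕ => ∑' n, A.indicator x n) A + (fun A : Set ℕ => ∑' n, A.indicator x n) B
        - (∑ n ∈ Finset.range n0, A.indicator x n + ∑ n ∈ Finset.range n0, B.indicator x n) =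
        (∑' n, A.indicator x n - ∑ n ∈ Finset.range n0, A.indicator x n) +
        (∑' n, B.indicator x n - ∑ n ∈ Finset.range n0, B.indicator x n) := by
      simp only
      ring
    rw [h2]
    refine (abs_add_le _ _).trans ?_
    linarith

lemma numerics {q γ : ℝ} (hq : 1 < q) (hγ : 0 < γ) {N : ℕ → ℕ} (hN1 : ∀ k, 1 ≤ N k)
    (hlim : Tendsto (fun k : ℕ => Real.log (N k) * Real.log k / k) atTop (𝓝 0)) :
    ∀ᶠ i : ℕ in atTop, (3 * (N ⌈2 * q ^ i⌉₊ : ℝ)) ^ i ≤ (2:ℝ) ^ (γ * q ^ i) ∧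
      (i : ℝ) * (2:ℝ) ^ (-(q ^ i)) ≤ 1 := by
  have hlogq : 0 < Real.log q := Real.log_pos hq
  have hlog2 : 0 < Real.log 2 := Real.log_pos one_lt_two
  have hq0 : 0 < q := zero_lt_one.trans hq
  have h1 : Tendsto (fun i : ℕ => (i : ℝ) ^ 1 / q ^ i) atTop (𝓝 0) :=
    tendsto_pow_const_div_const_pow_of_one_lt 1 hq
  simp only [pow_one] at h1
  set η : ℝ := γ * Real.log 2 * Real.log q / 6 with hη
  have hη0 : 0 < η := by positivity
  have hk : Tendsto (fun i : ℕ => ⌈2 * q ^ i⌉₊) atTop atTop := by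
    apply tendsto_nat_ceil_atTop.comp
    exact (tendsto_pow_atTop_atTop_of_one_lt hq).const_mul_atTop two_pos
  have h2 : ∀ᶠ i : ℕ in atTop, Real.log (N ⌈2 * q ^ i⌉₊) * Real.log (⌈2 * q ^ i⌉₊ : ℕ) /
      (⌈2 * q ^ i⌉₊ : ℕ) < η := (hlim.comp hk).eventually_lt_const hη0
  have h3 : ∀ᶠ i : ℕ in atTop, (i : ℝ) / q ^ i < γ * Real.log 2 / (2 * Real.log 3) :=
    h1.eventually_lt_const (by positivity)
  have h4 : ∀ᶠ i : ℕ in atTop, (i : ℝ) / q ^ i < Real.log 2 := h1.eventually_lt_const hlog2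
  filter_upwards [h2, h3, h4] with i h2 h3 h4
  have hqi : 1 ≤ q ^ i := one_le_pow₀ hq.le
  have hqi0 : 0 < q ^ i := by positivity
  constructor
  · set k := ⌈2 * q ^ i⌉₊ with hkdef
    have hk1 : 2 * q ^ i ≤ (k : ℝ) := Nat.le_ceil _
    have hk2 : (k : ℝ) ≤ 3 * q ^ i := by
      have := Nat.ceil_lt_add_one (a := 2 * q ^ i) (by positivity)
      linarith
    have hkpos : (0:ℝ) < k := by linarith
    have hlogk : (i : ℝ) * Real.log q ≤ Real.log k := by
      rw [← Real.log_pow]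
      exact Real.log_le_log hqi0 (by linarith)
    have hN : (1:ℝ) ≤ N k := by exact_mod_cast hN1 k
    have hlogN : 0 ≤ Real.log (N k) := Real.log_nonneg hN
    have h5 : Real.log (N k) * Real.log k < η * k := by
      rwa [div_lt_iff₀ hkpos] at h2
    have h6 : (i : ℝ) * Real.log (N k) ≤ γ * Real.log 2 / 2 * q ^ i := by
      have h7 : Real.log q * ((i : ℝ) * Real.log (N k)) ≤ Real.log q * (γ * Real.log 2 / 2 * q ^ i) := by
        calc Real.log q * ((i : ℝ) * Real.log (N k)) = Real.log (N k) * (i * Real.log q) := by ring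
          _ ≤ Real.log (N k) * Real.log k := by gcongr
          _ ≤ η * k := h5.le
          _ ≤ η * (3 * q ^ i) := by gcongr
          _ = Real.log q * (γ * Real.log 2 / 2 * q ^ i) := by rw [hη]; ring
      exact le_of_mul_le_mul_left h7 hlogq
    have h8 : (i : ℝ) * Real.log 3 ≤ γ * Real.log 2 / 2 * q ^ i := by
      have hlog3 : 0 < Real.log 3 := Real.log_pos (by norm_num)
      rw [div_lt_iff₀ hqi0] at h3
      calc (i : ℝ) * Real.log 3 ≤ (γ * Real.log 2 / (2 * Real.log 3) * q ^ i) * Real.log 3 := by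
            gcongr
        _ = γ * Real.log 2 / 2 * q ^ i := by field_simp
    have h9 : (3 * (N k : ℝ)) ^ i = Real.exp (i * (Real.log 3 + Real.log (N k))) := by
      rw [← Real.log_mul (by norm_num) (by linarith), mul_comm (i : ℝ), Real.exp_mul,
        Real.exp_log (by linarith), Real.rpow_natCast]
    rw [h9, Real.rpow_def_of_pos two_pos]
    apply Real.exp_le_exp.2
    linarith
  · rw [div_lt_iff₀ hqi0] at h4
    rw [Real.rpow_neg two_pos.le, ← div_eq_mul_inv, div_le_one (by positivity),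
      Real.rpow_def_of_pos two_pos]
    have := Real.add_one_le_exp (Real.log 2 * q ^ i)
    linarith

lemma summable_aux {q γ : ℝ} (hq : 1 < q) (hγ : 0 < γ) (C : ℝ) :
    Summable (fun i : ℕ => C * (2:ℝ) ^ (-(γ * q ^ i))) := by
  apply Summable.mul_left
  have hb : (2:ℝ) ^ (-(γ * (q - 1))) < 1 :=
    Real.rpow_lt_one_of_one_lt_of_neg one_lt_two (by nlinarith)
  refine Summable.of_nonneg_of_le (fun i => by positivity) (fun i => ?_)
    (summable_geometric_of_lt_one (by positivity) hb)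
  rw [← Real.rpow_natCast ((2:ℝ) ^ (-(γ * (q - 1)))) i, ← Real.rpow_mul two_pos.le]
  apply Real.rpow_le_rpow_of_exponent_le one_le_two
  have hB : 1 + (i : ℝ) * (q - 1) ≤ (1 + (q - 1)) ^ i := one_add_mul_le_pow (by linarith) i
  rw [add_sub_cancel] at hB
  have : (i : ℝ) * (q - 1) ≤ q ^ i := by linarith
  nlinarith

lemma exists_pos_le (L : Finset ℕ) {r : ℕ → ℝ} (hr : ∀ i, 0 < r i) :
    ∃ δ > 0, ∀ i ∈ L, δ ≤ r i := by
  induction L using Finset.induction_on with
  | empty => exact ⟨1, one_pos, by simp⟩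
  | insert a L _ ih =>
    obtain ⟨δ, h1, h2⟩ := ih
    refine ⟨min δ (r a), lt_min h1 (hr a), ?_⟩
    intro i hi
    rcases Finset.mem_insert.1 hi with rfl | hi
    · exact min_le_right _ _
    · exact (min_le_left _ _).trans (h2 i hi)

/-- Key estimate: if `s > dim_H E`, and `t > 2 s`, then the `t`-dimensional Hausdorff measure of
`E + E` is finite. -/
lemma hausdorff_ne_top
    {x : ℕ → ℝ} (hx : ∀ n, 0 < x n) (hs : Summable x)
    {N : ℕ → ℕ} (hN : ∀ k, ∃ F : Finset ℝ, F.card ≤ N k ∧ ∀ n, ∃ c ∈ F, |x n - c| ≤ (1 / 2) ^ k)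
    (hlim : Tendsto (fun k : ℕ => Real.log (N k) * Real.log k / k) atTop (𝓝 0))
    {s t : ℝ} (hs0 : 0 < s) (hst : 2 * s < t) (h0 : μH[s] (achSet x) = 0) :
    μH[t] (achSet x + achSet x) ≠ ⊤ := by
  classical
  have hN1 : ∀ k, 1 ≤ N k := by
    intro k
    obtain ⟨F, hF, hF2⟩ := hN k
    obtain ⟨c, hc, _⟩ := hF2 0
    exact (Finset.card_pos.2 ⟨c, hc⟩).trans_le hF
  -- parameters
  set γ : ℝ := (t - 2 * s) / 4 with hγ
  have hγ0 : 0 < γ := by rw [hγ]; linarith
  set q : ℝ := 1 + γ / (2 * s) with hqdef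
  have hq : 1 < q := by rw [hqdef]; have : 0 < γ / (2 * s) := by positivity
                        linarith
  have hq0 : 0 < q := zero_lt_one.trans hq
  have h2sq : 2 * s * q = 2 * s + γ := by rw [hqdef]; field_simp
  set r : ℕ → ℝ := fun i => (2:ℝ) ^ (-(q ^ i)) with hr
  have hr0 : ∀ i, 0 < r i := fun i => by rw [hr]; positivity
  have hrlim : Tendsto r atTop (𝓝 0) := by
    have h1 : Tendsto (fun i : ℕ => -(q ^ i)) atTop atBot :=
      tendsto_neg_atTop_atBot.comp (tendsto_pow_atTop_atTop_of_one_lt hq)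
    exact (tendsto_rpow_atBot_of_base_gt_one 2 one_lt_two).comp h1
  -- nets
  choose Fk hFk1 hFk2 using hN
  set G : ℕ → Finset ℝ := fun i => insert 0 (Fk ⌈2 * q ^ i⌉₊ ∪ (Fk ⌈2 * q ^ i⌉₊).image Neg.neg)
    with hG
  have hG0 : ∀ i, (0:ℝ) ∈ G i := fun i => Finset.mem_insert_self _ _
  have hGcard : ∀ i, ((G i).card : ℝ) ≤ 3 * (N ⌈2 * q ^ i⌉₊ : ℝ) := by
    intro i
    have h1 : (G i).card ≤ 3 * N ⌈2 * q ^ i⌉₊ := by
      have e1 : (G i).card ≤ (Fk ⌈2 * q ^ i⌉₊ ∪ (Fk ⌈2 * q ^ i⌉₊).image Neg.neg).card + 1 :=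
        Finset.card_insert_le _ _
      have e2 := Finset.card_union_le (Fk ⌈2 * q ^ i⌉₊) ((Fk ⌈2 * q ^ i⌉₊).image Neg.neg)
      have e3 : ((Fk ⌈2 * q ^ i⌉₊).image Neg.neg).card ≤ (Fk ⌈2 * q ^ i⌉₊).card :=
        Finset.card_image_le
      have h2 := hFk1 ⌈2 * q ^ i⌉₊
      have h3 := hN1 ⌈2 * q ^ i⌉₊
      omega
    exact_mod_cast h1
  have hGapp : ∀ i n, (∃ g ∈ G i, |x n - g| ≤ r i * r i) ∧ (∃ g ∈ G i, |-x n - g| ≤ r i * r i) := by
    intro i n
    obtain ⟨c, hc, hc2⟩ := hFk2 ⌈2 * q ^ i⌉₊ n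
    have h1 : ((1:ℝ) / 2) ^ ⌈2 * q ^ i⌉₊ ≤ r i * r i := by
      rw [hr]
      simp only
      rw [← Real.rpow_add two_pos, one_div, inv_pow, ← Real.rpow_natCast, ← Real.rpow_neg two_pos.le]
      apply Real.rpow_le_rpow_of_exponent_le one_le_two
      have := Nat.le_ceil (2 * q ^ i)
      linarith
    refine ⟨⟨c, ?_, hc2.trans h1⟩, ⟨-c, ?_, ?_⟩⟩
    · rw [hG]
      exact Finset.mem_insert_of_mem (Finset.mem_union_left _ hc)
    · rw [hG]
      exact Finset.mem_insert_of_mem (Finset.mem_union_right _ (Finset.mem_image_of_mem _ hc))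
    · have : -x n - -c = -(x n - c) := by ring
      rw [this, abs_neg]
      exact hc2.trans h1
  -- covers
  have hcov := fun i0 => exists_cover (isCompact_achSet hx hs) hs0 h0 hr0 hrlim i0
  choose F c lab hlab1 hcov1 hcov2 using hcov
  -- index sets
  set L : ℕ → Finset ℕ := fun i0 => (F i0).image (lab i0) with hL
  set C : ℕ → ℕ → Finset ℕ := fun i0 i => (F i0).filter (fun n => lab i0 n = i) with hC
  set T : ℕ → Finset (Σ _ : ℕ, ℕ × ℕ × ℝ) := fun i0 =>
    (L i0).sigma (fun i => C i0 i ×ˢ C i0 i ×ˢ W (G i) i) with hT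
  set B : (i0 : ℕ) → (Σ _ : ℕ, ℕ × ℕ × ℝ) → Set ℝ := fun i0 p =>
    Metric.closedBall (c i0 p.2.1 + c i0 p.2.2.1 + p.2.2.2) (6 * r p.1) with hB
  have hnum := numerics hq hγ0 hN1 hlim
  have hev : ∀ᶠ i0 : ℕ in atTop, 1 ≤ i0 ∧ ∀ i ≥ i0,
      (3 * (N ⌈2 * q ^ i⌉₊ : ℝ)) ^ i ≤ (2:ℝ) ^ (γ * q ^ i) ∧ (i : ℝ) * (2:ℝ) ^ (-(q ^ i)) ≤ 1 := by
    obtain ⟨i1, hi1⟩ := eventually_atTop.1 hnum
    filter_upwards [eventually_ge_atTop (max 1 i1)] with i0 hi0
    refine ⟨le_trans (le_max_left _ _) hi0, fun i hi => hi1 i ?_⟩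
    exact le_trans (le_trans (le_max_right _ _) hi0) hi
  -- covering property
  have hcover : ∀ᶠ i0 : ℕ in atTop, achSet x + achSet x ⊆ ⋃ p : T i0, B i0 p := by
    filter_upwards [hev] with i0 hi0 z hz
    obtain ⟨hi01, hi02⟩ := hi0
    obtain ⟨δ, hδ, hδL⟩ := exists_pos_le (L i0) hr0
    have hch : ∀ u, ∃ n, u ∈ achSet x → (n ∈ F i0 ∧ |u - c i0 n| < 2 * r (lab i0 n)) := by
      intro u
      by_cases hu : u ∈ achSet x
      · obtain ⟨n, hn, hn2⟩ := hcov1 i0 u hu
        exact ⟨n, fun _ => ⟨hn, hn2⟩⟩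
      · exact ⟨0, fun h => absurd h hu⟩
    choose nn hnn using hch
    obtain ⟨u, hu, v, hv, huv, m, J, f, hJ, hf, hz2⟩ := split hx hs
      (fun u => lab i0 (nn u)) (fun u _ => hi01.trans (hlab1 i0 _)) hδ hz
    set i := lab i0 (nn u) with hi
    obtain ⟨hu1, hu2⟩ := hnn u hu
    obtain ⟨hv1, hv2⟩ := hnn v hv
    have hi0i : i0 ≤ i := hlab1 i0 _
    have hiL : i ∈ L i0 := Finset.mem_image_of_mem _ hu1
    obtain ⟨w, hw, hw2⟩ := exists_W (hG0 i) (mul_pos (hr0 i) (hr0 i)).le J f (by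
      intro j _
      obtain ⟨n, hn⟩ := hf j
      rcases hn with hn | hn
      · rw [hn]; exact (hGapp i n).1
      · rw [hn]; exact (hGapp i n).2) i hJ
    have hiρ : (i : ℝ) * (r i * r i) ≤ r i := by
      have h1 := (hi02 i hi0i).2
      have h2 : (i : ℝ) * r i ≤ 1 := h1
      nlinarith [hr0 i]
    refine Set.mem_iUnion.2 ⟨⟨⟨i, nn u, nn v, w⟩, ?_⟩, ?_⟩
    · refine Finset.mem_sigma.2 ⟨hiL, Finset.mem_product.2 ⟨?_, Finset.mem_product.2 ⟨?_, hw⟩⟩⟩
      · rw [hC]
        exact Finset.mem_filter.2 ⟨hu1, rfl⟩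
      · rw [hC]
        exact Finset.mem_filter.2 ⟨hv1, huv.symm⟩
    · rw [hB]
      simp only
      rw [Metric.mem_closedBall, Real.dist_eq]
      have hv2' : |v - c i0 (nn v)| < 2 * r i := by rw [huv]; exact hv2
      have hδi := hδL i hiL
      have hdec : z - (c i0 (nn u) + c i0 (nn v) + w) = (z - (u + v + ∑ j ∈ J, f j)) +
          (u - c i0 (nn u)) + (v - c i0 (nn v)) + (∑ j ∈ J, f j - w) := by ring
      rw [hdec]
      have e1 := abs_add_le ((z - (u + v + ∑ j ∈ J, f j)) +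
          (u - c i0 (nn u)) + (v - c i0 (nn v))) (∑ j ∈ J, f j - w)
      have e2 := abs_add_le ((z - (u + v + ∑ j ∈ J, f j)) +
          (u - c i0 (nn u))) (v - c i0 (nn v))
      have e3 := abs_add_le (z - (u + v + ∑ j ∈ J, f j)) (u - c i0 (nn u))
      linarith
  -- diameters
  have hdiam : ∀ i0 (p : Σ _ : ℕ, ℕ × ℕ × ℝ), Metric.ediam (B i0 p) ≤ ENNReal.ofReal (12 * r p.1) := by
    intro i0 p
    rw [hB]
    simp only
    rw [Real.closedBall_eq_Icc, Real.ediam_Icc]
    apply ENNReal.ofReal_le_ofReal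
    linarith
  have hranti : ∀ i j, i ≤ j → r j ≤ r i := by
    intro i j hij
    rw [hr]
    simp only
    apply Real.rpow_le_rpow_of_exponent_le one_le_two
    have := pow_le_pow_right₀ hq.le hij
    linarith
  have ht0 : 0 < t := by linarith
  set g : ℕ → ℝ := fun i => (12:ℝ) ^ t * (2:ℝ) ^ (-(2 * γ * q ^ i)) with hg
  have hgsum : Summable g := by
    rw [hg]
    exact summable_aux hq (by linarith) _
  have hg0 : ∀ i, 0 ≤ g i := fun i => by rw [hg]; positivity
  -- bound for the contribution of the label `i`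
  have hlabel : ∀ i0 i, (3 * (N ⌈2 * q ^ i⌉₊ : ℝ)) ^ i ≤ (2:ℝ) ^ (γ * q ^ i) →
      ((C i0 i).card : ℝ) * ((C i0 i).card * (W (G i) i).card) * (12 * r i) ^ t ≤ g i := by
    intro i0 i hi
    have h1 : ((C i0 i).card : ℝ) ≤ (2:ℝ) ^ (s * q ^ (i + 1)) := by
      have h2 := hcov2 i0 i
      have h3 : r (i + 1) ^ s = (2:ℝ) ^ (-(s * q ^ (i + 1))) := by
        rw [hr]
        simp only
        rw [← Real.rpow_mul two_pos.le]
        congr 1
        ring
      rw [h3, Real.rpow_neg two_pos.le, ← div_eq_mul_inv, div_le_one (by positivity)] at h2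
      exact h2
    have h4 : ((W (G i) i).card : ℝ) ≤ (2:ℝ) ^ (γ * q ^ i) := by
      calc ((W (G i) i).card : ℝ) ≤ ((G i).card : ℝ) ^ i := by exact_mod_cast card_W (G i) i
        _ ≤ (3 * (N ⌈2 * q ^ i⌉₊ : ℝ)) ^ i := by
            gcongr
            exact hGcard i
        _ ≤ _ := hi
    have h5 : (12 * r i) ^ t = (12:ℝ) ^ t * (2:ℝ) ^ (-(t * q ^ i)) := by
      rw [Real.mul_rpow (by norm_num) (hr0 i).le]
      congr 1
      rw [hr]
      simp only
      rw [← Real.rpow_mul two_pos.le]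
      congr 1
      ring
    rw [h5, hg]
    calc ((C i0 i).card : ℝ) * ((C i0 i).card * (W (G i) i).card) *
          ((12:ℝ) ^ t * (2:ℝ) ^ (-(t * q ^ i)))
        ≤ (2:ℝ) ^ (s * q ^ (i + 1)) * ((2:ℝ) ^ (s * q ^ (i + 1)) * (2:ℝ) ^ (γ * q ^ i)) *
          ((12:ℝ) ^ t * (2:ℝ) ^ (-(t * q ^ i))) := by gcongr
      _ = (12:ℝ) ^ t * ((2:ℝ) ^ (s * q ^ (i + 1)) * ((2:ℝ) ^ (s * q ^ (i + 1)) *
          (2:ℝ) ^ (γ * q ^ i)) * (2:ℝ) ^ (-(t * q ^ i))) := by ring
      _ = (12:ℝ) ^ t * (2:ℝ) ^ (s * q ^ (i + 1) + (s * q ^ (i + 1) + γ * q ^ i) + -(t * q ^ i)) := by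
          rw [← Real.rpow_add two_pos, ← Real.rpow_add two_pos, ← Real.rpow_add two_pos]
      _ = (12:ℝ) ^ t * (2:ℝ) ^ (-(2 * γ * q ^ i)) := by
          congr 2
          have h6 : t = 2 * s + 4 * γ := by rw [hγ]; ring
          rw [h6, pow_succ]
          linear_combination (q ^ i) * h2sq
  have hbound : ∀ᶠ i0 : ℕ in atTop, ∑ p : T i0, Metric.ediam (B i0 p) ^ t ≤
      ENNReal.ofReal (∑' i, g i) := by
    filter_upwards [hev] with i0 hi0
    obtain ⟨hi01, hi02⟩ := hi0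
    have hLge : ∀ i ∈ L i0, i0 ≤ i := by
      intro i hi
      obtain ⟨n, _, rfl⟩ := Finset.mem_image.1 hi
      exact hlab1 i0 n
    calc ∑ p : T i0, Metric.ediam (B i0 p) ^ t
        ≤ ∑ p : T i0, ENNReal.ofReal ((12 * r (p : Σ _ : ℕ, ℕ × ℕ × ℝ).1) ^ t) := by
          apply Finset.sum_le_sum
          intro p _
          rw [← ENNReal.ofReal_rpow_of_nonneg (by have := hr0 (p : Σ _ : ℕ, ℕ × ℕ × ℝ).1; linarith)
            ht0.le]
          exact ENNReal.rpow_le_rpow (hdiam i0 p) ht0.le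
      _ = ∑ p ∈ T i0, ENNReal.ofReal ((12 * r p.1) ^ t) :=
          Finset.sum_coe_sort (T i0) (fun p => ENNReal.ofReal ((12 * r p.1) ^ t))
      _ = ∑ i ∈ L i0, ∑ _p ∈ C i0 i ×ˢ C i0 i ×ˢ W (G i) i, ENNReal.ofReal ((12 * r i) ^ t) := by
          rw [hT]
          simp only
          rw [Finset.sum_sigma]
      _ = ∑ i ∈ L i0, ENNReal.ofReal (((C i0 i).card : ℝ) * ((C i0 i).card * (W (G i) i).card) *
            (12 * r i) ^ t) := by
          apply Finset.sum_congr rfl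
          intro i _
          rw [Finset.sum_const, Finset.card_product, Finset.card_product, nsmul_eq_mul,
            ENNReal.ofReal_mul (by positivity)]
          congr 1
          rw [← ENNReal.ofReal_natCast]
          push_cast
          rfl
      _ ≤ ∑ i ∈ L i0, ENNReal.ofReal (g i) := by
          apply Finset.sum_le_sum
          intro i hi
          exact ENNReal.ofReal_le_ofReal (hlabel i0 i (hi02 i (hLge i hi)).1)
      _ = ENNReal.ofReal (∑ i ∈ L i0, g i) :=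
          (ENNReal.ofReal_sum_of_nonneg (fun i _ => hg0 i)).symm
      _ ≤ ENNReal.ofReal (∑' i, g i) :=
          ENNReal.ofReal_le_ofReal (hgsum.sum_le_tsum _ (fun i _ => hg0 i))
  have hrE : Tendsto (fun i0 : ℕ => ENNReal.ofReal (12 * r i0)) atTop (𝓝 0) := by
    have h1 : Tendsto (fun i0 : ℕ => 12 * r i0) atTop (𝓝 0) := by
      simpa using hrlim.const_mul 12
    have := ENNReal.tendsto_ofReal h1
    simpa using this
  have hfin := Measure.hausdorffMeasure_le_liminf_sum t (achSet x + achSet x)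
    (l := atTop) (ι := fun i0 => T i0) (fun i0 => ENNReal.ofReal (12 * r i0)) hrE
    (fun i0 p => B i0 p) (Eventually.of_forall (by
      intro i0 p
      refine (hdiam i0 p).trans (ENNReal.ofReal_le_ofReal ?_)
      have h1 : i0 ≤ (p : Σ _ : ℕ, ℕ × ℕ × ℝ).1 := by
        have h2 := (Finset.mem_sigma.1 p.2).1
        obtain ⟨n, _, hn⟩ := Finset.mem_image.1 h2
        rw [← hn]
        exact hlab1 i0 n
      have := hranti _ _ h1
      linarith)) hcover
  have hle : liminf (fun i0 => ∑ p : T i0, Metric.ediam (B i0 p) ^ t) atTop ≤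
      liminf (fun _ : ℕ => ENNReal.ofReal (∑' i, g i)) atTop := liminf_le_liminf hbound
  rw [liminf_const] at hle
  exact ((hfin.trans hle).trans_lt ENNReal.ofReal_lt_top).ne

/-- **Main theorem.** -/
theorem dimH_add_le
    {x : ℕ → ℝ} (hx : ∀ n, 0 < x n) (hs : Summable x)
    {N : ℕ → ℕ} (hN : ∀ k, ∃ F : Finset ℝ, F.card ≤ N k ∧ ∀ n, ∃ c ∈ F, |x n - c| ≤ (1 / 2) ^ k)
    (hlim : Tendsto (fun k : ℕ => Real.log (N k) * Real.log k / k) atTop (𝓝 0)) :
    dimH (achSet x + achSet x) / 2 ≤ dimH (achSet x) := by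
  apply le_of_forall_gt
  intro d hd
  obtain ⟨s, hs1, hs2⟩ := ENNReal.lt_iff_exists_nnreal_btwn.1 hd
  refine lt_of_le_of_lt ?_ hs2
  have hs0 : (0:ℝ) < s := by
    have : (0 : ℝ≥0∞) < s := lt_of_le_of_lt bot_le hs1
    exact_mod_cast this
  have h0 : μH[s] (achSet x) = 0 := hausdorffMeasure_of_dimH_lt hs1
  have hdim : dimH (achSet x + achSet x) ≤ 2 * s := by
    apply le_of_forall_gt
    intro d' hd'
    obtain ⟨t, ht1, ht2⟩ := ENNReal.lt_iff_exists_nnreal_btwn.1 hd'
    refine lt_of_le_of_lt ?_ ht2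
    apply dimH_le_of_hausdorffMeasure_ne_top
    apply hausdorff_ne_top hx hs hN hlim hs0 _ h0
    exact_mod_cast ht1
  rw [ENNReal.div_le_iff_le_mul (Or.inl (by norm_num)) (Or.inl (by norm_num))]
  rwa [mul_comm]

end Pool.Agent.Lib.Helper30.Achieve
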