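import Mathlib

/-!
# Definitions for `MP_68e822_an`

Moduli of continuity, the big space `C^ω[0,1]` with the metric of its norm `‖·‖_ω`, graphs, packing
numbers and the Assouad dimension.
-/

set_option autoImplicit false

open Set Filter Topology
open scoped ENNReal NNReal

namespace Pool.Agent.Lib.Helper30.AssouadDefs

/-- A (finite valued) modulus of continuity on `[0,1]`: non-decreasing on `[0,1]`, positive on
`(0,1]`, with `ω(0) = 0 = lim_{t → 0+} ω(t)`. -/
structure Modulus where
  /-- the function `ω` (only its values on `[0,1]` matter) -/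
  toFun : ℝ → ℝ
  monotoneOn : MonotoneOn toFun (Icc 0 1)
  pos : ∀ t ∈ Ioc (0 : ℝ) 1, 0 < toFun t
  map_zero : toFun 0 = 0
  tendsto_zero : Tendsto toFun (𝓝[>] 0) (𝓝 0)

instance : CoeFun Modulus fun _ => ℝ → ℝ := ⟨Modulus.toFun⟩

/-- `[f]_ω = sup_{x ≠ y} |f x - f y| / ω(|x - y|) ∈ [0, ∞]` for `f : [0,1] → ℝ`. -/
noncomputable def oscNorm (ω : Modulus) (f : unitInterval → ℝ) : ℝ≥0∞ :=
  ⨆ (x : unitInterval) (y : unitInterval) (_ : x ≠ y),
    ENNReal.ofReal (|f x - f y| / ω |(x : ℝ) - (y : ℝ)|)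

/-- `‖f‖_∞ = sup_x |f x| ∈ [0, ∞]`. -/
noncomputable def supNorm (f : unitInterval → ℝ) : ℝ≥0∞ :=
  ⨆ x : unitInterval, ENNReal.ofReal |f x|

/-- `‖f‖_ω = ‖f‖_∞ + [f]_ω`. -/
noncomputable def normOmega (ω : Modulus) (f : unitInterval → ℝ) : ℝ≥0∞ :=
  supNorm f + oscNorm ω f

/-- The big space `C^ω[0,1] = {f : [0,1] → ℝ | [f]_ω < ∞}`. -/
structure Comega (ω : Modulus) where
  /-- the underlying function `[0,1] → ℝ` -/
  toFun : unitInterval → ℝ
  oscNorm_lt_top : oscNorm ω toFun < ∞

lemma ofReal_le_oscNorm (ω : Modulus) (f : unitInterval → ℝ) {x y : unitInterval} (h : x ≠ y) :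
    ENNReal.ofReal (|f x - f y| / ω |(x : ℝ) - (y : ℝ)|) ≤ oscNorm ω f :=
  le_iSup_of_le x (le_iSup_of_le y (le_iSup_of_le h le_rfl))

lemma ofReal_le_supNorm (f : unitInterval → ℝ) (x : unitInterval) :
    ENNReal.ofReal |f x| ≤ supNorm f := le_iSup_of_le x le_rfl

lemma modulus_nonneg (ω : Modulus) (x y : unitInterval) : 0 ≤ ω |(x : ℝ) - (y : ℝ)| := by
  rcases eq_or_ne x y with rfl | h
  · simp [ω.map_zero]
  · refine (ω.pos _ ⟨abs_pos.2 (sub_ne_zero.2 fun e => h (Subtype.ext e)), ?_⟩).le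
    rw [abs_le]
    constructor <;> linarith [x.2.1, x.2.2, y.2.1, y.2.2]

lemma normOmega_triangle (ω : Modulus) (f g h : unitInterval → ℝ) :
    normOmega ω (fun x => f x - h x) ≤
      normOmega ω (fun x => f x - g x) + normOmega ω (fun x => g x - h x) := by
  have h1 : supNorm (fun x => f x - h x) ≤
      supNorm (fun x => f x - g x) + supNorm (fun x => g x - h x) := by
    refine iSup_le fun x => ?_
    refine le_trans ?_ (add_le_add (ofReal_le_supNorm (fun x => f x - g x) x)
      (ofReal_le_supNorm (fun x => g x - h x) x))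
    rw [← ENNReal.ofReal_add (abs_nonneg _) (abs_nonneg _)]
    exact ENNReal.ofReal_le_ofReal (abs_sub_le _ _ _)
  have h2 : oscNorm ω (fun x => f x - h x) ≤
      oscNorm ω (fun x => f x - g x) + oscNorm ω (fun x => g x - h x) := by
    refine iSup_le fun x => iSup_le fun y => iSup_le fun hxy => ?_
    refine le_trans ?_ (add_le_add (ofReal_le_oscNorm ω (fun x => f x - g x) hxy)
      (ofReal_le_oscNorm ω (fun x => g x - h x) hxy))
    rw [← ENNReal.ofReal_add (div_nonneg (abs_nonneg _) (modulus_nonneg ω x y))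
      (div_nonneg (abs_nonneg _) (modulus_nonneg ω x y)), ← add_div]
    apply ENNReal.ofReal_le_ofReal
    apply div_le_div_of_nonneg_right _ (modulus_nonneg ω x y)
    have e : f x - h x - (f y - h y) = (f x - g x - (f y - g y)) + (g x - h x - (g y - h y)) := by
      ring
    rw [e]
    exact abs_add_le _ _
  unfold normOmega
  calc _ ≤ _ := add_le_add h1 h2
    _ = _ := by ring

/-- The metric of `C^ω[0,1]`: the distance of `f` and `g` is `‖f - g‖_ω`. -/
noncomputable instance (ω : Modulus) : EMetricSpace (Comega ω) where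
  edist f g := normOmega ω (fun x => f.toFun x - g.toFun x)
  edist_self f := by simp [normOmega, supNorm, oscNorm]
  edist_comm f g := by
    have h1 : ∀ x : unitInterval, |f.toFun x - g.toFun x| = |g.toFun x - f.toFun x| := fun x =>
      abs_sub_comm _ _
    have h2 : ∀ x y : unitInterval, |f.toFun x - g.toFun x - (f.toFun y - g.toFun y)| =
        |g.toFun x - f.toFun x - (g.toFun y - f.toFun y)| := fun x y => by
      rw [← abs_neg]; congr 1; ring
    simp only [normOmega, supNorm, oscNorm, h1, h2]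
  edist_triangle f g h := normOmega_triangle ω f.toFun g.toFun h.toFun
  eq_of_edist_eq_zero := by
    intro f g h
    have h1 : ∀ x : unitInterval, f.toFun x = g.toFun x := by
      intro x
      have h2 : ENNReal.ofReal |f.toFun x - g.toFun x| ≤ 0 := by
        rw [← h]
        exact (ofReal_le_supNorm (fun x => f.toFun x - g.toFun x) x).trans le_self_add
      have h3 := ENNReal.ofReal_eq_zero.1 (le_antisymm h2 zero_le)
      have h4 := abs_nonpos_iff.1 h3
      linarith
    cases f; cases g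
    simp only [Comega.mk.injEq]
    funext x
    exact h1 x

/-- The graph `G_f = {(x, f x) : x ∈ [0,1]}` in the Euclidean plane. -/
def graph (f : unitInterval → ℝ) : Set (EuclideanSpace ℝ (Fin 2)) :=
  Set.range fun x : unitInterval => !₂[(x : ℝ), f x]

/-- `N_r(E) ∈ {0, 1, …, ∞}`: the largest number of pairwise disjoint closed balls of radius `r`
with centres in `E`. -/
noncomputable def packingNumber {X : Type*} [PseudoMetricSpace X] (r : ℝ) (E : Set X) : ℕ∞ :=
  ⨆ (s : Finset X) (_ : (s : Set X) ⊆ E)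
    (_ : (s : Set X).PairwiseDisjoint fun x => Metric.closedBall x r), (s.card : ℕ∞)

/-- The Assouad dimension: the infimum of all `β ≥ 0` for which there is `C > 0` such that
`N_r(B°(x, R) ∩ F) ≤ C (R/r)^β` for all `0 < r < R` and all `x ∈ F`. -/
noncomputable def assouadDim {X : Type*} [PseudoMetricSpace X] (F : Set X) : ℝ≥0∞ :=
  ⨅ (β : ℝ≥0) (_ : ∃ C : ℝ, 0 < C ∧ ∀ r R : ℝ, 0 < r → r < R → ∀ x ∈ F,
    ((packingNumber r (Metric.ball x R ∩ F) : ℕ∞) : ℝ≥0∞) ≤
      ENNReal.ofReal (C * (R / r) ^ (β : ℝ))), (β : ℝ≥0∞)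

end Pool.Agent.Lib.Helper30.AssouadDefs
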