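import Mathlib

set_option autoImplicit false

open Set Filter Topology

namespace Pool.Agent.Lib.Helper30.LacunaryOsc

/-- Distance to the nearest integer. -/
noncomputable def tri (x : ℝ) : ℝ := |x - round x|

lemma tri_nonneg (x : ℝ) : 0 ≤ tri x := abs_nonneg _

lemma tri_le_half (x : ℝ) : tri x ≤ 1 / 2 := abs_sub_round x

lemma tri_int (n : ℤ) : tri n = 0 := by simp [tri]

lemma tri_le_abs_sub_int (x : ℝ) (n : ℤ) : tri x ≤ |x - n| := round_le x n

lemma tri_sub_le (x y : ℝ) : tri x - tri y ≤ |x - y| := by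
  have h1 := tri_le_abs_sub_int x (round y)
  have h2 : |x - (round y : ℝ)| ≤ |x - y| + tri y := by
    have : x - (round y : ℝ) = (x - y) + (y - round y) := by ring
    rw [this]
    exact abs_add_le _ _
  linarith

lemma abs_tri_sub_le (x y : ℝ) : |tri x - tri y| ≤ |x - y| := by
  rw [abs_le]
  have h1 := tri_sub_le x y
  have h2 := tri_sub_le y x
  rw [abs_sub_comm y x] at h2
  constructor <;> linarith

lemma tri_half (n : ℤ) : tri ((n : ℝ) + 1 / 2) = 1 / 2 := by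
  apply le_antisymm (tri_le_half _)
  unfold tri
  set k := round ((n : ℝ) + 1 / 2) with hk
  have : (n : ℝ) + 1 / 2 - k = (2 * (n - k) + 1 : ℤ) / 2 := by push_cast; ring
  rw [this, abs_div, abs_of_pos (by norm_num : (0:ℝ) < 2)]
  have h1 : 1 ≤ |(2 * (n - k) + 1 : ℤ)| := by
    apply Int.one_le_abs; omega
  have h2 : (1 : ℝ) ≤ |((2 * (n - k) + 1 : ℤ) : ℝ)| := by exact_mod_cast h1
  linarith

/-- The lacunary series `∑ q^k tri (b^k x)`. -/
noncomputable def wei (b : ℕ) (q : ℝ) (x : ℝ) : ℝ := ∑' k : ℕ, q ^ k * tri ((b : ℝ) ^ k * x)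

lemma summable_wei (b : ℕ) {q : ℝ} (hq0 : 0 < q) (hq1 : q < 1) (x : ℝ) :
    Summable (fun k : ℕ => q ^ k * tri ((b : ℝ) ^ k * x)) := by
  refine Summable.of_nonneg_of_le (fun k => mul_nonneg (by positivity) (tri_nonneg _)) (fun k => ?_)
    ((summable_geometric_of_lt_one hq0.le hq1))
  have := tri_le_half ((b : ℝ) ^ k * x)
  have h2 : 0 < q ^ k := by positivity
  nlinarith

lemma geom_bound {ρ : ℝ} (hρ : 1 < ρ) (n : ℕ) : ∑ k ∈ Finset.range n, ρ ^ k ≤ ρ ^ n / (ρ - 1) := by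
  rw [geom_sum_eq hρ.ne', div_le_div_iff_of_pos_right (by linarith)]
  linarith

lemma wei_upper {b : ℕ} (hb : 2 ≤ b) {α q : ℝ} (hα0 : 0 < α) (hα1 : α < 1)
    (hq : q = (b : ℝ) ^ (-α)) :
    ∃ L : ℝ, 0 < L ∧ ∀ x ∈ Icc (0:ℝ) 1, ∀ y ∈ Icc (0:ℝ) 1,
      |wei b q x - wei b q y| ≤ L * |x - y| ^ α := by
  have hb2 : (2:ℝ) ≤ b := by exact_mod_cast hb
  have hb1 : (1:ℝ) < b := by linarith
  have hb0 : (0:ℝ) < b := by linarith
  have hq0 : 0 < q := by rw [hq]; positivity
  have hq1 : q < 1 := by rw [hq]; exact Real.rpow_lt_one_of_one_lt_of_neg hb1 (by linarith)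
  have hqb : q * b = (b : ℝ) ^ (1 - α) := by
    rw [hq, ← Real.rpow_add_one hb0.ne']; congr 1; ring
  have hqb1 : 1 < q * b := by rw [hqb]; exact Real.one_lt_rpow hb1 (by linarith)
  refine ⟨q * b / (q * b - 1) + 1 / (1 - q), by
    have : 0 < q * b - 1 := by linarith
    have : 0 < 1 - q := by linarith
    positivity, ?_⟩
  intro x hx y hy
  rcases eq_or_ne x y with rfl | hxy
  · simp only [sub_self, abs_zero]
    rw [Real.zero_rpow hα0.ne', mul_zero]
  set h := |x - y| with hh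
  have hh0 : 0 < h := abs_pos.2 (sub_ne_zero.2 hxy)
  have hh1 : h ≤ 1 := by
    rw [hh, abs_le]; constructor <;> linarith [hx.1, hx.2, hy.1, hy.2]
  obtain ⟨N, hN1, hN2⟩ := exists_nat_pow_near (x := 1 / h) (y := (b : ℝ))
    (by rw [le_div_iff₀ hh0]; linarith) hb1
  have hsx := summable_wei b hq0 hq1 x
  have hsy := summable_wei b hq0 hq1 y
  have hterm : ∀ k : ℕ, |q ^ k * tri ((b : ℝ) ^ k * x) - q ^ k * tri ((b : ℝ) ^ k * y)| ≤
      q ^ k * ((b : ℝ) ^ k * h) := by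
    intro k
    rw [← mul_sub, abs_mul, abs_of_pos (by positivity : 0 < q ^ k)]
    apply mul_le_mul_of_nonneg_left _ (by positivity)
    refine (abs_tri_sub_le _ _).trans ?_
    rw [← mul_sub, abs_mul, abs_of_pos (by positivity : (0:ℝ) < (b : ℝ) ^ k)]
  have hterm2 : ∀ k : ℕ, |q ^ k * tri ((b : ℝ) ^ k * x) - q ^ k * tri ((b : ℝ) ^ k * y)| ≤ q ^ k := by
    intro k
    rw [← mul_sub, abs_mul, abs_of_pos (by positivity : 0 < q ^ k)]
    have : |tri ((b : ℝ) ^ k * x) - tri ((b : ℝ) ^ k * y)| ≤ 1 := by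
      rw [abs_le]
      constructor <;> linarith [tri_nonneg ((b : ℝ) ^ k * x), tri_nonneg ((b : ℝ) ^ k * y),
        tri_le_half ((b : ℝ) ^ k * x), tri_le_half ((b : ℝ) ^ k * y)]
    have h2 : 0 < q ^ k := by positivity
    nlinarith
  have hsd := hsx.sub hsy
  have hsplit : wei b q x - wei b q y =
      (∑ k ∈ Finset.range (N + 1), (q ^ k * tri ((b : ℝ) ^ k * x) - q ^ k * tri ((b : ℝ) ^ k * y))) +
      ∑' k : ℕ, (q ^ (k + (N + 1)) * tri ((b : ℝ) ^ (k + (N + 1)) * x) -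
        q ^ (k + (N + 1)) * tri ((b : ℝ) ^ (k + (N + 1)) * y)) := by
    unfold wei
    rw [← hsx.tsum_sub hsy]
    exact (hsd.sum_add_tsum_nat_add (N + 1)).symm
  have hI : |∑ k ∈ Finset.range (N + 1),
      (q ^ k * tri ((b : ℝ) ^ k * x) - q ^ k * tri ((b : ℝ) ^ k * y))| ≤
      q * b / (q * b - 1) * h ^ α := by
    calc _ ≤ ∑ k ∈ Finset.range (N + 1),
        |(q ^ k * tri ((b : ℝ) ^ k * x) - q ^ k * tri ((b : ℝ) ^ k * y))| :=
          Finset.abs_sum_le_sum_abs _ _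
      _ ≤ ∑ k ∈ Finset.range (N + 1), q ^ k * ((b : ℝ) ^ k * h) :=
          Finset.sum_le_sum (fun k _ => hterm k)
      _ = h * ∑ k ∈ Finset.range (N + 1), (q * b) ^ k := by
          rw [Finset.mul_sum]
          apply Finset.sum_congr rfl
          intro k _
          rw [mul_pow]; ring
      _ ≤ h * ((q * b) ^ (N + 1) / (q * b - 1)) := by
          apply mul_le_mul_of_nonneg_left (geom_bound hqb1 _) hh0.le
      _ = q * b / (q * b - 1) * (h * (q * b) ^ N) := by rw [pow_succ]; ring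
      _ ≤ q * b / (q * b - 1) * h ^ α := by
          apply mul_le_mul_of_nonneg_left _ (div_nonneg (by linarith) (by linarith))
          rw [hqb, ← Real.rpow_natCast, ← Real.rpow_mul hb0.le]
          have e1 : ((b : ℝ)) ^ ((1 - α) * N) = ((b : ℝ) ^ N) ^ (1 - α) := by
            rw [← Real.rpow_natCast, ← Real.rpow_mul hb0.le]; ring_nf
          rw [e1]
          calc h * ((b : ℝ) ^ N) ^ (1 - α) ≤ h * (1 / h) ^ (1 - α) := by
                apply mul_le_mul_of_nonneg_left _ hh0.le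
                exact Real.rpow_le_rpow (by positivity) hN1 (by linarith)
            _ = h ^ α := by
                rw [one_div, Real.inv_rpow hh0.le, ← Real.rpow_neg hh0.le]
                nth_rewrite 1 [← Real.rpow_one h]
                rw [← Real.rpow_add hh0]
                congr 1; ring
  have hgs : Summable (fun k : ℕ => q ^ (k + (N + 1))) :=
    (summable_nat_add_iff (N + 1)).2 (summable_geometric_of_lt_one hq0.le hq1)
  have hII : |∑' k : ℕ, (q ^ (k + (N + 1)) * tri ((b : ℝ) ^ (k + (N + 1)) * x) -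
        q ^ (k + (N + 1)) * tri ((b : ℝ) ^ (k + (N + 1)) * y))| ≤ 1 / (1 - q) * h ^ α := by
    rw [← Real.norm_eq_abs]
    have h1 : ‖∑' k : ℕ, (q ^ (k + (N + 1)) * tri ((b : ℝ) ^ (k + (N + 1)) * x) -
        q ^ (k + (N + 1)) * tri ((b : ℝ) ^ (k + (N + 1)) * y))‖ ≤ ∑' k : ℕ, q ^ (k + (N + 1)) := by
      apply tsum_of_norm_bounded hgs.hasSum
      intro k
      rw [Real.norm_eq_abs]
      exact hterm2 _
    refine h1.trans ?_
    have h2 : ∑' k : ℕ, q ^ (k + (N + 1)) = q ^ (N + 1) * (1 / (1 - q)) := by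
      simp_rw [pow_add q _ (N + 1)]
      rw [tsum_mul_right, tsum_geometric_of_lt_one hq0.le hq1]
      ring
    rw [h2, mul_comm]
    apply mul_le_mul_of_nonneg_left _ (by
      have : 0 < 1 - q := by linarith
      positivity)
    have h3 : q ^ (N + 1) = ((b : ℝ) ^ (N + 1)) ^ (-α) := by
      rw [hq, ← Real.rpow_natCast, ← Real.rpow_natCast, ← Real.rpow_mul hb0.le,
        ← Real.rpow_mul hb0.le]
      ring_nf
    rw [h3, Real.rpow_neg (by positivity), ← Real.inv_rpow (by positivity)]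
    apply Real.rpow_le_rpow (by positivity) _ hα0.le
    rw [inv_le_comm₀ (by positivity) hh0]
    rw [← one_div]
    exact hN2.le
  rw [hsplit]
  calc _ ≤ _ := abs_add_le _ _
    _ ≤ q * b / (q * b - 1) * h ^ α + 1 / (1 - q) * h ^ α := add_le_add hI hII
    _ = _ := by ring

lemma wei_lower {b : ℕ} (hb : 2 ≤ b) (hbe : Even b) {α q : ℝ} (hα0 : 0 < α) (hα1 : α < 1)
    (hq : q = (b : ℝ) ^ (-α)) (hqb3 : 3 ≤ q * b) :
    ∃ c : ℝ, 0 < c ∧ ∀ u v : ℝ, 0 ≤ u → u < v → v ≤ 1 → ∃ x ∈ Icc u v, ∃ y ∈ Icc u v,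
      c * (v - u) ^ α ≤ |wei b q x - wei b q y| := by
  have hb2 : (2:ℝ) ≤ b := by exact_mod_cast hb
  have hb1 : (1:ℝ) < b := by linarith
  have hb0 : (0:ℝ) < b := by linarith
  have hq0 : 0 < q := by rw [hq]; positivity
  have hq1 : q < 1 := by rw [hq]; exact Real.rpow_lt_one_of_one_lt_of_neg hb1 (by linarith)
  refine ⟨1 / 4 * (1 / (2 * b)) ^ α, by positivity, ?_⟩
  intro u v hu huv hv
  set h := v - u with hh
  have hh0 : 0 < h := by linarith
  have hh1 : h ≤ 1 := by linarith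
  obtain ⟨N, hN1, hN2⟩ := exists_nat_pow_near (x := 2 / h) (y := (b : ℝ))
    (by rw [le_div_iff₀ hh0]; linarith) hb1
  set n := N + 1 with hn
  set B : ℝ := (b : ℝ) ^ n with hB
  have hBpos : 0 < B := by positivity
  have hBh : 1 / B ≤ h / 2 := by
    rw [div_lt_iff₀ hh0] at hN2
    rw [div_le_div_iff₀ hBpos (by norm_num)]
    linarith
  have hBh2 : h / (2 * b) ≤ 1 / B := by
    rw [le_div_iff₀ hh0] at hN1
    have e : B = (b : ℝ) ^ N * b := by rw [hB, hn, pow_succ]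
    rw [div_le_div_iff₀ (by positivity) hBpos, e]
    nlinarith
  set j : ℤ := ⌈u * B⌉ with hj
  have hj1 : u * B ≤ j := Int.le_ceil _
  have hj2 : (j : ℝ) < u * B + 1 := Int.ceil_lt_add_one _
  set x : ℝ := j / B with hx
  set y : ℝ := (j + 1 / 2) / B with hy
  have hxy : y - x = 1 / B / 2 := by rw [hx, hy]; field_simp; ring
  have hxu : u ≤ x := by rw [hx, le_div_iff₀ hBpos]; exact hj1
  have hyv : y ≤ v := by
    rw [hy, div_le_iff₀ hBpos]
    have h2 : 2 ≤ h * B := by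
      rw [div_le_div_iff₀ hBpos (by norm_num)] at hBh
      linarith
    have : v * B = u * B + h * B := by rw [hh]; ring
    rw [this]
    linarith
  have hx_le_y : x ≤ y := by
    have : 0 < 1 / B / 2 := by positivity
    linarith
  refine ⟨y, ⟨hxu.trans hx_le_y, hyv⟩, x, ⟨hxu, hx_le_y.trans hyv⟩, ?_⟩
  have hsx := summable_wei b hq0 hq1 x
  have hsy := summable_wei b hq0 hq1 y
  have hsd := hsy.sub hsx
  have hbx : ∀ k : ℕ, tri ((b : ℝ) ^ (k + n) * x) = 0 := by
    intro k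
    have : (b : ℝ) ^ (k + n) * x = ((b ^ k * j : ℤ) : ℝ) := by
      rw [hx, hB, pow_add]; push_cast; field_simp
    rw [this, tri_int]
  have hby : ∀ k : ℕ, tri ((b : ℝ) ^ (k + (n + 1)) * y) = 0 := by
    intro k
    obtain ⟨b', hb'⟩ := hbe
    have hbb : (b : ℝ) = 2 * b' := by rw [hb']; push_cast; ring
    have : (b : ℝ) ^ (k + (n + 1)) * y = ((b ^ (k + 1) * j + b ^ k * b' : ℤ) : ℝ) := by
      have e1 : (b : ℝ) ^ (k + (n + 1)) = (b : ℝ) ^ k * b * B := by rw [hB]; ring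
      rw [e1, hy]
      have e2 : (b : ℝ) ^ k * b * B * ((j + 1 / 2) / B) = (b : ℝ) ^ k * b * (j + 1 / 2) := by
        field_simp
      rw [e2]
      push_cast
      have e3 : (b : ℝ) ^ k * b * (j + 1 / 2) = (b:ℝ) ^ (k + 1) * j + (b:ℝ) ^ k * (b / 2) := by
        rw [pow_succ]; ring
      rw [e3, hbb]; ring
    rw [this, tri_int]
  have hbyn : tri ((b : ℝ) ^ n * y) = 1 / 2 := by
    have : (b : ℝ) ^ n * y = (j : ℝ) + 1 / 2 := by
      rw [hy, ← hB]; field_simp
    rw [this, tri_half]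
  have hsplit : wei b q y - wei b q x =
      (∑ k ∈ Finset.range n, (q ^ k * tri ((b : ℝ) ^ k * y) - q ^ k * tri ((b : ℝ) ^ k * x))) +
      q ^ n / 2 := by
    unfold wei
    rw [← hsy.tsum_sub hsx, ← hsd.sum_add_tsum_nat_add (n + 1), Finset.sum_range_succ]
    have htail : ∑' k : ℕ, (q ^ (k + (n + 1)) * tri ((b : ℝ) ^ (k + (n + 1)) * y) -
        q ^ (k + (n + 1)) * tri ((b : ℝ) ^ (k + (n + 1)) * x)) = 0 := by
      have : ∀ k : ℕ, (q ^ (k + (n + 1)) * tri ((b : ℝ) ^ (k + (n + 1)) * y) -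
        q ^ (k + (n + 1)) * tri ((b : ℝ) ^ (k + (n + 1)) * x)) = 0 := by
        intro k
        have e : k + (n + 1) = (k + 1) + n := by ring
        rw [hby k]
        rw [e, hbx (k + 1)]
        ring
      simp [this]
    rw [htail, hbyn]
    have := hbx 0
    rw [zero_add] at this
    rw [this]
    ring
  have hfirst : |∑ k ∈ Finset.range n,
      (q ^ k * tri ((b : ℝ) ^ k * y) - q ^ k * tri ((b : ℝ) ^ k * x))| ≤ q ^ n / 4 := by
    calc _ ≤ ∑ k ∈ Finset.range n,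
        |(q ^ k * tri ((b : ℝ) ^ k * y) - q ^ k * tri ((b : ℝ) ^ k * x))| :=
          Finset.abs_sum_le_sum_abs _ _
      _ ≤ ∑ k ∈ Finset.range n, (q * b) ^ k * (1 / B / 2) := by
          apply Finset.sum_le_sum
          intro k _
          rw [← mul_sub, abs_mul, abs_of_pos (by positivity : 0 < q ^ k), mul_pow, mul_assoc]
          apply mul_le_mul_of_nonneg_left _ (by positivity)
          refine (abs_tri_sub_le _ _).trans ?_
          rw [← mul_sub, abs_mul, abs_of_pos (by positivity : (0:ℝ) < (b : ℝ) ^ k), hxy,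
            abs_of_pos (by positivity : 0 < 1 / B / 2)]
      _ = (∑ k ∈ Finset.range n, (q * b) ^ k) * (1 / B / 2) := by rw [Finset.sum_mul]
      _ ≤ ((q * b) ^ n / (q * b - 1)) * (1 / B / 2) := by
          apply mul_le_mul_of_nonneg_right (geom_bound (by linarith) _) (by positivity)
      _ ≤ ((q * b) ^ n / 2) * (1 / B / 2) := by
          apply mul_le_mul_of_nonneg_right _ (by positivity)
          apply div_le_div_of_nonneg_left (by positivity) (by norm_num) (by linarith)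
      _ = q ^ n / 4 := by
          rw [mul_pow, ← hB]; field_simp; ring
  have hqn : (1 / (2 * (b:ℝ))) ^ α * h ^ α ≤ q ^ n := by
    have e1 : q ^ n = (1 / B) ^ α := by
      rw [hq, hB, one_div, Real.inv_rpow (by positivity), ← Real.rpow_neg (by positivity),
        ← Real.rpow_natCast, ← Real.rpow_natCast, ← Real.rpow_mul hb0.le, ← Real.rpow_mul hb0.le]
      ring_nf
    rw [e1, ← Real.mul_rpow (by positivity) hh0.le]
    apply Real.rpow_le_rpow (by positivity) _ hα0.le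
    calc 1 / (2 * (b:ℝ)) * h = h / (2 * b) := by ring
      _ ≤ 1 / B := hBh2
  have hlow : q ^ n / 4 ≤ wei b q y - wei b q x := by
    rw [hsplit]
    have := (abs_le.1 hfirst).1
    linarith
  calc 1 / 4 * (1 / (2 * (b:ℝ))) ^ α * h ^ α = 1 / 4 * ((1 / (2 * (b:ℝ))) ^ α * h ^ α) := by ring
    _ ≤ 1 / 4 * q ^ n := by gcongr
    _ = q ^ n / 4 := by ring
    _ ≤ wei b q y - wei b q x := hlow
    _ ≤ |wei b q y - wei b q x| := le_abs_self _

/-- Existence of a Hölder function with uniformly large oscillation. -/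
lemma exists_osc {α : ℝ} (hα0 : 0 < α) (hα1 : α < 1) :
    ∃ (f : ℝ → ℝ) (c L : ℝ), 0 < c ∧ 0 < L ∧
      (∀ x ∈ Icc (0:ℝ) 1, ∀ y ∈ Icc (0:ℝ) 1, |f x - f y| ≤ L * |x - y| ^ α) ∧
      (∀ u v : ℝ, 0 ≤ u → u < v → v ≤ 1 → ∃ x ∈ Icc u v, ∃ y ∈ Icc u v,
        c * (v - u) ^ α ≤ |f x - f y|) := by
  set b : ℕ := 2 * ⌈(3:ℝ) ^ (1 / (1 - α))⌉₊ with hb
  have h3 : (1:ℝ) ≤ (3:ℝ) ^ (1 / (1 - α)) :=
    Real.one_le_rpow (by norm_num) (by
      have : 0 < 1 - α := by linarith
      positivity)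
  have hce : 1 ≤ ⌈(3:ℝ) ^ (1 / (1 - α))⌉₊ := Nat.one_le_ceil_iff.2 (by linarith)
  have hb2 : 2 ≤ b := by omega
  have hbe : Even b := by rw [hb]; exact even_two_mul _
  have hb0 : (0:ℝ) < b := by exact_mod_cast (by omega : 0 < b)
  have hqb : 3 ≤ (b : ℝ) ^ (-α) * b := by
    rw [← Real.rpow_add_one hb0.ne']
    have h4 : (3:ℝ) ^ (1 / (1 - α)) ≤ b := by
      have := Nat.le_ceil ((3:ℝ) ^ (1 / (1 - α)))
      have h5 : (b : ℝ) = 2 * (⌈(3:ℝ) ^ (1 / (1 - α))⌉₊ : ℝ) := by rw [hb]; push_cast; ring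
      rw [h5]
      linarith
    calc (3:ℝ) = ((3:ℝ) ^ (1 / (1 - α))) ^ (-α + 1) := by
          rw [← Real.rpow_mul (by norm_num)]
          have : 1 / (1 - α) * (-α + 1) = 1 := by
            have : 1 - α ≠ 0 := by linarith
            field_simp
            ring
          rw [this, Real.rpow_one]
      _ ≤ (b : ℝ) ^ (-α + 1) := Real.rpow_le_rpow (by positivity) h4 (by linarith)
  obtain ⟨L, hL, hup⟩ := wei_upper hb2 hα0 hα1 rfl
  obtain ⟨c, hc, hlow⟩ := wei_lower hb2 hbe hα0 hα1 rfl hqb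
  exact ⟨_, c, L, hc, hL, hup, hlow⟩

end Pool.Agent.Lib.Helper30.LacunaryOsc
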