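import Mathlib

set_option autoImplicit false

open Set Filter Topology

namespace Pool.Agent.Lib.Helper30.PorousGraph

/-- Index of the cell of `[a, a+s]` (divided into `m` equal cells) containing `x`. -/
noncomputable def cell (m : ℕ) (a s x : ℝ) : ℕ := min ⌊(x - a) * m / s⌋₊ (m - 1)

lemma cell_lt {m : ℕ} (hm : 0 < m) (a s x : ℝ) : cell m a s x < m := by
  unfold cell
  omega

lemma cell_spec {m : ℕ} (hm : 0 < m) {a s x : ℝ} (hs : 0 < s) (hx : x ∈ Icc a (a + s)) :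
    x ∈ Icc (a + (cell m a s x : ℝ) * s / m) (a + ((cell m a s x : ℝ) + 1) * s / m) := by
  have hm0 : (0:ℝ) < m := by exact_mod_cast hm
  obtain ⟨h1, h2⟩ := hx
  have hnn : 0 ≤ (x - a) * m / s := by
    apply div_nonneg (mul_nonneg (by linarith) hm0.le) hs.le
  have hfl := Nat.floor_le hnn
  have hfl2 := Nat.lt_floor_add_one ((x - a) * m / s)
  unfold cell
  constructor
  · have : ((min ⌊(x - a) * m / s⌋₊ (m - 1) : ℕ) : ℝ) ≤ (x - a) * m / s := by
      refine le_trans ?_ hfl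
      exact_mod_cast min_le_left _ _
    have h3 : ((min ⌊(x - a) * m / s⌋₊ (m - 1) : ℕ) : ℝ) * s / m ≤ x - a := by
      rw [div_le_iff₀ hm0]
      rw [le_div_iff₀ hs] at this
      exact this
    linarith
  · rcases le_total ⌊(x - a) * m / s⌋₊ (m - 1) with h | h
    · rw [min_eq_left h]
      have h3 : x - a ≤ ((⌊(x - a) * m / s⌋₊ : ℝ) + 1) * s / m := by
        rw [le_div_iff₀ hm0]
        rw [div_lt_iff₀ hs] at hfl2
        exact hfl2.le
      linarith
    · rw [min_eq_right h]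
      have h4 : (((m - 1 : ℕ) : ℝ) + 1) = m := by
        rw [Nat.cast_sub (by omega)]; simp
      rw [h4]
      have : (m : ℝ) * s / m = s := by field_simp
      rw [this]
      linarith

lemma card_le_of_porous {m : ℕ} (hm : 2 ≤ m) {F : Set (ℝ × ℝ)}
    (hpor : ∀ a b s : ℝ, 0 < s → s ≤ 1 → ∃ i j : ℕ, i < m ∧ j < m ∧ ∀ x y : ℝ,
      x ∈ Icc (a + (i : ℝ) * s / m) (a + ((i : ℝ) + 1) * s / m) →
      y ∈ Icc (b + (j : ℝ) * s / m) (b + ((j : ℝ) + 1) * s / m) → (x, y) ∉ F)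
    {r : ℝ} (n : ℕ) :
    ∀ (a b s : ℝ), 0 < s → s ≤ 1 → ∀ P : Finset (ℝ × ℝ),
      (∀ p ∈ P, p ∈ F ∧ p.1 ∈ Icc a (a + s) ∧ p.2 ∈ Icc b (b + s)) →
      (∀ p ∈ P, ∀ q ∈ P, p ≠ q → r < |p.1 - q.1| ∨ r < |p.2 - q.2|) →
      s / (m : ℝ) ^ n ≤ r → P.card ≤ (m ^ 2 - 1) ^ n := by
  have hm0 : (0:ℝ) < m := by exact_mod_cast (by omega : 0 < m)
  induction n with
  | zero =>
    intro a b s hs hs1 P hP hsep hr
    simp only [pow_zero, div_one] at hr ⊢
    rw [Finset.card_le_one]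
    intro p hp q hq
    by_contra hne
    obtain ⟨-, hp1, hp2⟩ := hP p hp
    obtain ⟨-, hq1, hq2⟩ := hP q hq
    rcases hsep p hp q hq hne with h | h
    · have : |p.1 - q.1| ≤ s := by
        rw [abs_le]; constructor <;> linarith [hp1.1, hp1.2, hq1.1, hq1.2]
      linarith
    · have : |p.2 - q.2| ≤ s := by
        rw [abs_le]; constructor <;> linarith [hp2.1, hp2.2, hq2.1, hq2.2]
      linarith
  | succ n ih =>
    intro a b s hs hs1 P hP hsep hr
    obtain ⟨i0, j0, hi0, hj0, hempty⟩ := hpor a b s hs hs1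
    set κ : ℝ × ℝ → ℕ × ℕ := fun p => (cell m a s p.1, cell m b s p.2) with hκ
    set T : Finset (ℕ × ℕ) := (Finset.range m ×ˢ Finset.range m).erase (i0, j0) with hT
    have hmaps : ∀ p ∈ P, κ p ∈ T := by
      intro p hp
      obtain ⟨hpF, hp1, hp2⟩ := hP p hp
      rw [hT, Finset.mem_erase]
      constructor
      · intro heq
        have h1 := cell_spec (m := m) (by omega) hs hp1
        have h2 := cell_spec (m := m) (by omega) hs hp2
        simp only [hκ, Prod.mk.injEq] at heq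
        rw [heq.1] at h1
        rw [heq.2] at h2
        exact hempty p.1 p.2 h1 h2 hpF
      · simp only [hκ, Finset.mem_product, Finset.mem_range]
        exact ⟨cell_lt (by omega) _ _ _, cell_lt (by omega) _ _ _⟩
    rw [Finset.card_eq_sum_card_fiberwise hmaps]
    have hTcard : T.card = m ^ 2 - 1 := by
      rw [hT, Finset.card_erase_of_mem]
      · rw [Finset.card_product, Finset.card_range]; ring_nf
      · simp [hi0, hj0]
    have hfib : ∀ t ∈ T, (P.filter (fun p => κ p = t)).card ≤ (m ^ 2 - 1) ^ n := by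
      intro t _
      apply ih (a + (t.1 : ℝ) * s / m) (b + (t.2 : ℝ) * s / m) (s / m) (by positivity)
      · rw [div_le_iff₀ hm0]
        have : (1:ℝ) ≤ m := by exact_mod_cast (by omega : 1 ≤ m)
        nlinarith
      · intro p hp
        rw [Finset.mem_filter] at hp
        obtain ⟨hpP, hpt⟩ := hp
        obtain ⟨hpF, hp1, hp2⟩ := hP p hpP
        have h1 := cell_spec (m := m) (by omega) hs hp1
        have h2 := cell_spec (m := m) (by omega) hs hp2
        have e1 : cell m a s p.1 = t.1 := by rw [← hpt]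
        have e2 : cell m b s p.2 = t.2 := by rw [← hpt]
        rw [e1] at h1
        rw [e2] at h2
        refine ⟨hpF, ?_, ?_⟩
        · convert h1 using 2; ring
        · convert h2 using 2; ring
      · intro p hp q hq hne
        rw [Finset.mem_filter] at hp hq
        exact hsep p hp.1 q hq.1 hne
      · rw [div_div, ← pow_succ']
        exact hr
    calc ∑ t ∈ T, (P.filter (fun p => κ p = t)).card ≤ ∑ _t ∈ T, (m ^ 2 - 1) ^ n :=
          Finset.sum_le_sum hfib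
      _ = (m ^ 2 - 1) ^ (n + 1) := by
          rw [Finset.sum_const, hTcard, smul_eq_mul, pow_succ' (m ^ 2 - 1) n]

/-- Real-exponent version. -/
lemma card_le_rpow_of_porous {m : ℕ} (hm : 2 ≤ m) {F : Set (ℝ × ℝ)}
    (hpor : ∀ a b s : ℝ, 0 < s → s ≤ 1 → ∃ i j : ℕ, i < m ∧ j < m ∧ ∀ x y : ℝ,
      x ∈ Icc (a + (i : ℝ) * s / m) (a + ((i : ℝ) + 1) * s / m) →
      y ∈ Icc (b + (j : ℝ) * s / m) (b + ((j : ℝ) + 1) * s / m) → (x, y) ∉ F)
    {r : ℝ} (hr : 0 < r) (a b s : ℝ) (hs : 0 < s) (hs1 : s ≤ 1) (P : Finset (ℝ × ℝ))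
    (hP : ∀ p ∈ P, p ∈ F ∧ p.1 ∈ Icc a (a + s) ∧ p.2 ∈ Icc b (b + s))
    (hsep : ∀ p ∈ P, ∀ q ∈ P, p ≠ q → r < |p.1 - q.1| ∨ r < |p.2 - q.2|) (ρ : ℝ) (hρ1 : 1 ≤ ρ)
    (hρ : s / r ≤ ρ) :
    (P.card : ℝ) ≤ ((m : ℝ) ^ 2 - 1) * ρ ^ (Real.logb m ((m : ℝ) ^ 2 - 1)) := by
  have hm2 : (2:ℝ) ≤ m := by exact_mod_cast hm
  have hm0 : (0:ℝ) < m := by linarith
  have hm1 : (1:ℝ) < m := by linarith
  have hM : (3:ℝ) ≤ (m : ℝ) ^ 2 - 1 := by nlinarith
  set β := Real.logb m ((m : ℝ) ^ 2 - 1) with hβ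
  set n := ⌈Real.logb m ρ⌉₊ with hn
  have hρ0 : 0 < ρ := by linarith
  have hlog0 : 0 ≤ Real.logb m ρ := Real.logb_nonneg hm1 hρ1
  have h1 : ρ ≤ (m : ℝ) ^ n := by
    have := Nat.le_ceil (Real.logb m ρ)
    rw [← hn] at this
    rw [← Real.rpow_natCast, ← Real.logb_le_iff_le_rpow hm1 hρ0]
    exact this
  have h2 : s / (m : ℝ) ^ n ≤ r := by
    rw [div_le_iff₀ (by positivity)]
    rw [div_le_iff₀ hr] at hρ
    nlinarith
  have h3 := card_le_of_porous hm hpor n a b s hs hs1 P hP hsep h2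
  have h4 : (P.card : ℝ) ≤ ((m : ℝ) ^ 2 - 1) ^ n := by
    have : (P.card : ℝ) ≤ (((m ^ 2 - 1) ^ n : ℕ) : ℝ) := by exact_mod_cast h3
    rw [Nat.cast_pow, Nat.cast_sub (by nlinarith)] at this
    simpa using this
  refine h4.trans ?_
  have h5 : (n : ℝ) ≤ Real.logb m ρ + 1 := (Nat.ceil_lt_add_one hlog0).le
  calc ((m : ℝ) ^ 2 - 1) ^ n = ((m : ℝ) ^ 2 - 1) ^ (n : ℝ) := (Real.rpow_natCast _ _).symm
    _ ≤ ((m : ℝ) ^ 2 - 1) ^ (Real.logb m ρ + 1) :=
        Real.rpow_le_rpow_of_exponent_le (by linarith) h5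
    _ = ((m : ℝ) ^ 2 - 1) ^ (Real.logb m ρ) * ((m : ℝ) ^ 2 - 1) := by
        rw [Real.rpow_add (by linarith), Real.rpow_one]
    _ = ((m : ℝ) ^ 2 - 1) * ρ ^ β := by
        have e : ((m : ℝ) ^ 2 - 1) ^ (Real.logb m ρ) = ρ ^ β := by
          have e1 : ((m : ℝ) ^ 2 - 1) = (m : ℝ) ^ β := by
            rw [hβ, Real.rpow_logb hm0 hm1.ne' (by linarith)]
          have e2 : ρ = (m : ℝ) ^ (Real.logb m ρ) := by
            rw [Real.rpow_logb hm0 hm1.ne' hρ0]
          conv_lhs => rw [e1]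
          conv_rhs => rw [e2]
          rw [← Real.rpow_mul hm0.le, ← Real.rpow_mul hm0.le, mul_comm]
        rw [e]; ring

lemma logb_lt_two {m : ℕ} (hm : 2 ≤ m) : Real.logb m ((m : ℝ) ^ 2 - 1) < 2 := by
  have hm2 : (2:ℝ) ≤ m := by exact_mod_cast hm
  rw [Real.logb_lt_iff_lt_rpow (by linarith) (by nlinarith)]
  have : (m : ℝ) ^ (2 : ℝ) = (m : ℝ) ^ 2 := by norm_cast
  rw [this]
  linarith


/-- The graph over `[0,1]` of a Hölder function with uniformly large oscillation is porous. -/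
lemma graph_porous {f : ℝ → ℝ} {α c L : ℝ} (hα0 : 0 < α) (hα1 : α < 1) (hc : 0 < c) (hL : 0 < L)
    (hup : ∀ x ∈ Icc (0:ℝ) 1, ∀ y ∈ Icc (0:ℝ) 1, |f x - f y| ≤ L * |x - y| ^ α)
    (hlow : ∀ u v : ℝ, 0 ≤ u → u < v → v ≤ 1 → ∃ x ∈ Icc u v, ∃ y ∈ Icc u v,
      c * (v - u) ^ α ≤ |f x - f y|) :
    ∃ m : ℕ, 2 ≤ m ∧ ∀ a b s : ℝ, 0 < s → s ≤ 1 → ∃ i j : ℕ, i < m ∧ j < m ∧ ∀ x y : ℝ,
      x ∈ Icc (a + (i : ℝ) * s / m) (a + ((i : ℝ) + 1) * s / m) →
      y ∈ Icc (b + (j : ℝ) * s / m) (b + ((j : ℝ) + 1) * s / m) →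
      (x, y) ∉ {p : ℝ × ℝ | p.1 ∈ Icc (0:ℝ) 1 ∧ p.2 = f p.1} := by
  set ε : ℝ := c * (1 / 2) ^ α / 8 with hε
  have hεpos : 0 < ε := by positivity
  obtain ⟨m, hm2, hmL, hm1⟩ : ∃ m : ℕ, 2 ≤ m ∧ L * ((m : ℝ)) ^ (-α) ≤ ε ∧ 1 / (m : ℝ) ≤ ε := by
    have h1 : Tendsto (fun m : ℕ => L * ((m : ℝ)) ^ (-α)) atTop (𝓝 (L * 0)) :=
      ((tendsto_rpow_neg_atTop hα0).comp tendsto_natCast_atTop_atTop).const_mul L
    rw [mul_zero] at h1
    have h2 : Tendsto (fun m : ℕ => 1 / (m : ℝ)) atTop (𝓝 0) := tendsto_one_div_atTop_nhds_zero_nat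
    have e1 := (h1.eventually (gt_mem_nhds hεpos))
    have e2 := (h2.eventually (gt_mem_nhds hεpos))
    obtain ⟨m, hm⟩ := ((e1.and e2).and (eventually_ge_atTop 2)).exists
    exact ⟨m, hm.2, hm.1.1.le, hm.1.2.le⟩
  have hm0 : (0:ℝ) < m := by exact_mod_cast (by omega : 0 < m)
  have hm2' : (2:ℝ) ≤ m := by exact_mod_cast hm2
  refine ⟨m, hm2, ?_⟩
  intro a b s hs hs1
  have hsm : s / m ≤ s / 2 := by gcongr
  by_cases hA : a < -(s / 2)
  · refine ⟨0, 0, by omega, by omega, ?_⟩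
    rintro x y hx hy ⟨hx', -⟩
    simp only [Nat.cast_zero, zero_mul, zero_div, add_zero, zero_add, one_mul] at hx
    have := hx.2
    have := hx'.1
    simp only at this
    linarith
  by_cases hB : 1 - s / 2 < a
  · refine ⟨m - 1, 0, by omega, by omega, ?_⟩
    rintro x y hx hy ⟨hx', -⟩
    have e1 : ((m - 1 : ℕ) : ℝ) * s / m = s - s / m := by
      rw [Nat.cast_sub (by omega)]
      field_simp
      push_cast
      ring
    have h1 := hx.1
    rw [e1] at h1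
    have h2 := hx'.2
    simp only at h2
    linarith
  push Not at hA hB
  set u := max a 0 with hu
  set v := min (a + s) 1 with hv
  have huv : s / 2 ≤ v - u := by
    rcases le_total a 0 with h | h <;> rcases le_total (a + s) 1 with h' | h' <;>
      simp only [hu, hv, h, h', max_eq_left, max_eq_right, min_eq_left, min_eq_right] <;> linarith
  obtain ⟨x, hx, y, hy, hxy⟩ := hlow u v (le_max_right _ _) (by linarith) (min_le_right _ _)
  have hlb : 8 * ε * s ^ α ≤ |f x - f y| := by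
    refine le_trans ?_ hxy
    have e1 : 8 * ε * s ^ α = c * (s / 2) ^ α := by
      rw [hε, show s / 2 = (1 / 2) * s by ring, Real.mul_rpow (by norm_num) hs.le]
      ring
    rw [e1]
    gcongr
  -- pick the point far from `b`
  obtain ⟨z, hz, hzb⟩ : ∃ z ∈ Icc u v, 4 * ε * s ^ α ≤ |f z - b| := by
    by_contra hcon
    push Not at hcon
    have h1 := hcon x hx
    have h2 := hcon y hy
    have h3 : |f x - f y| ≤ |f x - b| + |f y - b| := by
      have : f x - f y = (f x - b) - (f y - b) := by ring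
      rw [this]; exact abs_sub _ _
    linarith
  have hza : z ∈ Icc a (a + s) := ⟨le_trans (le_max_left _ _) hz.1, hz.2.trans (min_le_left _ _)⟩
  have hz01 : z ∈ Icc (0:ℝ) 1 := ⟨le_trans (le_max_right _ _) hz.1, hz.2.trans (min_le_right _ _)⟩
  refine ⟨cell m a s z, 0, cell_lt (by omega) _ _ _, by omega, ?_⟩
  rintro w t hw ht ⟨hw01, hwt⟩
  simp only at hw01 hwt
  have hzc := cell_spec (m := m) (by omega) hs hza
  have hdist : |w - z| ≤ s / m := by
    have e1 : (a + ((cell m a s z : ℝ) + 1) * s / m) = (a + (cell m a s z : ℝ) * s / m) + s / m := by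
      ring
    rw [e1] at hzc hw
    rw [abs_le]
    constructor <;> linarith [hzc.1, hzc.2, hw.1, hw.2]
  have h1 : |f w - f z| ≤ ε * s ^ α := by
    calc |f w - f z| ≤ L * |w - z| ^ α := hup w hw01 z hz01
      _ ≤ L * (s / m) ^ α := by gcongr
      _ = (L * (m : ℝ) ^ (-α)) * s ^ α := by
          rw [Real.div_rpow hs.le hm0.le, Real.rpow_neg hm0.le]
          field_simp
      _ ≤ ε * s ^ α := by gcongr
  have hsα : s ≤ s ^ α := by
    calc s = s ^ (1:ℝ) := (Real.rpow_one s).symm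
      _ ≤ s ^ α := Real.rpow_le_rpow_of_exponent_ge hs hs1 hα1.le
  have h2 : |t - b| ≤ ε * s ^ α := by
    simp only [Nat.cast_zero, zero_mul, zero_div, add_zero, zero_add, one_mul] at ht
    have h3 : |t - b| ≤ s / m := by
      rw [abs_le]
      constructor <;> linarith [ht.1, ht.2, div_nonneg hs.le hm0.le]
    refine h3.trans ?_
    calc s / m = (1 / m) * s := by ring
      _ ≤ ε * s ^ α := by gcongr
  have h4 : |f z - b| ≤ |f w - f z| + |t - b| := by
    have : f z - b = -(f w - f z) + (t - b) := by rw [hwt]; ring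
    rw [this]
    refine (abs_add_le _ _).trans ?_
    rw [abs_neg]
  have h5 : 0 < ε * s ^ α := by positivity
  linarith

end Pool.Agent.Lib.Helper30.PorousGraph
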