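import Mathlib
import Pool.Agent.Lib.Helper30.AssouadDefs
import Pool.Agent.Lib.Helper30.PorousGraph
import Pool.Agent.Lib.Helper30.LacunaryOsc

/-!
# Proofs for `MP_68e822_an`
-/

set_option autoImplicit false

open Set Filter Topology
open scoped ENNReal NNReal

namespace Pool.Agent.Lib.Helper30.AssouadMain

open Pool.Agent.Lib.Helper30.AssouadDefs

lemma edist_def {ω : Modulus} (f g : Comega ω) :
    edist f g = normOmega ω (fun x => f.toFun x - g.toFun x) := rfl

lemma sup_le_edist {ω : Modulus} (f g : Comega ω) (x : unitInterval) :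
    ENNReal.ofReal |f.toFun x - g.toFun x| ≤ edist f g :=
  (ofReal_le_supNorm (fun x => f.toFun x - g.toFun x) x).trans le_self_add

lemma osc_le_edist {ω : Modulus} (f g : Comega ω) :
    oscNorm ω (fun x => f.toFun x - g.toFun x) ≤ edist f g := le_add_self

lemma modulus_pos' (ω : Modulus) {x y : unitInterval} (h : x ≠ y) :
    0 < ω |(x : ℝ) - (y : ℝ)| := by
  refine (ω.pos _ ⟨abs_pos.2 (sub_ne_zero.2 fun e => h (Subtype.ext e)), ?_⟩)
  rw [abs_le]
  constructor <;> linarith [x.2.1, x.2.2, y.2.1, y.2.2]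

/-- `C^ω[0,1]` is complete. -/
instance (ω : Modulus) : CompleteSpace (Comega ω) := by
  apply UniformSpace.complete_of_cauchySeq_tendsto
  intro u hu
  rw [EMetric.cauchySeq_iff] at hu
  -- pointwise limits
  have hpt : ∀ x : unitInterval, CauchySeq fun n => (u n).toFun x := by
    intro x
    rw [Metric.cauchySeq_iff]
    intro ε hε
    obtain ⟨N, hN⟩ := hu (ENNReal.ofReal ε) (by simpa using hε)
    refine ⟨N, fun m hm n hn => ?_⟩
    have h1 := (sup_le_edist (u m) (u n) x).trans_lt (hN m hm n hn)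
    rw [ENNReal.ofReal_lt_ofReal_iff hε] at h1
    exact h1
  choose f hf using fun x => cauchySeq_tendsto_of_complete (hpt x)
  -- the key estimate
  have key : ∀ ε : ℝ≥0∞, 0 < ε → ∃ N, ∀ n ≥ N,
      normOmega ω (fun x => (u n).toFun x - f x) ≤ ε + ε := by
    intro ε hε
    obtain ⟨N, hN⟩ := hu ε hε
    refine ⟨N, fun n hn => ?_⟩
    unfold normOmega
    apply add_le_add
    · refine iSup_le fun x => ?_
      have hlim : Tendsto (fun m => ENNReal.ofReal |(u n).toFun x - (u m).toFun x|) atTop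
          (𝓝 (ENNReal.ofReal |(u n).toFun x - f x|)) :=
        ENNReal.tendsto_ofReal ((tendsto_const_nhds.sub (hf x)).abs)
      refine le_of_tendsto hlim ?_
      filter_upwards [eventually_ge_atTop N] with m hm
      exact (sup_le_edist (u n) (u m) x).trans (hN n hn m hm).le
    · refine iSup_le fun x => iSup_le fun y => iSup_le fun hxy => ?_
      have hlim : Tendsto (fun m => ENNReal.ofReal
          (|(u n).toFun x - (u m).toFun x - ((u n).toFun y - (u m).toFun y)| /
            ω |(x : ℝ) - (y : ℝ)|)) atTop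
          (𝓝 (ENNReal.ofReal (|(u n).toFun x - f x - ((u n).toFun y - f y)| /
            ω |(x : ℝ) - (y : ℝ)|))) :=
        ENNReal.tendsto_ofReal ((((tendsto_const_nhds.sub (hf x)).sub
          (tendsto_const_nhds.sub (hf y))).abs).div_const _)
      refine le_of_tendsto hlim ?_
      filter_upwards [eventually_ge_atTop N] with m hm
      exact ((ofReal_le_oscNorm ω (fun x => (u n).toFun x - (u m).toFun x) hxy).trans
        (osc_le_edist (u n) (u m))).trans (hN n hn m hm).le
  -- the limit is in the space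
  have hfin : oscNorm ω f < ∞ := by
    obtain ⟨N, hN⟩ := key 1 one_pos
    have h1 : oscNorm ω (fun x => (u N).toFun x - f x) < ∞ :=
      lt_of_le_of_lt ((le_add_self).trans (hN N le_rfl)) (by norm_num)
    have h2 : oscNorm ω f ≤ oscNorm ω (u N).toFun + oscNorm ω (fun x => (u N).toFun x - f x) := by
      refine iSup_le fun x => iSup_le fun y => iSup_le fun hxy => ?_
      refine le_trans ?_ (add_le_add (ofReal_le_oscNorm ω (u N).toFun hxy)
        (ofReal_le_oscNorm ω (fun x => (u N).toFun x - f x) hxy))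
      rw [← ENNReal.ofReal_add (div_nonneg (abs_nonneg _) (modulus_nonneg ω x y))
        (div_nonneg (abs_nonneg _) (modulus_nonneg ω x y)), ← add_div]
      apply ENNReal.ofReal_le_ofReal
      apply div_le_div_of_nonneg_right _ (modulus_nonneg ω x y)
      have e : f x - f y = ((u N).toFun x - (u N).toFun y) +
          -((u N).toFun x - f x - ((u N).toFun y - f y)) := by ring
      rw [e]
      refine (abs_add_le _ _).trans ?_
      rw [abs_neg]
    exact lt_of_le_of_lt h2 (ENNReal.add_lt_top.2 ⟨(u N).oscNorm_lt_top, h1⟩)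
  refine ⟨⟨f, hfin⟩, ?_⟩
  rw [EMetric.tendsto_atTop]
  intro ε hε
  obtain ⟨δ, hδ0, hδ⟩ : ∃ δ : ℝ≥0∞, 0 < δ ∧ δ + δ < ε := by
    obtain ⟨δ, h1, h2⟩ := ENNReal.exists_pos_tsum_mul_lt_of_countable hε.ne' (fun _ : Bool => 2)
      (by simp)
    refine ⟨δ true, by exact_mod_cast h1 true, ?_⟩
    refine lt_of_le_of_lt ?_ h2
    rw [tsum_bool]
    refine le_trans ?_ le_add_self
    rw [two_mul]
  obtain ⟨N, hN⟩ := key δ hδ0
  refine ⟨N, fun n hn => ?_⟩
  rw [edist_def]
  exact lt_of_le_of_lt (hN n hn) hδ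

/-! ### The power modulus -/

/-- The modulus `t ↦ t^α`. -/
noncomputable def powMod (α : ℝ) (hα0 : 0 < α) : Modulus where
  toFun t := t ^ α
  monotoneOn := fun x hx y _ hxy => Real.rpow_le_rpow hx.1 hxy hα0.le
  pos := fun t ht => Real.rpow_pos_of_pos ht.1 _
  map_zero := Real.zero_rpow hα0.ne'
  tendsto_zero := by
    have h : Tendsto (fun t : ℝ => t ^ α) (𝓝 0) (𝓝 ((0:ℝ) ^ α)) :=
      (Real.continuousAt_rpow_const 0 α (Or.inr hα0.le)).tendsto
    rw [Real.zero_rpow hα0.ne'] at h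
    exact h.mono_left nhdsWithin_le_nhds

/-- Functions with uniformly large oscillation. -/
def bigOsc (α : ℝ) (f : unitInterval → ℝ) : Prop :=
  ∃ c : ℝ, 0 < c ∧ ∀ u v : ℝ, 0 ≤ u → u < v → v ≤ 1 →
    ∃ x y : unitInterval, (x : ℝ) ∈ Icc u v ∧ (y : ℝ) ∈ Icc u v ∧ c * (v - u) ^ α ≤ |f x - f y|

lemma holder_of_oscNorm_le {α : ℝ} (hα0 : 0 < α) {f : unitInterval → ℝ} {L : ℝ} (hL : 0 ≤ L)
    (h : oscNorm (powMod α hα0) f ≤ ENNReal.ofReal L) (x y : unitInterval) :
    |f x - f y| ≤ L * |(x : ℝ) - (y : ℝ)| ^ α := by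
  rcases eq_or_ne x y with rfl | hxy
  · simp [Real.zero_rpow hα0.ne']
  have h1 := (ofReal_le_oscNorm (powMod α hα0) f hxy).trans h
  rw [ENNReal.ofReal_le_ofReal_iff hL] at h1
  have hpos := modulus_pos' (powMod α hα0) hxy
  rw [div_le_iff₀ hpos] at h1
  exact h1

lemma isOpen_bigOsc {α : ℝ} (hα0 : 0 < α) :
    IsOpen {f : Comega (powMod α hα0) | bigOsc α f.toFun} := by
  rw [EMetric.isOpen_iff]
  rintro f ⟨c, hc, hf⟩
  refine ⟨ENNReal.ofReal (c / 2), by simpa using hc, ?_⟩
  intro g hg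
  refine ⟨c / 2, by positivity, ?_⟩
  intro u v hu huv hv
  obtain ⟨x, y, hx, hy, hxy⟩ := hf u v hu huv hv
  refine ⟨x, y, hx, hy, ?_⟩
  have h1 : oscNorm (powMod α hα0) (fun x => g.toFun x - f.toFun x) ≤ ENNReal.ofReal (c / 2) :=
    (osc_le_edist g f).trans (le_of_lt hg)
  have h2 := holder_of_oscNorm_le hα0 (by positivity) h1 x y
  have h3 : |(x : ℝ) - (y : ℝ)| ^ α ≤ (v - u) ^ α := by
    apply Real.rpow_le_rpow (abs_nonneg _) _ hα0.le
    rw [abs_le]
    constructor <;> linarith [hx.1, hx.2, hy.1, hy.2]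
  have h4 : |f.toFun x - f.toFun y| ≤ |g.toFun x - g.toFun y| +
      |g.toFun x - f.toFun x - (g.toFun y - f.toFun y)| := by
    have e : f.toFun x - f.toFun y = (g.toFun x - g.toFun y) +
        -(g.toFun x - f.toFun x - (g.toFun y - f.toFun y)) := by ring
    rw [e]
    refine (abs_add_le _ _).trans ?_
    rw [abs_neg]
  have h5 : c / 2 * |(x : ℝ) - (y : ℝ)| ^ α ≤ c / 2 * (v - u) ^ α :=
    mul_le_mul_of_nonneg_left h3 (by positivity)
  linarith

lemma nonempty_bigOsc {α : ℝ} (hα0 : 0 < α) (hα1 : α < 1) :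
    {f : Comega (powMod α hα0) | bigOsc α f.toFun}.Nonempty := by
  obtain ⟨f, c, L, hc, hL, hup, hlow⟩ := LacunaryOsc.exists_osc hα0 hα1
  refine ⟨⟨fun x => f x, ?_⟩, c, hc, ?_⟩
  · refine lt_of_le_of_lt ?_ (ENNReal.ofReal_lt_top (r := L))
    refine iSup_le fun x => iSup_le fun y => iSup_le fun hxy => ?_
    apply ENNReal.ofReal_le_ofReal
    rw [div_le_iff₀ (modulus_pos' _ hxy)]
    exact hup x x.2 y y.2
  · intro u v hu huv hv
    obtain ⟨x, hx, y, hy, hxy⟩ := hlow u v hu huv hv
    exact ⟨⟨x, hu.trans hx.1, hx.2.trans hv⟩, ⟨y, hu.trans hy.1, hy.2.trans hv⟩, hx, hy, hxy⟩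

/-! ### The dimension bound -/

lemma packing_sep {r : ℝ} (hr : 0 < r) {s : Finset (EuclideanSpace ℝ (Fin 2))}
    (hs : (s : Set (EuclideanSpace ℝ (Fin 2))).PairwiseDisjoint fun x => Metric.closedBall x r)
    {p q : EuclideanSpace ℝ (Fin 2)} (hp : p ∈ s) (hq : q ∈ s) (hpq : p ≠ q) :
    r < |p 0 - q 0| ∨ r < |p 1 - q 1| := by
  by_contra hcon
  push Not at hcon
  obtain ⟨h0, h1⟩ := hcon
  have hd : dist p q ≤ r + r := by
    rw [EuclideanSpace.dist_eq, Fin.sum_univ_two]
    apply Real.sqrt_le_iff.2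
    constructor
    · positivity
    · rw [Real.dist_eq, Real.dist_eq]
      have e0 : |p 0 - q 0| ^ 2 ≤ r ^ 2 := by gcongr
      have e1 : |p 1 - q 1| ^ 2 ≤ r ^ 2 := by gcongr
      nlinarith
  have hmid : midpoint ℝ p q ∈ Metric.closedBall p r ∩ Metric.closedBall q r := by
    constructor
    · rw [Metric.mem_closedBall, dist_midpoint_left]
      norm_num
      linarith
    · rw [Metric.mem_closedBall, dist_midpoint_right]
      norm_num
      linarith
  exact (Set.disjoint_iff.1 (hs hp hq hpq) hmid)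

/-- The coordinates of a point of the plane. -/
def coords (p : EuclideanSpace ℝ (Fin 2)) : ℝ × ℝ := (p 0, p 1)

lemma coords_injective : Function.Injective coords := by
  intro p q h
  simp only [coords, Prod.mk.injEq] at h
  ext i
  fin_cases i
  · exact h.1
  · exact h.2

theorem assouadDim_lt_two {α : ℝ} (hα0 : 0 < α) (hα1 : α < 1) (f : Comega (powMod α hα0))
    (hf : bigOsc α f.toFun) : assouadDim (graph f.toFun) < 2 := by
  obtain ⟨c, hc, hlow⟩ := hf
  -- Hölder constant
  set L : ℝ := (oscNorm (powMod α hα0) f.toFun).toReal + 1 with hLdef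
  have hL0 : 0 < L := by positivity
  have hosc : oscNorm (powMod α hα0) f.toFun ≤ ENNReal.ofReal L := by
    rw [hLdef, ENNReal.ofReal_add (by positivity) (by norm_num),
      ENNReal.ofReal_toReal f.oscNorm_lt_top.ne]
    exact le_self_add
  have hup : ∀ x y : unitInterval, |f.toFun x - f.toFun y| ≤ L * |(x : ℝ) - (y : ℝ)| ^ α :=
    holder_of_oscNorm_le hα0 hL0.le hosc
  -- extension to the line
  set F : ℝ → ℝ := fun x => f.toFun (projIcc 0 1 zero_le_one x) with hF
  have hFx : ∀ x : unitInterval, F x = f.toFun x := fun x => by simp [hF]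
  obtain ⟨m, hm2, hpor⟩ := PorousGraph.graph_porous (f := F) hα0 hα1 hc hL0
    (fun x hx y hy => by
      have := hup ⟨x, hx⟩ ⟨y, hy⟩
      rw [← hFx, ← hFx] at this
      exact this)
    (fun u v hu huv hv => by
      obtain ⟨x, y, hx, hy, hxy⟩ := hlow u v hu huv hv
      exact ⟨x, hx, y, hy, by rw [hFx, hFx]; exact hxy⟩)
  set S : Set (ℝ × ℝ) := {p : ℝ × ℝ | p.1 ∈ Icc (0:ℝ) 1 ∧ p.2 = F p.1} with hS
  have hm2' : (2:ℝ) ≤ m := by exact_mod_cast hm2
  set β : ℝ := Real.logb m ((m : ℝ) ^ 2 - 1) with hβ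
  have hβ2 : β < 2 := PorousGraph.logb_lt_two hm2
  have hβ0 : 0 ≤ β := Real.logb_nonneg (by linarith) (by nlinarith)
  -- vertical bound of the graph
  set M : ℕ := ⌈L⌉₊ with hM
  have hML : L ≤ M := Nat.le_ceil L
  set y0 : ℝ := F 0 with hy0
  have hbound : ∀ p ∈ S, |p.2 - y0| ≤ M := by
    rintro ⟨x, y⟩ ⟨hx, hxy⟩
    simp only at hx hxy ⊢
    have h1 := hup ⟨x, hx⟩ ⟨0, by norm_num, by norm_num⟩
    rw [← hFx, ← hFx] at h1
    simp only [sub_zero] at h1
    rw [hxy]
    refine h1.trans ?_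
    have h2 : |x| ^ α ≤ 1 := by
      apply Real.rpow_le_one (abs_nonneg _) _ hα0.le
      rw [abs_of_nonneg hx.1]; exact hx.2
    nlinarith
  -- the counting estimate
  set K : ℝ := (m : ℝ) ^ 2 - 1 with hK
  have hK0 : 3 ≤ K := by nlinarith
  have hcount : ∀ r R : ℝ, 0 < r → r < R → ∀ p : EuclideanSpace ℝ (Fin 2),
      ∀ s : Finset (EuclideanSpace ℝ (Fin 2)),
      (s : Set (EuclideanSpace ℝ (Fin 2))) ⊆ Metric.ball p R ∩ graph f.toFun →
      (s : Set (EuclideanSpace ℝ (Fin 2))).PairwiseDisjoint (fun x => Metric.closedBall x r) →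
      (s.card : ℝ) ≤ ((2 * M + 1) * K * 2 ^ β) * (R / r) ^ β := by
    intro r R hr hrR p s hs hdis
    set P : Finset (ℝ × ℝ) := s.image coords with hP
    have hPcard : P.card = s.card := Finset.card_image_of_injective _ coords_injective
    have hPS : ∀ z ∈ P, z ∈ S := by
      intro z hz
      rw [hP, Finset.mem_image] at hz
      obtain ⟨w, hw, rfl⟩ := hz
      obtain ⟨x, hx⟩ := (hs hw).2
      simp only at hx
      rw [← hx]
      refine ⟨x.2, ?_⟩
      simp [coords, hFx]
    have hPsep : ∀ z ∈ P, ∀ w ∈ P, z ≠ w → r < |z.1 - w.1| ∨ r < |z.2 - w.2| := by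
      intro z hz w hw hzw
      rw [hP, Finset.mem_image] at hz hw
      obtain ⟨z', hz', rfl⟩ := hz
      obtain ⟨w', hw', rfl⟩ := hw
      exact packing_sep hr hdis hz' hw' (fun e => hzw (by rw [e]))
    have hRr : 1 ≤ R / r := by rw [le_div_iff₀ hr]; linarith
    have hpow1 : (2 * R / r) ^ β = 2 ^ β * (R / r) ^ β := by
      rw [mul_div_assoc, Real.mul_rpow (by norm_num) (by positivity)]
    have hMnn : (0:ℝ) ≤ M := Nat.cast_nonneg _
    rw [← hPcard]
    rcases le_or_gt (2 * R) 1 with hR | hR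
    · -- small balls: a single square
      have h1 := PorousGraph.card_le_rpow_of_porous hm2 hpor hr (p 0 - R) (p 1 - R) (2 * R)
        (by linarith) hR P (by
          intro z hz
          refine ⟨hPS z hz, ?_⟩
          rw [hP, Finset.mem_image] at hz
          obtain ⟨w, hw, rfl⟩ := hz
          have hwb := (hs hw).1
          rw [Metric.mem_ball, EuclideanSpace.dist_eq, Fin.sum_univ_two] at hwb
          have hR0 : 0 < R := by linarith
          rw [Real.sqrt_lt' hR0, Real.dist_eq, Real.dist_eq] at hwb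
          have a0 : |w 0 - p 0| ≤ R := by
            apply abs_le_of_sq_le_sq _ hR0.le
            nlinarith [sq_nonneg (|w 1 - p 1|), sq_abs (w 0 - p 0)]
          have a1 : |w 1 - p 1| ≤ R := by
            apply abs_le_of_sq_le_sq _ hR0.le
            nlinarith [sq_nonneg (|w 0 - p 0|), sq_abs (w 1 - p 1)]
          rw [abs_le] at a0 a1
          simp only [coords]
          constructor <;> constructor <;> linarith [a0.1, a0.2, a1.1, a1.2]) hPsep
        (2 * R / r) (by rw [mul_div_assoc]; linarith) le_rfl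
      rw [hpow1] at h1
      have h2 : K * (2 ^ β * (R / r) ^ β) ≤ ((2 * M + 1) * K * 2 ^ β) * (R / r) ^ β := by
        have : 0 ≤ K * (2 ^ β * (R / r) ^ β) := by positivity
        nlinarith
      exact h1.trans h2
    · -- large balls: cover the graph with unit squares
      set col : ℝ × ℝ → ℕ := fun z => ⌊z.2 - y0 + M⌋₊ with hcol
      have hmaps : ∀ z ∈ P, col z ∈ Finset.range (2 * M + 1) := by
        intro z hz
        have h1 := hbound z (hPS z hz)
        rw [abs_le] at h1
        rw [Finset.mem_range, hcol]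
        have h2 : z.2 - y0 + M < ((2 * M + 1 : ℕ) : ℝ) := by push_cast; linarith [h1.2]
        exact (Nat.floor_lt (by linarith [h1.1])).2 h2
      have hfib : ∀ k ∈ Finset.range (2 * M + 1),
          ((P.filter fun z => col z = k).card : ℝ) ≤ K * (2 * R / r) ^ β := by
        intro k _
        apply PorousGraph.card_le_rpow_of_porous hm2 hpor hr 0 (y0 - M + k) 1 one_pos le_rfl
        · intro z hz
          rw [Finset.mem_filter] at hz
          have hzS := hPS z hz.1
          have h1 := hbound z hzS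
          rw [abs_le] at h1
          refine ⟨hzS, ?_, ?_⟩
          · simpa using hzS.1
          · have h2 := Nat.floor_le (show 0 ≤ z.2 - y0 + M by linarith [h1.1])
            have h3 := Nat.lt_floor_add_one (z.2 - y0 + M)
            have h4 : ⌊z.2 - y0 + M⌋₊ = k := hz.2
            rw [h4] at h2 h3
            constructor <;> linarith
        · intro z hz w hw
          rw [Finset.mem_filter] at hz hw
          exact hPsep z hz.1 w hw.1
        · rw [mul_div_assoc]; linarith
        · gcongr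
      rw [Finset.card_eq_sum_card_fiberwise hmaps]
      push_cast
      calc ∑ k ∈ Finset.range (2 * M + 1), ((P.filter fun z => col z = k).card : ℝ)
          ≤ ∑ _k ∈ Finset.range (2 * M + 1), K * (2 * R / r) ^ β := Finset.sum_le_sum hfib
        _ = ((2 * M + 1) * K * 2 ^ β) * (R / r) ^ β := by
            rw [Finset.sum_const, Finset.card_range, nsmul_eq_mul, hpow1]
            push_cast
            ring
  -- conclusion
  obtain ⟨b, hb⟩ : ∃ b : ℝ≥0, (b : ℝ) = β := ⟨⟨β, hβ0⟩, rfl⟩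
  have hle : assouadDim (graph f.toFun) ≤ (b : ℝ≥0∞) := by
    refine iInf_le_of_le b (iInf_le_of_le ?_ le_rfl)
    rw [hb]
    refine ⟨(2 * M + 1) * K * 2 ^ β, by positivity, ?_⟩
    intro r R hr hrR p _
    unfold packingNumber
    have hfin : ∀ s : Finset (EuclideanSpace ℝ (Fin 2)),
      (s : Set (EuclideanSpace ℝ (Fin 2))) ⊆ Metric.ball p R ∩ graph f.toFun →
      (s : Set (EuclideanSpace ℝ (Fin 2))).PairwiseDisjoint (fun x => Metric.closedBall x r) →
      (s.card : ℕ∞) ≤ (⌊((2 * M + 1) * K * 2 ^ β) * (R / r) ^ β⌋₊ : ℕ) := by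
      intro s h1 h2
      have := hcount r R hr hrR p s h1 h2
      exact_mod_cast Nat.le_floor this
    have h1 : (⨆ (s : Finset (EuclideanSpace ℝ (Fin 2)))
        (_ : (s : Set (EuclideanSpace ℝ (Fin 2))) ⊆ Metric.ball p R ∩ graph f.toFun)
        (_ : (s : Set (EuclideanSpace ℝ (Fin 2))).PairwiseDisjoint fun x =>
          Metric.closedBall x r), (s.card : ℕ∞)) ≤
        ((⌊((2 * M + 1) * K * 2 ^ β) * (R / r) ^ β⌋₊ : ℕ) : ℕ∞) :=
      iSup_le fun s => iSup_le fun h1 => iSup_le fun h2 => hfin s h1 h2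
    have hRr0 : 0 < R / r := div_pos (by linarith) hr
    calc _ ≤ (((⌊((2 * M + 1) * K * 2 ^ β) * (R / r) ^ β⌋₊ : ℕ) : ℕ∞) : ℝ≥0∞) := by
          exact_mod_cast ENat.toENNReal_mono h1
      _ = ENNReal.ofReal (⌊((2 * M + 1) * K * 2 ^ β) * (R / r) ^ β⌋₊ : ℕ) := by simp
      _ ≤ ENNReal.ofReal (((2 * M + 1) * K * 2 ^ β) * (R / r) ^ β) := by
          apply ENNReal.ofReal_le_ofReal
          exact Nat.floor_le (by positivity)
  refine lt_of_le_of_lt hle ?_
  have : b < 2 := by
    rw [← NNReal.coe_lt_coe, hb]; exact hβ2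
  exact_mod_cast this

/-! ### Conclusion -/

theorem main (α : ℝ) (hα0 : 0 < α) (hα1 : α < 1) :
    ∃ ω : Modulus,
      (∀ t ∈ Icc (0 : ℝ) 1, ω t = t ^ α) ∧
      ConcaveOn ℝ (Icc 0 1) ω ∧
      Tendsto (fun t => ω t / t) (𝓝[>] 0) atTop ∧
      (∃ U : Set (Comega ω), IsOpen U ∧ U.Nonempty ∧
        ∀ f ∈ U, assouadDim (graph f.toFun) < 2) ∧
      ¬ IsMeagre {f : Comega ω | assouadDim (graph f.toFun) < 2} ∧
      {f : Comega ω | assouadDim (graph f.toFun) = 2} ∉ residual (Comega ω) := by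
  have hopen := isOpen_bigOsc (α := α) hα0
  have hne := nonempty_bigOsc hα0 hα1
  have hsub : {f : Comega (powMod α hα0) | bigOsc α f.toFun} ⊆
      {f : Comega (powMod α hα0) | assouadDim (graph f.toFun) < 2} :=
    fun f hf => assouadDim_lt_two hα0 hα1 f hf
  have hmea : ¬ IsMeagre {f : Comega (powMod α hα0) | assouadDim (graph f.toFun) < 2} :=
    fun h => not_isMeagre_of_isOpen hopen hne (h.mono hsub)
  refine ⟨powMod α hα0, fun t _ => rfl, ?_, ?_, ⟨_, hopen, hne, hsub⟩, hmea, ?_⟩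
  · exact (Real.concaveOn_rpow hα0.le hα1.le).subset Icc_subset_Ici_self (convex_Icc _ _)
  · have h1 : Tendsto (fun t : ℝ => t ^ (-(1 - α))) (𝓝[>] 0) atTop :=
      tendsto_rpow_neg_nhdsGT_zero (by linarith)
    refine h1.congr' ?_
    filter_upwards [self_mem_nhdsWithin] with t ht
    show t ^ (-(1 - α)) = t ^ α / t
    have ht0 : 0 < t := ht
    rw [neg_sub, Real.rpow_sub_one ht0.ne']
  · intro h
    apply hmea
    have h2 : IsMeagre ({f : Comega (powMod α hα0) | assouadDim (graph f.toFun) = 2}ᶜ) := by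
      rw [IsMeagre, compl_compl]; exact h
    refine h2.mono ?_
    intro f hf
    exact ne_of_lt hf

end Pool.Agent.Lib.Helper30.AssouadMain
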