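import Pool.Agent.Lib.Helper30.DigammaRemainder

/-!
# The digamma remainder of `MP_d2a7e5_an`: infinitely many wrong signs at every point

For every `a > 4/15` and every `x > -2/3 - 1/(45 a)` there are infinitely many `n` with
`(-1)^n (-F_a)^{(n)}(x) < 0`.

Proof. With `u = x + 1/2`, `p = a + 1/12`, `q = 1/12 - 1/(45 a)` and `w = u + i √q`,
`(-1)^n (-F_a)^{(n)}(x) = -(n-1)! (2 A Re (u + i √p)^{-n} + 2 B Re w^{-n}) + n! ∑ (x + 1 + m)^{-n-1}`.
As `|w| < |u + i √p|` and `|w| < x + 1`, the term with `w` dominates for large `n`, and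
`Re w^{-n} = |w|^{-n} cos (n arg w)` with `cos (n arg w) ≥ 1/2` for infinitely many `n` (Dirichlet).
-/

set_option autoImplicit false

open Set Filter Topology
open scoped ContDiff

namespace Pool.Agent.Lib.Helper30.DigammaRemainder

/-- The successive derivatives of `digamma`. -/
noncomputable def digD : ℕ → ℝ → ℝ
  | 0 => digamma
  | n + 1 => fun x => (-1) ^ n * ((n + 1).factorial : ℝ) * T (n + 2) x

lemma hasDerivAt_digD (n : ℕ) {x : ℝ} (hx : 0 < x) : HasDerivAt (digD n) (digD (n + 1) x) x := by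
  cases n with
  | zero =>
    have h := hasDerivAt_digamma hx
    refine h.congr_deriv ?_
    simp [digD]
  | succ n =>
    have h := (hasDerivAt_T (k := n + 2) (by omega) hx).const_mul ((-1) ^ n * ((n + 1).factorial : ℝ))
    refine h.congr_deriv ?_
    simp only [digD]
    rw [Nat.factorial_succ (n + 1), pow_succ]
    push_cast
    ring

/-- The point `x + 1/2 + i s`. -/
noncomputable def wz (s x : ℝ) : ℂ := ((x + 1 / 2 : ℝ) : ℂ) + (s : ℂ) * Complex.I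

lemma wz_re (s x : ℝ) : (wz s x).re = x + 1 / 2 := by simp [wz]

lemma wz_im (s x : ℝ) : (wz s x).im = s := by simp [wz]

lemma wz_normSq (s x : ℝ) : Complex.normSq (wz s x) = (x + 1 / 2) ^ 2 + s ^ 2 := by
  rw [Complex.normSq_apply, wz_re, wz_im]
  ring

lemma wz_ne (s x : ℝ) (hs : 0 < s) : wz s x ≠ 0 := by
  intro h
  have h1 := congrArg Complex.im h
  rw [wz_im, Complex.zero_im] at h1
  exact hs.ne' h1

lemma hasDerivAt_wz (s x : ℝ) : HasDerivAt (wz s) 1 x := by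
  have h1 : HasDerivAt (fun y : ℝ => y + 1 / 2) 1 x := (hasDerivAt_id x).add_const _
  have h2 := h1.ofReal_comp
  have h3 := h2.add_const ((s : ℂ) * Complex.I)
  rw [Complex.ofReal_one] at h3
  exact h3

lemma hasDerivAt_wz_inv (s x : ℝ) (hs : 0 < s) (n : ℕ) :
    HasDerivAt (fun y => ((wz s y)⁻¹ ^ (n + 1)).re) (-((n : ℝ) + 1) * ((wz s x)⁻¹ ^ (n + 2)).re) x := by
  have h1 := (hasDerivAt_wz s x).inv (wz_ne s x hs)
  have h2 := h1.pow (n + 1)
  have h3 := Complex.reCLM.hasFDerivAt.comp_hasDerivAt x h2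
  have h4 : Complex.reCLM (((n + 1 : ℕ) : ℂ) * ((wz s)⁻¹ x) ^ (n + 1 - 1) * (-1 / wz s x ^ 2)) =
      -((n : ℝ) + 1) * ((wz s x)⁻¹ ^ (n + 2)).re := by
    have h5 : ((n + 1 : ℕ) : ℂ) * ((wz s)⁻¹ x) ^ (n + 1 - 1) * (-1 / wz s x ^ 2) =
        ((-((n : ℝ) + 1) : ℝ) : ℂ) * (wz s x)⁻¹ ^ (n + 2) := by
      rw [Nat.add_sub_cancel, Pi.inv_apply, pow_add]
      push_cast
      field_simp
    rw [h5]
    show (((-((n : ℝ) + 1) : ℝ) : ℂ) * (wz s x)⁻¹ ^ (n + 2)).re = _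
    rw [Complex.re_ofReal_mul]
  rw [h4] at h3
  exact h3

/-- The successive derivatives of `log (x² + x + c)`, `c = 1/4 + s²`. -/
noncomputable def logD (s : ℝ) : ℕ → ℝ → ℝ
  | 0 => fun x => Real.log (x ^ 2 + x + (1 / 4 + s ^ 2))
  | n + 1 => fun x => 2 * ((-1) ^ n * (n.factorial : ℝ)) * ((wz s x)⁻¹ ^ (n + 1)).re

lemma hasDerivAt_logD (s x : ℝ) (hs : 0 < s) (n : ℕ) : HasDerivAt (logD s n) (logD s (n + 1) x) x := by
  cases n with
  | zero =>
    have hc : 1 / 4 < 1 / 4 + s ^ 2 := by have := sq_pos_of_pos hs; linarith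
    have h := (hasDerivAt_quad (1 / 4 + s ^ 2) x).log (quad_pos hc x).ne'
    refine h.congr_deriv ?_
    simp only [logD, zero_add, pow_one, pow_zero, Nat.factorial_zero, Nat.cast_one, mul_one]
    rw [Complex.inv_re, wz_re, wz_normSq]
    have h1 : x ^ 2 + x + (1 / 4 + s ^ 2) = (x + 1 / 2) ^ 2 + s ^ 2 := by ring
    rw [h1]
    ring
  | succ n =>
    have h := (hasDerivAt_wz_inv s x hs n).const_mul (2 * ((-1) ^ n * (n.factorial : ℝ)))
    refine h.congr_deriv ?_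
    simp only [logD]
    rw [Nat.factorial_succ, pow_succ]
    push_cast
    ring

/-- Infinitely many multiples of an angle have cosine at least `1/2`. -/
lemma exists_cos (θ : ℝ) (N : ℕ) : ∃ n ≥ N, 1 / 2 ≤ Real.cos (n * θ) := by
  obtain ⟨j, k, hk, hkn, h⟩ := Real.exists_int_int_abs_mul_sub_le (θ / (2 * Real.pi)) (n := 6 * (N + 1)) (by omega)
  obtain ⟨k', rfl⟩ : ∃ k' : ℕ, k = k' := ⟨k.toNat, by rw [Int.toNat_of_nonneg hk.le]⟩
  have hk1 : 1 ≤ k' := by exact_mod_cast hk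
  refine ⟨(N + 1) * k', by nlinarith, ?_⟩
  have hpi := Real.pi_pos
  have h1 : ((((N + 1) * k' : ℕ)) : ℝ) * θ - (((N + 1 : ℕ) : ℤ) * j : ℤ) * (2 * Real.pi) =
      (2 * Real.pi) * (((N : ℝ) + 1) * (((k' : ℤ) : ℝ) * (θ / (2 * Real.pi)) - j)) := by
    push_cast
    field_simp
  have h2 : |((((N + 1) * k' : ℕ)) : ℝ) * θ - (((N + 1 : ℕ) : ℤ) * j : ℤ) * (2 * Real.pi)| ≤ Real.pi / 3 := by
    rw [h1, abs_mul (2 * Real.pi), abs_mul ((N : ℝ) + 1), abs_of_pos (by positivity : (0 : ℝ) < 2 * Real.pi),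
      abs_of_pos (by positivity : (0 : ℝ) < (N : ℝ) + 1)]
    have h3 : ((N : ℝ) + 1) * |((k' : ℤ) : ℝ) * (θ / (2 * Real.pi)) - j| ≤ 1 / 6 := by
      refine (mul_le_mul_of_nonneg_left h (by positivity)).trans ?_
      push_cast
      rw [mul_one_div, div_le_div_iff₀ (by positivity) (by norm_num)]
      linarith
    nlinarith
  have h4 : Real.cos ((((N + 1) * k' : ℕ)) * θ) =
      Real.cos |((((N + 1) * k' : ℕ)) : ℝ) * θ - (((N + 1 : ℕ) : ℤ) * j : ℤ) * (2 * Real.pi)| := by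
    rw [Real.cos_abs, Real.cos_sub_int_mul_two_pi]
  rw [h4, ← Real.cos_pi_div_three]
  exact Real.cos_le_cos_of_nonneg_of_le_pi (abs_nonneg _) (by linarith) h2

lemma T_le {y : ℝ} (hy : 0 < y) (n : ℕ) : T (n + 2) y ≤ T 2 y * (y⁻¹) ^ n := by
  unfold T
  rw [← tsum_mul_right]
  refine Summable.tsum_le_tsum (fun m => ?_) (summable_T (by omega) hy) ((summable_T le_rfl hy).mul_right _)
  have hm : (0 : ℝ) ≤ m := Nat.cast_nonneg m
  rw [pow_add, inv_pow, one_div, one_div, mul_inv, mul_comm]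
  gcongr
  linarith

/-- Infinitely many wrong signs. -/
theorem main_inf (a : ℝ) (ha : 4 / 15 < a) (x : ℝ) (hx : -2 / 3 - 1 / (45 * a) < x) (N : ℕ) :
    ∃ n ≥ N, (-1 : ℝ) ^ n * iteratedDeriv n (fun x => -remF a x) x < 0 := by
  have ha0 : 0 < a := by linarith
  set A : ℝ := 1 / (90 * a ^ 2 + 2) with hA
  set B : ℝ := 45 * a ^ 2 / (90 * a ^ 2 + 2) with hB
  have hA0 : 0 < A := by positivity
  have hB0 : 0 < B := by positivity
  set p : ℝ := a + 1 / 12 with hp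
  set q : ℝ := 1 / 12 - 1 / (45 * a) with hq
  have hinv : 1 / (45 * a) < 1 / 12 := one_div_lt_one_div_of_lt (by norm_num) (by linarith)
  have hinv0 : 0 < 1 / (45 * a) := by positivity
  have hp0 : 0 < p := by positivity
  have hq0 : 0 < q := by rw [hq]; linarith
  have hqp : q < p := by rw [hq, hp]; linarith
  have hx1 : -1 < x := by linarith
  have hy : 0 < x + 1 := by linarith
  have hsp := Real.sqrt_pos.2 hp0
  have hsq := Real.sqrt_pos.2 hq0
  have e1 : (3 * a + 1) / 3 = 1 / 4 + Real.sqrt p ^ 2 := by rw [Real.sq_sqrt hp0.le, hp]; ring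
  have e2 : (15 * a - 1) / (45 * a) = 1 / 4 + Real.sqrt q ^ 2 := by
    rw [Real.sq_sqrt hq0.le, hq]
    field_simp
    ring
  set g : ℕ → ℝ → ℝ := fun n x =>
    -(digD n (x + 1) - (A * logD (Real.sqrt p) n x + B * logD (Real.sqrt q) n x)) with hg
  have hg0 : g 0 = fun x => -remF a x := by
    funext y
    simp only [hg, remF, calL, digD, logD, hA, hB, e1, e2]
  have hchain : ∀ n, iteratedDeriv n (fun x => -remF a x) x = g n x := by
    intro n
    rw [← hg0]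
    refine iteratedDeriv_chain (U := Ioi (-1)) isOpen_Ioi g n (fun m _ y hy' => ?_) n le_rfl x hx1
    have hy1 : 0 < y + 1 := by simp only [mem_Ioi] at hy'; linarith
    have d1 : HasDerivAt (fun x => digD m (x + 1)) (digD (m + 1) (y + 1)) y :=
      (hasDerivAt_digD m hy1).comp_add_const y 1
    exact (d1.sub (((hasDerivAt_logD _ y hsp m).const_mul A).add
      ((hasDerivAt_logD _ y hsq m).const_mul B))).neg
  -- the formula
  have hform : ∀ n : ℕ, (-1 : ℝ) ^ (n + 1) * g (n + 1) x = (n.factorial : ℝ) *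
      (((n : ℝ) + 1) * T (n + 2) (x + 1) - 2 * A * ((wz (Real.sqrt p) x)⁻¹ ^ (n + 1)).re -
        2 * B * ((wz (Real.sqrt q) x)⁻¹ ^ (n + 1)).re) := by
    intro n
    simp only [hg, digD, logD]
    rw [Nat.factorial_succ]
    push_cast
    have h1 : ((-1 : ℝ) ^ n) * (-1) ^ n = 1 := by rw [← mul_pow]; norm_num
    linear_combination (-(((n : ℝ) + 1) * (n.factorial : ℝ) * T (n + 2) (x + 1)) * (-1) +
      (-2 * A * (n.factorial : ℝ) * ((wz (Real.sqrt p) x)⁻¹ ^ (n + 1)).re) +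
      (-2 * B * (n.factorial : ℝ) * ((wz (Real.sqrt q) x)⁻¹ ^ (n + 1)).re)) * h1
  -- the moduli
  set ρ : ℝ := ‖wz (Real.sqrt q) x‖ with hρ
  set R : ℝ := ‖wz (Real.sqrt p) x‖ with hR
  have hρ2 : ρ ^ 2 = (x + 1 / 2) ^ 2 + q := by
    rw [hρ, ← Complex.normSq_eq_norm_sq, wz_normSq, Real.sq_sqrt hq0.le]
  have hR2 : R ^ 2 = (x + 1 / 2) ^ 2 + p := by
    rw [hR, ← Complex.normSq_eq_norm_sq, wz_normSq, Real.sq_sqrt hp0.le]
  have hρ0 : 0 < ρ := norm_pos_iff.2 (wz_ne _ _ hsq)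
  have hR0 : 0 < R := norm_pos_iff.2 (wz_ne _ _ hsp)
  have hρR : ρ < R := lt_of_pow_lt_pow_left₀ 2 hR0.le (by rw [hρ2, hR2]; linarith)
  have hρy : ρ < x + 1 := lt_of_pow_lt_pow_left₀ 2 hy.le (by
    rw [hρ2]
    have : q = 1 / 12 - 1 / (45 * a) := hq
    nlinarith)
  -- the small terms
  have hlim : Tendsto (fun n : ℕ => 2 * A * (ρ / R) ^ n + (x + 1) * T 2 (x + 1) * ((n : ℝ) * (ρ / (x + 1)) ^ n))
      atTop (𝓝 (2 * A * 0 + (x + 1) * T 2 (x + 1) * 0)) := by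
    refine (Tendsto.const_mul _ ?_).add (Tendsto.const_mul _ ?_)
    · exact tendsto_pow_atTop_nhds_zero_of_lt_one (by positivity) ((div_lt_one hR0).2 hρR)
    · exact tendsto_self_mul_const_pow_of_lt_one (by positivity) ((div_lt_one hy).2 hρy)
  rw [mul_zero, mul_zero, add_zero] at hlim
  obtain ⟨M, hM⟩ := (hlim.eventually (gt_mem_nhds hB0)).exists_forall_of_atTop
  obtain ⟨n, hn, hcos⟩ := exists_cos (Complex.arg (wz (Real.sqrt q) x)) (max N (M + 1))
  refine ⟨n, (le_max_left _ _).trans hn, ?_⟩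
  obtain ⟨k, rfl⟩ : ∃ k, n = k + 1 := ⟨n - 1, by have := (le_max_right N (M + 1)).trans hn; omega⟩
  rw [hchain, hform]
  refine mul_neg_of_pos_of_neg (by exact_mod_cast k.factorial_pos) ?_
  have hk := hM (k + 1) (by have := (le_max_right N (M + 1)).trans hn; omega)
  -- the main term
  have hmain : ((wz (Real.sqrt q) x)⁻¹ ^ (k + 1)).re = (ρ⁻¹) ^ (k + 1) * Real.cos (((k + 1 : ℕ) : ℝ) * Complex.arg (wz (Real.sqrt q) x)) := by
    have h1 := Complex.norm_mul_exp_arg_mul_I (wz (Real.sqrt q) x)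
    have h2 : (wz (Real.sqrt q) x)⁻¹ ^ (k + 1) = (((ρ⁻¹) ^ (k + 1) : ℝ) : ℂ) *
        Complex.exp (((-(((k + 1 : ℕ) : ℝ) * Complex.arg (wz (Real.sqrt q) x)) : ℝ) : ℂ) * Complex.I) := by
      have h5 : (wz (Real.sqrt q) x)⁻¹ =
          ((ρ : ℂ) * Complex.exp (Complex.arg (wz (Real.sqrt q) x) * Complex.I))⁻¹ := congrArg _ h1.symm
      rw [h5, mul_inv, mul_pow, ← Complex.exp_neg, ← Complex.exp_nat_mul]
      push_cast
      congr 2
      ring
    rw [h2, Complex.re_ofReal_mul, Complex.exp_ofReal_mul_I_re, Real.cos_neg]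
  have hsec : |((wz (Real.sqrt p) x)⁻¹ ^ (k + 1)).re| ≤ (R⁻¹) ^ (k + 1) := by
    refine (Complex.abs_re_le_norm _).trans ?_
    rw [norm_pow, norm_inv]
  have hT := T_le hy k
  have hT2 : 0 ≤ T 2 (x + 1) := tsum_nonneg fun m => by positivity
  -- multiply by ρ^(k+1)
  have hpow : 0 < ρ ^ (k + 1) := by positivity
  have hgoal : ρ ^ (k + 1) * (((k : ℝ) + 1) * T (k + 2) (x + 1) - 2 * A * ((wz (Real.sqrt p) x)⁻¹ ^ (k + 1)).re -
        2 * B * ((wz (Real.sqrt q) x)⁻¹ ^ (k + 1)).re) < 0 := by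
    have g1 : ρ ^ (k + 1) * (((k : ℝ) + 1) * T (k + 2) (x + 1)) ≤
        (x + 1) * T 2 (x + 1) * (((k + 1 : ℕ) : ℝ) * (ρ / (x + 1)) ^ (k + 1)) := by
      have g11 : (x + 1) * T 2 (x + 1) * (((k + 1 : ℕ) : ℝ) * (ρ / (x + 1)) ^ (k + 1)) =
          ρ ^ (k + 1) * (((k : ℝ) + 1) * (T 2 (x + 1) * ((x + 1)⁻¹) ^ k)) := by
        push_cast
        rw [div_pow, pow_succ (x + 1) k, inv_pow]
        field_simp
      rw [g11]
      gcongr
    have g2 : -(ρ ^ (k + 1) * (2 * A * ((wz (Real.sqrt p) x)⁻¹ ^ (k + 1)).re)) ≤ 2 * A * (ρ / R) ^ (k + 1) := by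
      have g21 : 2 * A * (ρ / R) ^ (k + 1) = ρ ^ (k + 1) * (2 * A * (R⁻¹) ^ (k + 1)) := by
        rw [div_eq_mul_inv, mul_pow]
        ring
      rw [g21, ← mul_neg, ← mul_neg]
      gcongr
      exact (neg_le_abs _).trans hsec
    have g3 : B ≤ ρ ^ (k + 1) * (2 * B * ((wz (Real.sqrt q) x)⁻¹ ^ (k + 1)).re) := by
      rw [hmain]
      have g31 : ρ ^ (k + 1) * (2 * B * ((ρ⁻¹) ^ (k + 1) * Real.cos (((k + 1 : ℕ) : ℝ) * Complex.arg (wz (Real.sqrt q) x)))) =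
          2 * B * Real.cos (((k + 1 : ℕ) : ℝ) * Complex.arg (wz (Real.sqrt q) x)) := by
        rw [inv_pow]
        field_simp
      rw [g31]
      nlinarith
    linarith
  exact (pos_iff_neg_of_mul_neg (by simpa using hgoal)).1 hpow

end Pool.Agent.Lib.Helper30.DigammaRemainder
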