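import Mathlib

/-!
# The digamma remainder of `MP_d2a7e5_an` is not completely monotonic

For every `a > 4/15` (in particular for `a = a₁ = (40 + 3 √205)/105`) the function
`x ↦ 𝓛(x, a) - ψ(x + 1)` is smooth on `(-1, ∞)` and its fourth derivative at `x = -1/2` is
negative.  Hence it is not completely monotonic on `(-1, ∞)`.

Proof: `ψ` differs by a constant from the series `∑ (1/(m+1) - 1/(x+m))` on `(0, ∞)` (both are
monotone and satisfy `f (x+1) = f x + 1/x`), so the fourth derivative of `ψ(x+1)` at `-1/2` is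
`-24 ∑ (m+1/2)^(-5) ≥ -792`, whereas the fourth derivative of `𝓛(·, a)` at `-1/2` is
`-12 (A/p² + B/q²) ≤ -864`.
-/

set_option autoImplicit false

open Set Filter Topology
open scoped ContDiff

namespace Pool.Agent.Lib.Helper30.DigammaRemainder

/-- The (real) digamma function `ψ = Γ'/Γ`. -/
noncomputable def digamma (x : ℝ) : ℝ := deriv Real.Gamma x / Real.Gamma x

/-- The approximation
`𝓛(x, a) = 1/(90a²+2) · ln(x²+x+(3a+1)/3) + 45a²/(90a²+2) · ln(x²+x+(15a-1)/(45a))`. -/
noncomputable def calL (x a : ℝ) : ℝ :=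
  1 / (90 * a ^ 2 + 2) * Real.log (x ^ 2 + x + (3 * a + 1) / 3) +
    45 * a ^ 2 / (90 * a ^ 2 + 2) * Real.log (x ^ 2 + x + (15 * a - 1) / (45 * a))

/-- `F_a(x) = ψ(x+1) - 𝓛(x, a)`. -/
noncomputable def remF (a x : ℝ) : ℝ := digamma (x + 1) - calL x a

/-- The special parameter `a₁ = (40 + 3√205)/105`. -/
noncomputable def a₁ : ℝ := (40 + 3 * Real.sqrt 205) / 105

/-- Auxiliary: the sums `∑ 1/(x+m)^k`. -/
noncomputable def T (k : ℕ) (x : ℝ) : ℝ := ∑' m : ℕ, 1 / (x + m) ^ k

noncomputable def F (x : ℝ) : ℝ := ∑' m : ℕ, (1 / ((m : ℝ) + 1) - 1 / (x + m))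

lemma summable_T {k : ℕ} (hk : 2 ≤ k) {x : ℝ} (hx : 0 < x) : Summable (fun m : ℕ => 1 / (x + m) ^ k) := by
  have h := (Real.summable_one_div_nat_add_rpow x k).2 (by exact_mod_cast hk)
  refine h.congr (fun m => ?_)
  rw [Real.rpow_natCast, add_comm, abs_of_pos (by positivity)]

lemma hasDerivAt_T {k : ℕ} (hk : 2 ≤ k) {x : ℝ} (hx : 0 < x) :
    HasDerivAt (T k) (-(k : ℝ) * T (k + 1) x) x := by
  have hx2 : 0 < x / 2 := by positivity
  have key := hasDerivAt_tsum_of_isPreconnected (𝕜 := ℝ) (F := ℝ) (α := ℕ)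
    (u := fun m : ℕ => (k : ℝ) * (1 / (x / 2 + m) ^ (k + 1)))
    (t := Ioi (x / 2)) (g := fun m y => 1 / (y + m) ^ k)
    (g' := fun m y => -(k : ℝ) * (1 / (y + m) ^ (k + 1))) (y₀ := x) (y := x)
    ((summable_T (by omega) hx2).mul_left _) isOpen_Ioi isPreconnected_Ioi ?_ ?_
    (by simp only [mem_Ioi]; linarith) (summable_T hk hx) (by simp only [mem_Ioi]; linarith)
  · unfold T
    rw [← tsum_mul_left]
    exact key
  · intro m y hy
    have hy0 : 0 < y := lt_trans hx2 (mem_Ioi.1 hy)
    have hpos : 0 < y + m := by positivity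
    have h1 : HasDerivAt (fun y : ℝ => (y + m) ^ k) ((k : ℝ) * (y + m) ^ (k - 1)) y := by
      have := ((hasDerivAt_id y).add_const (m : ℝ)).fun_pow k
      simpa using this
    have h2 := h1.fun_inv (by positivity)
    have : -(k : ℝ) * (1 / (y + m) ^ (k + 1)) = -(↑k * (y + ↑m) ^ (k - 1)) / ((y + ↑m) ^ k) ^ 2 := by
      obtain ⟨j, rfl⟩ : ∃ j, k = j + 1 := ⟨k - 1, by omega⟩
      simp only [Nat.add_sub_cancel]
      field_simp
      ring
    rw [this]
    simpa [one_div] using h2
  · intro m y hy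
    have hy0 : 0 < y := lt_trans hx2 (mem_Ioi.1 hy)
    have hy1 : x / 2 < y := mem_Ioi.1 hy
    have hpos : 0 < y + m := by positivity
    rw [norm_mul, norm_neg, Real.norm_natCast, Real.norm_of_nonneg (by positivity)]
    gcongr

lemma hasDerivAt_F {x : ℝ} (hx : 0 < x) : HasDerivAt F (T 2 x) x := by
  have hx2 : 0 < x / 2 := by positivity
  have h0 : (fun m : ℕ => (1 / ((m : ℝ) + 1) - 1 / (1 + (m : ℝ)))) = fun _ => 0 := by
    funext m; rw [add_comm]; ring
  set y0 : ℝ := 1 with hy0
  have key := hasDerivAt_tsum_of_isPreconnected (𝕜 := ℝ) (F := ℝ) (α := ℕ)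
    (u := fun m : ℕ => (1 / (min (x / 2) (1/2) + m) ^ 2))
    (t := Ioi (min (x / 2) (1/2))) (g := fun m y => (1 / ((m : ℝ) + 1) - 1 / (y + m)))
    (g' := fun m y => (1 / (y + m) ^ 2)) (y₀ := 1) (y := x)
    (summable_T (by omega) (by positivity)) isOpen_Ioi isPreconnected_Ioi ?_ ?_
    (by simp only [mem_Ioi]; exact lt_of_le_of_lt (min_le_right _ _) (by norm_num))
    (by rw [h0]; exact summable_zero) (by simp only [mem_Ioi]; exact lt_of_le_of_lt (min_le_left _ _) (by linarith))
  · exact key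
  · intro m y hy
    have hy' : 0 < y := lt_trans (by positivity) (mem_Ioi.1 hy)
    have hpos : 0 < y + m := by positivity
    have h1 : HasDerivAt (fun y : ℝ => (y + m)) 1 y := by
      simpa using ((hasDerivAt_id y).add_const (m : ℝ))
    have h2 := (h1.fun_inv hpos.ne').const_sub (1 / ((m : ℝ) + 1))
    have e : 1 / (y + (m:ℝ)) ^ 2 = -(-1 / (y + (m:ℝ)) ^ 2) := by ring
    rw [e]
    simpa [one_div] using h2
  · intro m y hy
    have hmin : 0 < min (x / 2) (1/2 : ℝ) := by positivity
    have hy' : min (x / 2) (1/2) < y := mem_Ioi.1 hy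
    have hpos : 0 < y + m := by have : 0 < y := lt_trans hmin hy'
                                positivity
    rw [Real.norm_of_nonneg (by positivity)]
    gcongr

lemma digamma_add_one {x : ℝ} (hx : 0 < x) : digamma (x + 1) = digamma x + 1 / x := by
  unfold digamma
  have hG : 0 < Real.Gamma x := Real.Gamma_pos_of_pos hx
  have hG1 : Real.Gamma (x + 1) = x * Real.Gamma x := Real.Gamma_add_one hx.ne'
  have hd : deriv Real.Gamma (x + 1) = Real.Gamma x + x * deriv Real.Gamma x := by
    have hdiff : DifferentiableAt ℝ Real.Gamma x :=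
      Real.differentiableAt_Gamma (fun m => by have : (0:ℝ) ≤ m := Nat.cast_nonneg m
                                               linarith)
    have h1 : HasDerivAt (fun y => y * Real.Gamma y) (1 * Real.Gamma x + x * deriv Real.Gamma x) x :=
      (hasDerivAt_id x).mul hdiff.hasDerivAt
    have h2 : deriv (fun y => Real.Gamma (y + 1)) x = deriv Real.Gamma (x + 1) := deriv_comp_add_const _ _ _
    rw [← h2]
    have h3 : (fun y => Real.Gamma (y + 1)) =ᶠ[𝓝 x] fun y => y * Real.Gamma y := by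
      filter_upwards [isOpen_Ioi.mem_nhds (show x ∈ Ioi (0:ℝ) from hx)] with y hy
      exact Real.Gamma_add_one (ne_of_gt hy)
    rw [h3.deriv_eq, h1.deriv, one_mul]
  rw [hd, hG1]
  field_simp
  ring

lemma monotoneOn_digamma : MonotoneOn digamma (Ioi 0) := by
  have hdiff : ∀ x ∈ Ioi (0:ℝ), DifferentiableAt ℝ Real.Gamma x := fun x hx =>
      Real.differentiableAt_Gamma (fun m => by
        have h1 : (0:ℝ) ≤ m := Nat.cast_nonneg m
        have h2 : 0 < x := hx
        linarith)
  have hdl : ∀ x ∈ Ioi (0:ℝ), HasDerivAt (Real.log ∘ Real.Gamma) (digamma x) x := fun x hx => by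
    have := (hdiff x hx).hasDerivAt.log (Real.Gamma_pos_of_pos hx).ne'
    exact this
  have h := Real.convexOn_log_Gamma
  have h2 : MonotoneOn (deriv (Real.log ∘ Real.Gamma)) (Ioi 0) := by
    apply h.monotoneOn_deriv
    intro x hx
    exact (hdl x hx).differentiableAt
  intro x hx y hy hxy
  have := h2 hx hy hxy
  rwa [(hdl x hx).deriv, (hdl y hy).deriv] at this

lemma summable_F {x : ℝ} (hx : 0 < x) : Summable (fun m : ℕ => (1 / ((m : ℝ) + 1) - 1 / (x + m))) := by
  have h1 := (summable_T (k := 2) le_rfl (x := min x 1) (by positivity)).mul_left |x - 1|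
  refine Summable.of_norm_bounded h1 (fun m => ?_)
  have hm : (0:ℝ) ≤ m := Nat.cast_nonneg m
  have hpos : 0 < x + m := by positivity
  have e : 1 / ((m : ℝ) + 1) - 1 / (x + m) = (x - 1) * (1 / ((m + 1) * (x + m))) := by
    field_simp
    ring
  rw [e, norm_mul, Real.norm_eq_abs, Real.norm_of_nonneg (by positivity)]
  gcongr
  rw [sq]
  have g1 : min x 1 ≤ x := min_le_left _ _
  have g2 : min x 1 ≤ 1 := min_le_right _ _
  have g3 : 0 < min x 1 := by positivity
  exact mul_le_mul (by linarith) (by linarith) (by positivity) (by positivity)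

lemma F_add_one {x : ℝ} (hx : 0 < x) : F (x + 1) = F x + 1 / x := by
  unfold F
  have hs := summable_F hx
  have hs1 := summable_F (show 0 < x + 1 by linarith)
  have key : Tendsto (fun N : ℕ => ∑ m ∈ Finset.range N, (1 / ((m : ℝ) + 1) - 1 / (x + 1 + m)) -
     ∑ m ∈ Finset.range N, (1 / ((m : ℝ) + 1) - 1 / (x + m))) atTop (𝓝 (1 / x)) := by
    have : ∀ N : ℕ, ∑ m ∈ Finset.range N, (1 / ((m : ℝ) + 1) - 1 / (x + 1 + m)) -
     ∑ m ∈ Finset.range N, (1 / ((m : ℝ) + 1) - 1 / (x + m)) = 1 / x - 1 / (x + N) := by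
      intro N
      rw [← Finset.sum_sub_distrib]
      induction N with
      | zero => simp
      | succ n ih =>
        rw [Finset.sum_range_succ, ih]
        push_cast
        ring
    simp_rw [this]
    have h0 : Tendsto (fun N : ℕ => 1 / (x + (N:ℝ))) atTop (𝓝 0) := by
      apply Tendsto.const_div_atTop
      exact tendsto_atTop_add_const_left _ _ tendsto_natCast_atTop_atTop
    simpa using h0.const_sub (1 / x)
  have h2 := hs1.hasSum.tendsto_sum_nat.sub hs.hasSum.tendsto_sum_nat
  have := tendsto_nhds_unique h2 key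
  linarith

lemma monotoneOn_F : MonotoneOn F (Ioi 0) := by
  intro x hx y hy hxy
  have hx' : 0 < x := hx
  have hy' : 0 < y := hy
  unfold F
  apply Summable.tsum_le_tsum _ (summable_F hx') (summable_F hy')
  intro m
  have hm : (0:ℝ) ≤ m := Nat.cast_nonneg m
  have : 0 < x + m := by positivity
  gcongr

/-- `digamma` and `F` differ by a constant on the positive half line. -/
lemma digamma_eq {x : ℝ} (hx : 0 < x) : digamma x = F x + (digamma 1 - F 1) := by
  -- H := digamma - F is periodic and has small oscillation at infinity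
  have hper : ∀ (y : ℝ), 0 < y → ∀ n : ℕ, digamma (y + n) - F (y + n) = digamma y - F y := by
    intro y hy n
    induction n with
    | zero => simp
    | succ n ih =>
      have hpos : 0 < y + n := by positivity
      push_cast
      rw [← add_assoc, digamma_add_one hpos, F_add_one hpos]
      linarith
  -- main comparison for 0 < y ≤ 1... 
  have main : ∀ y : ℝ, 0 < y → y ≤ 1 → digamma y - F y = digamma 1 - F 1 := by
    intro y hy hy1
    have hb : ∀ n : ℕ, 1 ≤ n → |(digamma y - F y) - (digamma 1 - F 1)| ≤ 1 / (n:ℝ) := by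
      intro n hn
      have hn0 : (0:ℝ) < n := by exact_mod_cast hn
      have m1 := monotoneOn_digamma (show (n:ℝ) ∈ Ioi (0:ℝ) from hn0) (show y + n ∈ Ioi (0:ℝ) from by
        simp only [mem_Ioi]; positivity) (by linarith)
      have m2 := monotoneOn_digamma (show y + n ∈ Ioi (0:ℝ) from by
        simp only [mem_Ioi]; positivity) (show 1 + (n:ℝ) ∈ Ioi (0:ℝ) from by
        simp only [mem_Ioi]; positivity) (by linarith)
      have m3 := monotoneOn_F (show (n:ℝ) ∈ Ioi (0:ℝ) from hn0) (show y + n ∈ Ioi (0:ℝ) from by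
        simp only [mem_Ioi]; positivity) (by linarith)
      have m4 := monotoneOn_F (show y + n ∈ Ioi (0:ℝ) from by
        simp only [mem_Ioi]; positivity) (show 1 + (n:ℝ) ∈ Ioi (0:ℝ) from by
        simp only [mem_Ioi]; positivity) (by linarith)
      have p1 := hper y hy n
      have p2 := hper 1 one_pos n
      have e1 : digamma (1 + (n:ℝ)) = digamma n + 1 / n := by
        rw [add_comm]; exact digamma_add_one hn0
      have e2 : F (1 + (n:ℝ)) = F n + 1 / n := by
        rw [add_comm]; exact F_add_one hn0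
      rw [← p1, ← p2, abs_le]
      constructor <;> linarith
    have hlim : Tendsto (fun n : ℕ => 1 / (n:ℝ)) atTop (𝓝 0) := tendsto_one_div_atTop_nhds_zero_nat
    have : |(digamma y - F y) - (digamma 1 - F 1)| ≤ 0 := by
      refine ge_of_tendsto hlim ?_
      filter_upwards [eventually_ge_atTop 1] with n hn using hb n hn
    have := abs_nonpos_iff.1 this
    linarith
  -- general x: subtract an integer
  have hfl : ∃ (n : ℕ) (y : ℝ), 0 < y ∧ y ≤ 1 ∧ x = y + n := by
    refine ⟨⌈x⌉₊ - 1, x - ((⌈x⌉₊ - 1 : ℕ) : ℝ), ?_, ?_, by ring⟩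
    · have h1 : 1 ≤ ⌈x⌉₊ := Nat.one_le_ceil_iff.2 hx
      rw [Nat.cast_sub h1]
      have := Nat.ceil_lt_add_one hx.le
      push_cast
      linarith
    · have h1 : 1 ≤ ⌈x⌉₊ := Nat.one_le_ceil_iff.2 hx
      rw [Nat.cast_sub h1]
      have := Nat.le_ceil x
      push_cast
      linarith
  obtain ⟨n, y, hy, hy1, rfl⟩ := hfl
  have := hper y hy n
  have := main y hy hy1
  linarith


lemma hasDerivAt_digamma {x : ℝ} (hx : 0 < x) : HasDerivAt digamma (T 2 x) x := by
  have h1 : digamma =ᶠ[𝓝 x] fun y => F y + (digamma 1 - F 1) := by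
    filter_upwards [isOpen_Ioi.mem_nhds (show x ∈ Ioi (0:ℝ) from hx)] with y hy
    exact digamma_eq hy
  exact ((hasDerivAt_F hx).add_const _).congr_of_eventuallyEq h1

lemma contDiffOn_T (n : ℕ) : ∀ {k : ℕ}, 2 ≤ k → ContDiffOn ℝ n (T k) (Ioi 0) := by
  induction n with
  | zero =>
    intro k hk
    rw [Nat.cast_zero, contDiffOn_zero]
    exact fun x hx => (hasDerivAt_T hk hx).continuousAt.continuousWithinAt
  | succ n ih =>
    intro k hk
    rw [Nat.cast_succ, contDiffOn_succ_iff_deriv_of_isOpen isOpen_Ioi]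
    refine ⟨fun x hx => (hasDerivAt_T hk hx).differentiableAt.differentiableWithinAt, by simp, ?_⟩
    have h1 : ContDiffOn ℝ n (fun x => -(k : ℝ) * T (k + 1) x) (Ioi 0) :=
      contDiffOn_const.mul (ih (by omega))
    exact h1.congr (fun x hx => (hasDerivAt_T hk hx).deriv)

lemma contDiffOn_digamma : ContDiffOn ℝ (⊤ : ℕ∞) digamma (Ioi 0) := by
  rw [contDiffOn_infty]
  intro n
  cases n with
  | zero =>
    rw [Nat.cast_zero, contDiffOn_zero]
    exact fun x hx => (hasDerivAt_digamma hx).continuousAt.continuousWithinAt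
  | succ n =>
    rw [Nat.cast_succ, contDiffOn_succ_iff_deriv_of_isOpen isOpen_Ioi]
    refine ⟨fun x hx => (hasDerivAt_digamma hx).differentiableAt.differentiableWithinAt, by simp, ?_⟩
    exact (contDiffOn_T n le_rfl).congr (fun x hx => (hasDerivAt_digamma hx).deriv)


/-! ### Iterated derivatives from a chain of `HasDerivAt` facts -/

lemma iteratedDeriv_chain {U : Set ℝ} (hU : IsOpen U) (g : ℕ → ℝ → ℝ) (N : ℕ)
    (h : ∀ n < N, ∀ x ∈ U, HasDerivAt (g n) (g (n + 1) x) x) :
    ∀ n ≤ N, ∀ x ∈ U, iteratedDeriv n (g 0) x = g n x := by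
  intro n
  induction n with
  | zero => intro _ x _; simp
  | succ n ih =>
    intro hn x hx
    rw [iteratedDeriv_succ]
    have h1 : iteratedDeriv n (g 0) =ᶠ[𝓝 x] g n := by
      filter_upwards [hU.mem_nhds hx] with y hy using ih (by omega) y hy
    rw [h1.deriv_eq, (h n (by omega) x hx).deriv]

/-- The successive derivatives of `x ↦ log (x²+x+c)`. -/
noncomputable def logDer (c : ℝ) : ℕ → ℝ → ℝ
  | 0 => fun x => Real.log (x ^ 2 + x + c)
  | 1 => fun x => (2 * x + 1) / (x ^ 2 + x + c)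
  | 2 => fun x => -2 / (x ^ 2 + x + c) + (4 * c - 1) / (x ^ 2 + x + c) ^ 2
  | 3 => fun x => (2 * x + 1) * (2 / (x ^ 2 + x + c) ^ 2 - 2 * (4 * c - 1) / (x ^ 2 + x + c) ^ 3)
  | _ => fun x => 4 / (x ^ 2 + x + c) ^ 2 - 4 * (4 * c - 1) / (x ^ 2 + x + c) ^ 3
      + (2 * x + 1) ^ 2 * (-4 / (x ^ 2 + x + c) ^ 3 + 6 * (4 * c - 1) / (x ^ 2 + x + c) ^ 4)

lemma quad_pos {c : ℝ} (hc : 1 / 4 < c) (x : ℝ) : 0 < x ^ 2 + x + c := by
  nlinarith [sq_nonneg (x + 1 / 2)]

lemma hasDerivAt_quad (c x : ℝ) : HasDerivAt (fun x : ℝ => x ^ 2 + x + c) (2 * x + 1) x := by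
  have := (((hasDerivAt_id x).fun_pow 2).add (hasDerivAt_id x)).add_const c
  simpa using this

lemma hasDerivAt_logDer {c : ℝ} (hc : 1 / 4 < c) (n : ℕ) (hn : n < 4) (x : ℝ) :
    HasDerivAt (logDer c n) (logDer c (n + 1) x) x := by
  have hD := quad_pos hc x
  have hq := hasDerivAt_quad c x
  have hlin : HasDerivAt (fun x : ℝ => 2 * x + 1) 2 x := by
    simpa using ((hasDerivAt_id x).const_mul 2).add_const 1
  have hinv : ∀ k : ℕ, HasDerivAt (fun x : ℝ => ((x ^ 2 + x + c) ^ (k + 1))⁻¹)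
      (-((k + 1 : ℕ) : ℝ) * (2 * x + 1) / (x ^ 2 + x + c) ^ (k + 2)) x := by
    intro k
    have h1 := (hq.fun_pow (k + 1)).fun_inv (by positivity)
    have e : -((k + 1 : ℕ) : ℝ) * (2 * x + 1) / (x ^ 2 + x + c) ^ (k + 2) =
        -(((k + 1 : ℕ) : ℝ) * (x ^ 2 + x + c) ^ (k + 1 - 1) * (2 * x + 1)) /
          ((x ^ 2 + x + c) ^ (k + 1)) ^ 2 := by
      simp only [Nat.add_sub_cancel]
      set D := x ^ 2 + x + c with hDdef
      rw [div_eq_div_iff (by positivity) (by positivity)]
      ring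
    rw [e]
    exact h1
  interval_cases n
  · exact hq.log hD.ne'
  · have h1 := hlin.mul (hinv 0)
    have e1 : logDer c 1 = ((fun x : ℝ => 2 * x + 1) * fun x : ℝ => ((x ^ 2 + x + c) ^ (0 + 1))⁻¹) := by
      funext y; simp [logDer, div_eq_mul_inv]
    rw [e1]
    refine h1.congr_deriv ?_
    simp only [logDer]
    have e3 : (4 * c - 1) = 4 * (x ^ 2 + x + c) - (2 * x + 1) ^ 2 := by ring
    rw [e3]
    simp only [Nat.cast_one, zero_add, pow_one]
    field_simp
    ring
  · have h1 := ((hinv 0).const_mul (-2)).add ((hinv 1).const_mul (4 * c - 1))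
    have e1 : logDer c 2 = ((fun x : ℝ => (-2) * ((x ^ 2 + x + c) ^ (0 + 1))⁻¹) +
        fun x : ℝ => (4 * c - 1) * ((x ^ 2 + x + c) ^ (1 + 1))⁻¹) := by
      funext y; simp [logDer, div_eq_mul_inv]
    rw [e1]
    refine h1.congr_deriv ?_
    simp only [logDer]
    push_cast
    field_simp
    ring
  · have h1 := hlin.mul (((hinv 1).const_mul 2).sub ((hinv 2).const_mul (2 * (4 * c - 1))))
    have e1 : logDer c 3 = ((fun x : ℝ => 2 * x + 1) *
        ((fun x : ℝ => 2 * ((x ^ 2 + x + c) ^ (1 + 1))⁻¹) -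
        fun x : ℝ => (2 * (4 * c - 1)) * ((x ^ 2 + x + c) ^ (2 + 1))⁻¹)) := by
      funext y; simp [logDer, div_eq_mul_inv]
    rw [e1]
    refine h1.congr_deriv ?_
    simp only [logDer, Pi.sub_apply]
    push_cast
    field_simp
    ring

/-- The successive derivatives of `digamma` on the positive half line. -/
noncomputable def digDer : ℕ → ℝ → ℝ
  | 0 => digamma
  | 1 => T 2
  | 2 => fun x => (-2) * T 3 x
  | 3 => fun x => 6 * T 4 x
  | _ => fun x => (-24) * T 5 x

lemma hasDerivAt_digDer (n : ℕ) (hn : n < 4) {x : ℝ} (hx : 0 < x) :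
    HasDerivAt (digDer n) (digDer (n + 1) x) x := by
  interval_cases n
  · exact hasDerivAt_digamma hx
  · have := hasDerivAt_T (k := 2) le_rfl hx
    simpa [digDer] using this
  · have := (hasDerivAt_T (k := 3) (by norm_num) hx).const_mul (-2)
    refine this.congr_deriv ?_
    simp only [digDer]
    push_cast
    ring
  · have := (hasDerivAt_T (k := 4) (by norm_num) hx).const_mul 6
    refine this.congr_deriv ?_
    simp only [digDer]
    push_cast
    ring

lemma T_five_half_le : T 5 (1 / 2) ≤ 33 := by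
  have hs := summable_T (k := 5) (by norm_num) (x := 1 / 2) (by norm_num)
  unfold T
  rw [hs.tsum_eq_zero_add]
  have hs' : Summable (fun m : ℕ => 1 / ((1 / 2 : ℝ) + ((m + 1 : ℕ) : ℝ)) ^ 5) :=
    (summable_nat_add_iff 1).2 hs
  -- compare the tail with the telescoping series `1/((m+1)(m+2))`
  have htel : HasSum (fun m : ℕ => 1 / ((m : ℝ) + 1) - 1 / ((m : ℝ) + 1 + 1)) 1 := by
    have hF : ∀ N : ℕ, ∑ m ∈ Finset.range N, (1 / ((m : ℝ) + 1) - 1 / ((m : ℝ) + 1 + 1)) =
        1 - 1 / ((N : ℝ) + 1) := by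
      intro N
      induction N with
      | zero => simp
      | succ n ih =>
        rw [Finset.sum_range_succ, ih]
        push_cast
        ring
    rw [hasSum_iff_tendsto_nat_of_nonneg]
    · simp_rw [hF]
      simpa using (tendsto_one_div_add_atTop_nhds_zero_nat (𝕜 := ℝ)).const_sub 1
    · intro m
      have : (0:ℝ) < (m : ℝ) + 1 := by positivity
      rw [sub_nonneg]
      gcongr
      linarith
  have hle : ∑' m : ℕ, 1 / ((1 / 2 : ℝ) + ((m + 1 : ℕ) : ℝ)) ^ 5 ≤ 1 := by
    refine le_trans (Summable.tsum_le_tsum ?_ hs' htel.summable) htel.tsum_eq.le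
    intro m
    have hm : (0:ℝ) ≤ m := Nat.cast_nonneg m
    push_cast
    have e : 1 / ((m : ℝ) + 1) - 1 / ((m : ℝ) + 1 + 1) = 1 / (((m : ℝ) + 1) * (m + 2)) := by
      field_simp
      ring
    rw [e]
    apply one_div_le_one_div_of_le (by positivity)
    have h1 : (1 : ℝ) ≤ 1 / 2 + (m + 1) := by linarith
    calc ((m : ℝ) + 1) * (m + 2) ≤ (1 / 2 + (m + 1)) ^ 2 + 0 := by nlinarith
      _ ≤ (1 / 2 + ((m : ℝ) + 1)) ^ 5 := by
        rw [add_zero]
        exact pow_le_pow_right₀ h1 (by norm_num)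
  have h0 : 1 / ((1 / 2 : ℝ) + ((0 : ℕ) : ℝ)) ^ 5 = 32 := by norm_num
  rw [h0]
  linarith

lemma contDiffOn_log_quad {c : ℝ} (hc : 1 / 4 < c) :
    ContDiff ℝ ∞ (fun x : ℝ => Real.log (x ^ 2 + x + c)) := by
  apply ContDiff.log
  · fun_prop
  · intro x
    exact (quad_pos hc x).ne'

/-- For every `a > 4/15` (in particular for `a = a₁`, as `a₁ > 4/15`), the function
`-F_a = 𝓛(·, a) - ψ(· + 1)` is `C^∞` on `(-1, ∞)`, but `(-1)^4` times its fourth derivative at the
point `-1/2 > -1` is negative; so `-F_a` is not completely monotonic on `(-1, ∞)`. -/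
theorem main :
    4 / 15 < a₁ ∧
    ∀ a : ℝ, 4 / 15 < a →
      ContDiffOn ℝ ∞ (fun x => -remF a x) (Set.Ioi (-1)) ∧
      (-1 : ℝ) ^ 4 * iteratedDeriv 4 (fun x => -remF a x) (-1 / 2) < 0 := by
  constructor
  · unfold a₁
    have : 0 ≤ Real.sqrt 205 := Real.sqrt_nonneg _
    linarith
  intro a ha
  have ha0 : 0 < a := by linarith
  have hc1 : 1 / 4 < (3 * a + 1) / 3 := by linarith
  have hc2 : 1 / 4 < (15 * a - 1) / (45 * a) := by
    rw [lt_div_iff₀ (by positivity)]
    linarith
  constructor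
  · have h1 : ContDiffOn ℝ ∞ (fun x => calL x a) (Ioi (-1)) := by
      unfold calL
      exact ((contDiff_const.mul (contDiffOn_log_quad hc1)).add
        (contDiff_const.mul (contDiffOn_log_quad hc2))).contDiffOn
    have h2 : ContDiffOn ℝ ∞ (fun x : ℝ => digamma (x + 1)) (Ioi (-1)) := by
      apply contDiffOn_digamma.comp (contDiff_id.add contDiff_const).contDiffOn
      intro x hx
      simp only [mem_Ioi] at hx
      show 0 < id x + 1
      simp only [id]
      linarith
    exact (h2.sub h1).neg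
  · -- the chain of derivatives
    set A : ℝ := 1 / (90 * a ^ 2 + 2) with hA
    set B : ℝ := 45 * a ^ 2 / (90 * a ^ 2 + 2) with hB
    set g : ℕ → ℝ → ℝ := fun n x =>
      -(digDer n (x + 1) - (A * logDer ((3 * a + 1) / 3) n x +
        B * logDer ((15 * a - 1) / (45 * a)) n x)) with hg
    have hchain := iteratedDeriv_chain (U := Ioi (-1)) isOpen_Ioi g 4 (by
      intro n hn x hx
      have hx1 : 0 < x + 1 := by simp only [mem_Ioi] at hx; linarith
      have d1 : HasDerivAt (fun x => digDer n (x + 1)) (digDer (n + 1) (x + 1)) x := by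
        have := (hasDerivAt_digDer n hn hx1).comp_add_const x 1
        exact this
      exact (d1.sub (((hasDerivAt_logDer hc1 n hn x).const_mul A).add
        ((hasDerivAt_logDer hc2 n hn x).const_mul B))).neg) 4 le_rfl (-1 / 2) (by
          simp only [mem_Ioi]; norm_num)
    have hg0 : g 0 = fun x => -remF a x := by
      funext x
      simp only [hg, remF, calL, digDer, logDer, hA, hB]
    rw [hg0] at hchain
    rw [hchain]
    simp only [hg, digDer, logDer]
    -- now the numerical estimate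
    have hT := T_five_half_le
    have hTarg : (-1 / 2 + 1 : ℝ) = 1 / 2 := by norm_num
    rw [hTarg]
    set p : ℝ := a + 1 / 12 with hp
    set q : ℝ := (15 * a - 4) / (180 * a) with hq
    have hp0 : 0 < p := by positivity
    have hq0 : 0 < q := by
      apply div_pos <;> linarith
    have e1 : ((-1 / 2 : ℝ)) ^ 2 + (-1 / 2) + (3 * a + 1) / 3 = p := by rw [hp]; ring
    have e2 : ((-1 / 2 : ℝ)) ^ 2 + (-1 / 2) + (15 * a - 1) / (45 * a) = q := by
      rw [hq]; field_simp; ring
    have e3 : 4 * ((3 * a + 1) / 3) - 1 = 4 * p := by rw [hp]; ring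
    have e4 : 4 * ((15 * a - 1) / (45 * a)) - 1 = 4 * q := by
      rw [hq]; field_simp; ring
    rw [e1, e2, e3, e4]
    have f1 : (4 / p ^ 2 - 4 * (4 * p) / p ^ 3 + (2 * (-1 / 2) + 1) ^ 2 *
        (-4 / p ^ 3 + 6 * (4 * p) / p ^ 4)) = -12 / p ^ 2 := by
      field_simp
      ring
    have f2 : (4 / q ^ 2 - 4 * (4 * q) / q ^ 3 + (2 * (-1 / 2) + 1) ^ 2 *
        (-4 / q ^ 3 + 6 * (4 * q) / q ^ 4)) = -12 / q ^ 2 := by
      field_simp
      ring
    rw [f1, f2]
    have hA0 : 0 < A := by positivity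
    have hfirst : 0 ≤ A * (12 / p ^ 2) := by positivity
    have hkey : 864 ≤ B * (12 / q ^ 2) := by
      have e5 : B * (12 / q ^ 2) = 8748000 * a ^ 4 / ((45 * a ^ 2 + 1) * (15 * a - 4) ^ 2) := by
        have h15 : 15 * a - 4 ≠ 0 := by
          intro h; linarith
        rw [hB, hq]
        field_simp
        ring
      rw [e5, le_div_iff₀ (by
        have : 0 < 15 * a - 4 := by linarith
        positivity)]
      nlinarith [mul_pos (mul_pos ha0 ha0) (show 0 < a - 4 / 15 by linarith),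
        mul_pos ha0 (show 0 < a - 4 / 15 by linarith), sq_nonneg a]
    have g1 : A * (-12 / p ^ 2) = -(A * (12 / p ^ 2)) := by ring
    have g2 : B * (-12 / q ^ 2) = -(B * (12 / q ^ 2)) := by ring
    rw [g1, g2]
    nlinarith

end Pool.Agent.Lib.Helper30.DigammaRemainder
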